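import Pool.Agent.Work.MP_29fd3c_np.Interface

set_option autoImplicit false

namespace Pool.TNP

open Finset Complex Pool.TH

theorem p_ALGA (hREC : Stmt_REC) (hCON : Stmt_CON) (hUP : Stmt_UP) : Stmt_ALGA := by
  classical
  intro g G r m hr hm K s β hβ hG
  obtain ⟨A₀, hA₀, hmax⟩ := exists_max_image (K.powerset.filter fun A => F A s β ≠ 0) card
    ⟨∅, mem_filter.2 ⟨mem_powerset.2 (empty_subset _), by
      rw [(hCON g).1]
      exact one_ne_zero⟩⟩
  obtain ⟨hA₀K, hF⟩ := mem_filter.1 hA₀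
  rw [mem_powerset] at hA₀K
  refine ⟨A₀, hA₀K, ?_, hF⟩
  have hKg : K.card ≤ g := by
    have := card_le_univ K
    rwa [Fintype.card_fin] at this
  by_cases hEq : A₀ = K
  · rw [hEq]
    omega
  obtain ⟨v, hvK, hvA⟩ := exists_of_ssubset (hA₀K.ssubset_of_ne hEq)
  have hzero : ∀ R ⊆ K, A₀.card < R.card → F R s β = 0 := by
    intro R hR hc
    by_contra h
    exact absurd (hmax R (mem_filter.2 ⟨mem_powerset.2 hR, h⟩)) (by omega)
  have hrel : ∀ R ⊆ K.erase v, R.card = A₀.card + 1 →
      ∑ j ∈ R, β v j * F (R.erase j) s β = 0 := by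
    intro R hR hc
    have hvR : v ∉ R := fun h => notMem_erase v K (hR h)
    have hRK : R ⊆ K := hR.trans (erase_subset _ _)
    have h1 := hREC g s β hβ R v hvR
    rw [hzero R hRK (by omega), hzero (insert v R) (insert_subset hvK hRK) (by
      rw [card_insert_of_notMem hvR]
      omega)] at h1
    linear_combination -h1
  obtain ⟨N, hN⟩ : ∃ N, N = (K.erase v).filter fun j => β v j ≠ 0 := ⟨_, rfl⟩
  have hNK : N ⊆ K.erase v := by
    rw [hN]
    exact filter_subset _ _
  have hNβ : ∀ j ∈ N, β v j ≠ 0 := fun j hj => by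
    rw [hN] at hj
    exact (mem_filter.1 hj).2
  have hNβ' : ∀ j ∈ K.erase v, j ∉ N → β v j = 0 := fun j hj hjN => by
    by_contra h
    exact hjN (by rw [hN]; exact mem_filter.2 ⟨hj, h⟩)
  have hA₀v : A₀ ⊆ K.erase v := fun j hj => mem_erase.2 ⟨fun h => hvA (h ▸ hj), hA₀K hj⟩
  have hcards : (A₀ ∩ N).card + (A₀ \ N).card = A₀.card := card_inter_add_card_sdiff _ _
  have key : N.card ≤ 2 * (A₀ ∩ N).card := by
    by_contra hlt
    have h1 := hUP g N (A₀ ∩ N).card
      (fun T => F (T ∪ (A₀ \ N)) s β / ∏ j ∈ T, β v j) (by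
        intro T hT hTc
        have hd : Disjoint T (A₀ \ N) := by
          rw [disjoint_left]
          intro x hx hx'
          exact (mem_sdiff.1 hx').2 (hT hx)
        have hR : T ∪ (A₀ \ N) ⊆ K.erase v :=
          union_subset (hT.trans hNK) (sdiff_subset.trans hA₀v)
        have h2 := hrel (T ∪ (A₀ \ N)) hR (by
          rw [card_union_of_disjoint hd]
          omega)
        rw [sum_union hd] at h2
        have h3 : ∑ j ∈ A₀ \ N, β v j * F ((T ∪ (A₀ \ N)).erase j) s β = 0 := by
          refine sum_eq_zero fun j hj => ?_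
          rw [hNβ' j (hA₀v (mem_sdiff.1 hj).1) (mem_sdiff.1 hj).2, zero_mul]
        rw [h3, add_zero] at h2
        have h4 : ∀ j ∈ T, F ((T.erase j) ∪ (A₀ \ N)) s β / ∏ i ∈ T.erase j, β v i =
            (β v j * F ((T ∪ (A₀ \ N)).erase j) s β) / ∏ i ∈ T, β v i := by
          intro j hj
          have h5 : (T ∪ (A₀ \ N)).erase j = (T.erase j) ∪ (A₀ \ N) := by
            rw [erase_union_distrib, erase_eq_of_notMem (disjoint_left.1 hd hj)]
          have h6 : β v j ≠ 0 := hNβ j (hT hj)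
          rw [h5, ← mul_prod_erase T (fun i => β v i) hj, mul_div_mul_left _ _ h6]
        rw [sum_congr rfl h4, ← sum_div, h2, zero_div]) (by omega) (A₀ ∩ N) inter_subset_right rfl
    have h2 : (A₀ ∩ N) ∪ (A₀ \ N) = A₀ := by
      rw [union_comm, sdiff_union_inter]
    simp only [h2] at h1
    rcases div_eq_zero_iff.1 h1 with h3 | h3
    · exact hF h3
    · obtain ⟨j, hj, hj0⟩ := prod_eq_zero_iff.1 h3
      exact hNβ j (mem_inter.1 hj).2 hj0
  have hcount : (K.erase v).card ≤ N.card + r := by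
    have h1 : (K.erase v).card = N.card + ((K.erase v).filter fun j => ¬ β v j ≠ 0).card := by
      rw [hN, card_filter_add_card_filter_not]
    have h2 : ((K.erase v).filter fun j => ¬ β v j ≠ 0).card ≤ r := by
      refine le_trans ?_ (hr v)
      rw [← Set.ncard_coe_finset]
      refine Set.ncard_le_ncard ?_ (Set.toFinite _)
      intro j hj
      obtain ⟨h3, h4⟩ := mem_filter.1 (mem_coe.1 hj)
      obtain ⟨h5, h6⟩ := mem_erase.1 h3
      exact ⟨h5, fun h => h4 (hG v hvK j h6 (Ne.symm h5) h)⟩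
    omega
  rw [card_erase_of_mem hvK] at hcount
  have hk : (A₀ ∩ N).card ≤ A₀.card := card_le_card inter_subset_left
  omega

end Pool.TNP
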