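import Pool.Agent.Work.MP_29fd3c_np.Interface

set_option autoImplicit false

namespace Pool.TNP

open Finset Complex Pool.TH

def ALGB_e (k : Fin 3) : Fin 6 := ![0, 2, 4] k
def ALGB_f (k : Fin 3) : Fin 6 := ![1, 3, 5] k

theorem ALGB_d1 : ∀ k : Fin 3, ALGB_e k ≠ ALGB_f k := by decide
theorem ALGB_d2 : ∀ k l : Fin 3, k ≠ l → ALGB_e k ≠ ALGB_e l ∧ ALGB_e k ≠ ALGB_f l ∧
    ALGB_f k ≠ ALGB_e l ∧ ALGB_f k ≠ ALGB_f l := by decide

theorem p_ALGB (hREC : Stmt_REC) (hCON : Stmt_CON) (hTWO : Stmt_TWO) (hTHR : Stmt_THR) :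
    Stmt_ALGB := by
  classical
  intro g G i m hi h01 h23 h45 hm K s β hβ hG
  have hGk : ∀ k : Fin 3, G (i (ALGB_e k)) (i (ALGB_f k)) := by
    intro k
    fin_cases k
    · exact h01
    · exact h23
    · exact h45
  have hpair : ∀ k : Fin 3, i (ALGB_e k) ∈ K → i (ALGB_f k) ∈ K →
      β (i (ALGB_e k)) (i (ALGB_f k)) ≠ 0 := fun k h1 h2 =>
    hG _ h1 _ h2 (hi.ne (ALGB_d1 k)) (hGk k)
  obtain ⟨T, hT⟩ : ∃ T : Finset (Fin 3), T = univ.filter fun k =>
    i (ALGB_e k) ∈ K ∧ i (ALGB_f k) ∈ K := ⟨_, rfl⟩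
  have hT1 : ∀ k ∈ T, i (ALGB_e k) ∈ K ∧ i (ALGB_f k) ∈ K := fun k hk => by
    rw [hT] at hk
    exact (mem_filter.1 hk).2
  -- one element outside `K` for every pair which is not inside
  have hout : ∀ k : Fin 3, ∃ c : Fin 6, (c = ALGB_e k ∨ c = ALGB_f k) ∧ (k ∉ T → i c ∉ K) := by
    intro k
    by_cases h1 : i (ALGB_e k) ∈ K
    · refine ⟨ALGB_f k, Or.inr rfl, fun hk h2 => hk ?_⟩
      rw [hT]
      exact mem_filter.2 ⟨mem_univ _, h1, h2⟩
    · exact ⟨ALGB_e k, Or.inl rfl, fun _ => h1⟩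
  choose c hc hcK using hout
  have hcinj : Function.Injective c := by
    intro k l hkl
    by_contra hne
    obtain ⟨d1, d2, d3, d4⟩ := ALGB_d2 k l hne
    rcases hc k with h1 | h1 <;> rcases hc l with h2 | h2 <;> rw [h1, h2] at hkl
    · exact d1 hkl
    · exact d2 hkl
    · exact d3 hkl
    · exact d4 hkl
  have hcard : K.card + Tᶜ.card ≤ g := by
    have h1 : (Tᶜ.image fun k => i (c k)).card = Tᶜ.card :=
      card_image_of_injective _ (hi.comp hcinj)
    have h2 : Disjoint K (Tᶜ.image fun k => i (c k)) := by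
      rw [disjoint_right]
      intro x hx
      obtain ⟨k, hk, rfl⟩ := mem_image.1 hx
      exact hcK k (mem_compl.1 hk)
    rw [← h1, ← card_union_of_disjoint h2]
    have := card_le_univ (K ∪ Tᶜ.image fun k => i (c k))
    rwa [Fintype.card_fin] at this
  have hTc : Tᶜ.card = 3 - T.card := by rw [card_compl, Fintype.card_fin]
  have hT3 : T.card ≤ 3 := by
    have := card_le_univ T
    rwa [Fintype.card_fin] at this
  suffices h : ∃ A ⊆ K, T.card ≤ A.card ∧ F A s β ≠ 0 by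
    obtain ⟨A, hA, h1, h2⟩ := h
    exact ⟨A, hA, by omega, h2⟩
  rcases Nat.lt_or_ge T.card 1 with h | h1
  · refine ⟨∅, empty_subset _, by omega, ?_⟩
    rw [(hCON g).1]
    exact one_ne_zero
  rcases Nat.lt_or_ge T.card 2 with h | h2
  · -- one pair
    obtain ⟨k, hk⟩ := card_eq_one.1 (show T.card = 1 by omega)
    obtain ⟨ha, hb⟩ := hT1 k (by rw [hk]; exact mem_singleton_self _)
    have hab : i (ALGB_e k) ≠ i (ALGB_f k) := hi.ne (ALGB_d1 k)
    have hF1 : ∀ x, F {x} s β = s x := by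
      intro x
      have h := hREC g s β hβ ∅ x (notMem_empty _)
      rw [insert_empty_eq] at h
      rw [h, sum_empty, add_zero, (hCON g).1, mul_one]
    have hF2 : F {i (ALGB_e k), i (ALGB_f k)} s β =
        s (i (ALGB_e k)) * s (i (ALGB_f k)) + β (i (ALGB_e k)) (i (ALGB_f k)) := by
      have h := hREC g s β hβ {i (ALGB_f k)} (i (ALGB_e k)) (by simpa using hab)
      rw [h, hF1, sum_singleton, erase_singleton, (hCON g).1, mul_one]
    by_cases hs : s (i (ALGB_e k)) = 0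
    · refine ⟨{i (ALGB_e k), i (ALGB_f k)}, insert_subset ha (singleton_subset_iff.2 hb), ?_, ?_⟩
      · rw [card_pair hab]
        omega
      · rw [hF2, hs, zero_mul, zero_add]
        exact hpair k ha hb
    · refine ⟨{i (ALGB_e k)}, singleton_subset_iff.2 ha, ?_, ?_⟩
      · rw [card_singleton]
        omega
      · rwa [hF1]
  rcases Nat.lt_or_ge T.card 3 with h | h3
  · -- two pairs
    obtain ⟨k, l, hkl, hT'⟩ := card_eq_two.1 (show T.card = 2 by omega)
    obtain ⟨ha, hb⟩ := hT1 k (by rw [hT']; exact mem_insert_self _ _)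
    obtain ⟨hc', hd⟩ := hT1 l (by rw [hT']; exact mem_insert_of_mem (mem_singleton_self _))
    obtain ⟨d1, d2, d3, d4⟩ := ALGB_d2 k l hkl
    obtain ⟨A, hA, h4, h5⟩ := hTWO g s β hβ _ _ _ _ (hi.ne (ALGB_d1 k)) (hi.ne d1) (hi.ne d2)
      (hi.ne d3) (hi.ne d4) (hi.ne (ALGB_d1 l)) (hpair k ha hb) (hpair l hc' hd)
    refine ⟨A, hA.trans ?_, by omega, h5⟩
    exact insert_subset ha (insert_subset hb (insert_subset hc' (singleton_subset_iff.2 hd)))
  · -- three pairs
    have hTu : T = univ := by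
      rw [← card_eq_iff_eq_univ, Fintype.card_fin]
      omega
    have hall : ∀ k, i (ALGB_e k) ∈ K ∧ i (ALGB_f k) ∈ K := fun k =>
      hT1 k (by rw [hTu]; exact mem_univ _)
    obtain ⟨A, hA, h4, h5⟩ := hTHR g s β hβ i hi (hpair 0 (hall 0).1 (hall 0).2)
      (hpair 1 (hall 1).1 (hall 1).2) (hpair 2 (hall 2).1 (hall 2).2)
    refine ⟨A, hA.trans ?_, by omega, h5⟩
    intro x hx
    obtain ⟨j, -, rfl⟩ := mem_image.1 hx
    fin_cases j
    · exact (hall 0).1
    · exact (hall 0).2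
    · exact (hall 1).1
    · exact (hall 1).2
    · exact (hall 2).1
    · exact (hall 2).2

end Pool.TNP
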