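import Pool.Agent.Work.MP_29fd3c_np.Interface

set_option autoImplicit false

namespace Pool.TNP

open Finset Complex Pool.TH

theorem ANA_deg_insert {g : ℕ} (E : Finset (Fin g × Fin g)) (e : Fin g × Fin g) (he : e ∉ E) (i : Fin g) :
    deg (insert e E) i = deg E i + (if e.1 = i ∨ e.2 = i then 1 else 0) := by
  unfold deg
  rw [filter_insert]
  split_ifs with h
  · rw [card_insert_of_notMem]
    intro h'
    exact he (mem_of_mem_filter _ h')
  · rfl

theorem ANA_deg {g : ℕ} (h : Fin g → ℂ) (E : Finset (Fin g × Fin g)) (hE : E ⊆ P g) :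
    ∏ e ∈ E, (h e.1 * h e.2) = ∏ i, h i ^ deg E i := by
  induction E using Finset.induction_on with
  | empty => simp [deg]
  | insert e E he ih =>
    have hE' : E ⊆ P g := (subset_insert e E).trans hE
    have heP : e ∈ P g := hE (mem_insert_self e E)
    have hne : e.1 ≠ e.2 := by
      unfold P at heP
      rw [mem_filter] at heP
      exact ne_of_lt heP.2
    rw [prod_insert he, ih hE']
    have h1 : ∀ i, h i ^ deg (insert e E) i = (if e.1 = i ∨ e.2 = i then h i else 1) * h i ^ deg E i := by
      intro i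
      rw [ANA_deg_insert E e he i]
      split_ifs
      · rw [pow_succ]; ring
      · rw [add_zero, one_mul]
    rw [prod_congr rfl (fun i _ => h1 i), prod_mul_distrib]
    congr 1
    rw [← prod_filter]
    have h2 : (univ : Finset (Fin g)).filter (fun i => e.1 = i ∨ e.2 = i) = {e.1, e.2} := by
      ext i
      simp only [mem_filter, mem_univ, true_and, mem_insert, mem_singleton]
      constructor
      · rintro (h | h)
        · exact Or.inl h.symm
        · exact Or.inr h.symm
      · rintro (h | h)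
        · exact Or.inl h.symm
        · exact Or.inr h.symm
    rw [h2, prod_pair hne]

theorem p_ANA (hTE : Stmt_TE) (hMOM : Stmt_MOM) (hPR : Stmt_PR) : Stmt_ANA := by
  intro g
  obtain ⟨C, hC, hTE⟩ := hTE g
  obtain ⟨B, hB, hMOM⟩ := hMOM
  have hB0 : (0 : ℝ) < B := lt_of_lt_of_le one_pos hB
  refine ⟨(2 : ℝ) ^ (P g).card * (C * B ^ g), by positivity, ?_⟩
  intro a ha ε l t hS U
  set M : Fin g → ℂ := fun i => ∑' n : ℤ, a i n with hM
  set ν : Fin g → ℂ := fun i => ∑' n : ℤ, (n : ℂ) * a i n with hν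
  set w : Fin g → ℤ → ℂ := fun i n => if i ∈ U then (n : ℂ) * a i n else a i n with hwdef
  have hwU : ∀ i, i ∈ U → w i = fun (n : ℤ) => (n : ℂ) * a i n := by
    intro i hi; funext n; simp only [hwdef]; rw [if_pos hi]
  have hwU' : ∀ i, i ∉ U → w i = a i := by
    intro i hi; funext n; simp only [hwdef]; rw [if_neg hi]
  have hw : ∀ i, Dec (w i) := by
    intro i
    by_cases hi : i ∈ U
    · rw [hwU i hi]; exact (hMOM (a i) (ha i)).2.1
    · rw [hwU' i hi]; exact (hMOM (a i) (ha i)).1
  have hwB : ∀ i, ‖∑' n, w i n‖ ≤ B := by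
    intro i
    by_cases hi : i ∈ U
    · rw [hwU i hi]; exact (hMOM (a i) (ha i)).2.2.2
    · rw [hwU' i hi]; exact (hMOM (a i) (ha i)).2.2.1
  have hT := hTE w hw ε l t hS
  set mx : ℝ := ∏ i ∈ Uᶜ, max (l i) ‖M i‖ with hmx
  have hmx0 : 0 ≤ mx := prod_nonneg (fun i _ => le_max_of_le_right (norm_nonneg _))
  -- the left sum
  have hsum : ∑' n : Fin g → ℤ, (∏ i ∈ U, (n i : ℂ)) *
      ((∏ i, a i (n i)) * Complex.exp (∑ e ∈ P g, ex t n e)) =
      ∑ E ∈ (P g).powerset, ∑' n : Fin g → ℤ, (∏ i, w i (n i)) * ∏ e ∈ E, (Complex.exp (ex t n e) - 1) := by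
    have h1 : ∀ n : Fin g → ℤ, (∏ i ∈ U, (n i : ℂ)) *
        ((∏ i, a i (n i)) * Complex.exp (∑ e ∈ P g, ex t n e)) =
        ∑ E ∈ (P g).powerset, (∏ i, w i (n i)) * ∏ e ∈ E, (Complex.exp (ex t n e) - 1) := by
      intro n
      have h2 : (∏ i ∈ U, (n i : ℂ)) * (∏ i, a i (n i)) = ∏ i, w i (n i) := by
        have h3 : ∏ i ∈ U, (n i : ℂ) = ∏ i, (if i ∈ U then (n i : ℂ) else 1) := by
          rw [← prod_filter, filter_mem_eq_inter, univ_inter]
        rw [h3, ← prod_mul_distrib]
        apply prod_congr rfl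
        intro i _
        simp only [hwdef]
        split_ifs
        · rfl
        · rw [one_mul]
      rw [← mul_assoc, h2, ← mul_sum, Complex.exp_sum]
      congr 1
      have h4 : ∏ e ∈ P g, Complex.exp (ex t n e) = ∏ e ∈ P g, (1 + (Complex.exp (ex t n e) - 1)) := by
        apply prod_congr rfl
        intro e _
        ring
      rw [h4, prod_one_add]
    rw [tsum_congr h1, Summable.tsum_finsetSum]
    intro E hE
    exact (hT E (mem_powerset.1 hE)).1.of_norm
  rw [hsum]
  unfold F
  rw [sum_filter, mul_sum, ← sum_sub_distrib]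
  have key : ∀ E ∈ (P g).powerset,
      ‖(∑' n : Fin g → ℤ, (∏ i, w i (n i)) * ∏ e ∈ E, (Complex.exp (ex t n e) - 1)) -
        (∏ i ∈ U, ν i) * (if IsM Uᶜ E then
          (∏ e ∈ E, 2 * Real.pi * Complex.I * t e.1 e.2 * (ν e.1) * (ν e.2)) *
            ∏ i ∈ Uᶜ.filter (fun i => deg E i = 0), M i else 0)‖ ≤ C * B ^ g * ε * mx := by
    intro E hE
    rw [mem_powerset] at hE
    obtain ⟨_, hT1, hT2⟩ := hT E hE
    -- the product over the uncovered vertices
    have hprod : ∏ i ∈ univ.filter (fun i => deg E i = 0), ‖∑' n, w i n‖ ≤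
        B ^ g * ∏ i ∈ Uᶜ.filter (fun i => deg E i = 0), ‖M i‖ := by
      have h1 : (univ.filter (fun i => deg E i = 0) : Finset (Fin g)) =
          U.filter (fun i => deg E i = 0) ∪ Uᶜ.filter (fun i => deg E i = 0) := by
        rw [← filter_union, union_compl]
      have h2 : Disjoint (U.filter (fun i => deg E i = 0)) (Uᶜ.filter (fun i => deg E i = 0)) :=
        disjoint_filter_filter disjoint_compl_right
      rw [h1, prod_union h2]
      have h3 : ∏ i ∈ U.filter (fun i => deg E i = 0), ‖∑' n, w i n‖ ≤ B ^ g := by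
        calc ∏ i ∈ U.filter (fun i => deg E i = 0), ‖∑' n, w i n‖
            ≤ ∏ i ∈ U.filter (fun i => deg E i = 0), B :=
              prod_le_prod (fun i _ => norm_nonneg _) (fun i _ => hwB i)
          _ = B ^ (U.filter (fun i => deg E i = 0)).card := by rw [prod_const]
          _ ≤ B ^ g := by
              apply pow_le_pow_right₀ hB
              calc (U.filter (fun i => deg E i = 0)).card ≤ (univ : Finset (Fin g)).card :=
                    card_le_card (subset_univ _)
                _ = g := by rw [card_univ, Fintype.card_fin]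
      have h4 : ∏ i ∈ Uᶜ.filter (fun i => deg E i = 0), ‖∑' n, w i n‖ =
          ∏ i ∈ Uᶜ.filter (fun i => deg E i = 0), ‖M i‖ := by
        apply prod_congr rfl
        intro i hi
        rw [mem_filter, mem_compl] at hi
        rw [hwU' i hi.1]
      rw [h4]
      exact mul_le_mul_of_nonneg_right h3 (prod_nonneg (fun i _ => norm_nonneg _))
    have hll : 0 ≤ ∏ e ∈ E, l e.1 * l e.2 :=
      prod_nonneg (fun e _ => mul_nonneg (hS.lpos _).le (hS.lpos _).le)
    have hε1 : ε ≤ 1 := le_trans hS.le (by norm_num)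
    obtain ⟨hPR1, hPR2⟩ := hPR g ε l (fun i => ‖M i‖) hS.pos hε1 hS.lpos hS.lle (fun i => norm_nonneg _) Uᶜ E hE
    by_cases hIs : IsM Uᶜ E
    · rw [if_pos hIs]
      have hdU : ∀ i ∈ U, deg E i = 0 := by
        intro i hi
        have := hIs i
        rw [if_neg (by rw [mem_compl]; exact fun h => h hi)] at this
        omega
      have hdle : ∀ i, deg E i ≤ 1 := by
        intro i
        refine le_trans (hIs i) ?_
        split_ifs <;> omega
      have hmain : (∏ i ∈ U, ν i) * ((∏ e ∈ E, 2 * Real.pi * Complex.I * t e.1 e.2 * (ν e.1) * (ν e.2)) *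
            ∏ i ∈ Uᶜ.filter (fun i => deg E i = 0), M i) =
          (∏ e ∈ E, 2 * Real.pi * Complex.I * t e.1 e.2) *
          ∏ i, ∑' n : ℤ, w i n * (n : ℂ) ^ deg E i := by
        have h1 : ∏ e ∈ E, 2 * Real.pi * Complex.I * t e.1 e.2 * (ν e.1) * (ν e.2) =
            (∏ e ∈ E, 2 * Real.pi * Complex.I * t e.1 e.2) * ∏ i, ν i ^ deg E i := by
          rw [← ANA_deg ν E hE, ← prod_mul_distrib]
          apply prod_congr rfl
          intro e _
          ring
        have h2 : ∏ i, ∑' n : ℤ, w i n * (n : ℂ) ^ deg E i =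
            (∏ i ∈ U, ν i) * ((∏ i, ν i ^ deg E i) * ∏ i ∈ Uᶜ.filter (fun i => deg E i = 0), M i) := by
          have h3 : ∀ i, ∑' n : ℤ, w i n * (n : ℂ) ^ deg E i =
              (if i ∈ U then ν i else 1) * (ν i ^ deg E i * (if i ∈ Uᶜ ∧ deg E i = 0 then M i else 1)) := by
            intro i
            by_cases hi : i ∈ U
            · rw [hwU i hi, hdU i hi, if_pos hi, if_neg (by rw [mem_compl]; exact fun h => h.1 hi)]
              simp [hν]
            · rw [hwU' i hi, if_neg hi]
              have hd := hdle i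
              by_cases hd0 : deg E i = 0
              · rw [hd0, if_pos ⟨by rw [mem_compl]; exact hi, rfl⟩]
                simp [hM]
              · have hd1 : deg E i = 1 := by omega
                rw [hd1, if_neg (by omega)]
                simp only [pow_one, one_mul, mul_one, hν]
                exact tsum_congr (fun n => mul_comm _ _)
          rw [prod_congr rfl (fun i _ => h3 i), prod_mul_distrib, prod_mul_distrib]
          congr 1
          · rw [← prod_filter, filter_mem_eq_inter, univ_inter]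
          · congr 1
            rw [← prod_filter]
            congr 1
            ext i
            simp only [mem_filter, mem_univ, true_and]
        rw [h1, h2]
        ring
      rw [hmain]
      -- combine the two series
      refine le_trans hT2 ?_
      calc C * ε * (∏ e ∈ E, l e.1 * l e.2) * ∏ i ∈ univ.filter (fun i => deg E i = 0), ‖∑' n, w i n‖
          ≤ C * ε * (∏ e ∈ E, l e.1 * l e.2) *
            (B ^ g * ∏ i ∈ Uᶜ.filter (fun i => deg E i = 0), ‖M i‖) :=
            mul_le_mul_of_nonneg_left hprod (mul_nonneg (mul_nonneg hC.le hS.pos.le) hll)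
        _ = C * B ^ g * ε * ((∏ e ∈ E, l e.1 * l e.2) * ∏ i ∈ Uᶜ.filter (fun i => deg E i = 0), ‖M i‖) := by
            ring
        _ ≤ C * B ^ g * ε * mx :=
            mul_le_mul_of_nonneg_left (hPR1 hIs)
              (mul_nonneg (mul_nonneg hC.le (pow_nonneg hB0.le _)) hS.pos.le)
    · rw [if_neg hIs, mul_zero, sub_zero]
      refine le_trans hT1 ?_
      calc C * (∏ e ∈ E, l e.1 * l e.2) * ∏ i ∈ univ.filter (fun i => deg E i = 0), ‖∑' n, w i n‖
          ≤ C * (∏ e ∈ E, l e.1 * l e.2) *
            (B ^ g * ∏ i ∈ Uᶜ.filter (fun i => deg E i = 0), ‖M i‖) :=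
            mul_le_mul_of_nonneg_left hprod (mul_nonneg hC.le hll)
        _ = C * B ^ g * ((∏ e ∈ E, l e.1 * l e.2) * ∏ i ∈ Uᶜ.filter (fun i => deg E i = 0), ‖M i‖) := by
            ring
        _ ≤ C * B ^ g * (ε * mx) :=
            mul_le_mul_of_nonneg_left (hPR2 hIs) (mul_nonneg hC.le (pow_nonneg hB0.le _))
        _ = C * B ^ g * ε * mx := by ring
  refine le_trans (norm_sum_le _ _) ?_
  refine le_trans (sum_le_sum key) ?_
  rw [sum_const, card_powerset, nsmul_eq_mul]
  push_cast
  apply le_of_eq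
  ring

end Pool.TNP
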