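import Pool.Agent.Work.MP_29fd3c_np.Interface

set_option autoImplicit false

namespace Pool.TNP

open Finset Complex Pool.TH

theorem p_CON : Stmt_CON := by
  intro g
  constructor
  · intro s β
    have h : (P g).powerset.filter (IsM ∅) = {∅} := by
      ext E
      simp only [mem_filter, mem_powerset, mem_singleton]
      constructor
      · rintro ⟨-, h2⟩
        by_contra hne
        obtain ⟨e, he⟩ := nonempty_iff_ne_empty.2 hne
        have h3 := h2 e.1
        rw [if_neg (notMem_empty _)] at h3
        have h4 : 0 < deg E e.1 := card_pos.2 ⟨e, mem_filter.2 ⟨he, Or.inl rfl⟩⟩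
        omega
      · rintro rfl
        exact ⟨empty_subset _, fun i => by simp [deg]⟩
    unfold F
    rw [h]
    simp
  · intro A
    unfold F
    refine continuous_finsetSum _ fun E _ => ?_
    refine Continuous.mul ?_ ?_
    · refine continuous_finsetProd _ fun e _ => ?_
      exact (continuous_apply e.2).comp ((continuous_apply e.1).comp continuous_snd)
    · refine continuous_finsetProd _ fun i _ => ?_
      exact (continuous_apply i).comp continuous_fst

end Pool.TNP
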