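import Pool.Agent.Work.MP_29fd3c_np.Interface

/-! # CPT: compactness (helper79) -/

set_option autoImplicit false

namespace Pool.TNP

open Finset Complex Pool.TH

/-- the compact set of the parameters -/
def CPT_X (g : ℕ) (κ B : ℝ) (G : Fin g → Fin g → Prop) :
    Set ((Fin g → ℂ) × (Fin g → ℂ) × (Fin g → Fin g → ℂ)) :=
  {x | (∀ i, ‖x.1 i‖ ≤ B) ∧ (∀ i, ‖x.2.1 i‖ ≤ 1) ∧ (∀ i, ‖x.2.1 i‖ = 1 ∨ 1 / 2 ≤ ‖x.1 i‖) ∧
    (∀ i j, x.2.2 i j = x.2.2 j i) ∧ (∀ i j, ‖x.2.2 i j‖ ≤ 2 * Real.pi) ∧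
    (∀ i j, i ≠ j → G i j → 2 * Real.pi * κ ≤ ‖x.2.2 i j‖)}

theorem CPT_closed (g : ℕ) (κ B : ℝ) (G : Fin g → Fin g → Prop) :
    IsClosed (CPT_X g κ B G) := by
  have c1 : ∀ i : Fin g, Continuous
      (fun x : (Fin g → ℂ) × (Fin g → ℂ) × (Fin g → Fin g → ℂ) => ‖x.1 i‖) := by
    intro i; fun_prop
  have c2 : ∀ i : Fin g, Continuous
      (fun x : (Fin g → ℂ) × (Fin g → ℂ) × (Fin g → Fin g → ℂ) => ‖x.2.1 i‖) := by
    intro i; fun_prop
  have c3 : ∀ i j : Fin g, Continuous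
      (fun x : (Fin g → ℂ) × (Fin g → ℂ) × (Fin g → Fin g → ℂ) => x.2.2 i j) := by
    intro i j; fun_prop
  have h1 : IsClosed {x : (Fin g → ℂ) × (Fin g → ℂ) × (Fin g → Fin g → ℂ) |
      ∀ i, ‖x.1 i‖ ≤ B} := by
    rw [Set.ofPred_forall]
    exact isClosed_iInter fun i => isClosed_le (c1 i) continuous_const
  have h2 : IsClosed {x : (Fin g → ℂ) × (Fin g → ℂ) × (Fin g → Fin g → ℂ) |
      ∀ i, ‖x.2.1 i‖ ≤ 1} := by
    rw [Set.ofPred_forall]
    exact isClosed_iInter fun i => isClosed_le (c2 i) continuous_const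
  have h3 : IsClosed {x : (Fin g → ℂ) × (Fin g → ℂ) × (Fin g → Fin g → ℂ) |
      ∀ i, ‖x.2.1 i‖ = 1 ∨ 1 / 2 ≤ ‖x.1 i‖} := by
    rw [Set.ofPred_forall]
    refine isClosed_iInter fun i => ?_
    rw [Set.ofPred_or]
    exact (isClosed_eq (c2 i) continuous_const).union (isClosed_le continuous_const (c1 i))
  have h4 : IsClosed {x : (Fin g → ℂ) × (Fin g → ℂ) × (Fin g → Fin g → ℂ) |
      ∀ i j, x.2.2 i j = x.2.2 j i} := by
    rw [Set.ofPred_forall]
    refine isClosed_iInter fun i => ?_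
    rw [Set.ofPred_forall]
    exact isClosed_iInter fun j => isClosed_eq (c3 i j) (c3 j i)
  have h5 : IsClosed {x : (Fin g → ℂ) × (Fin g → ℂ) × (Fin g → Fin g → ℂ) |
      ∀ i j, ‖x.2.2 i j‖ ≤ 2 * Real.pi} := by
    rw [Set.ofPred_forall]
    refine isClosed_iInter fun i => ?_
    rw [Set.ofPred_forall]
    exact isClosed_iInter fun j => isClosed_le (c3 i j).norm continuous_const
  have h6 : IsClosed {x : (Fin g → ℂ) × (Fin g → ℂ) × (Fin g → Fin g → ℂ) |
      ∀ i j, i ≠ j → G i j → 2 * Real.pi * κ ≤ ‖x.2.2 i j‖} := by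
    rw [Set.ofPred_forall]
    refine isClosed_iInter fun i => ?_
    rw [Set.ofPred_forall]
    refine isClosed_iInter fun j => ?_
    by_cases hij : i ≠ j ∧ G i j
    · have h7 : {x : (Fin g → ℂ) × (Fin g → ℂ) × (Fin g → Fin g → ℂ) |
          i ≠ j → G i j → 2 * Real.pi * κ ≤ ‖x.2.2 i j‖} =
          {x | 2 * Real.pi * κ ≤ ‖x.2.2 i j‖} := by
        ext x
        simp only [Set.mem_ofPred_eq]
        exact ⟨fun h => h hij.1 hij.2, fun h _ _ => h⟩
      rw [h7]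
      exact isClosed_le continuous_const (c3 i j).norm
    · have h7 : {x : (Fin g → ℂ) × (Fin g → ℂ) × (Fin g → Fin g → ℂ) |
          i ≠ j → G i j → 2 * Real.pi * κ ≤ ‖x.2.2 i j‖} = Set.univ := by
        ext x
        simp only [Set.mem_ofPred_eq, Set.mem_univ, iff_true]
        exact fun h h' => absurd ⟨h, h'⟩ hij
      rw [h7]
      exact isClosed_univ
  exact h1.inter (h2.inter (h3.inter (h4.inter (h5.inter h6))))

theorem CPT_compact (g : ℕ) (κ B : ℝ) (G : Fin g → Fin g → Prop) :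
    IsCompact (CPT_X g κ B G) := by
  refine Metric.isCompact_of_isClosed_isBounded (CPT_closed g κ B G) ?_
  have hR : (0 : ℝ) ≤ max B (max 1 (2 * Real.pi)) :=
    (zero_le_one.trans (le_max_left 1 (2 * Real.pi))).trans (le_max_right B _)
  refine (Metric.isBounded_closedBall
    (x := (0 : (Fin g → ℂ) × (Fin g → ℂ) × (Fin g → Fin g → ℂ)))
    (r := max B (max 1 (2 * Real.pi)))).subset ?_
  intro x hx
  rw [mem_closedBall_zero_iff, norm_prod_le_iff, norm_prod_le_iff]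
  refine ⟨?_, ?_, ?_⟩
  · exact (pi_norm_le_iff_of_nonneg hR).mpr fun i => (hx.1 i).trans (le_max_left _ _)
  · exact (pi_norm_le_iff_of_nonneg hR).mpr fun i =>
      (hx.2.1 i).trans ((le_max_left 1 (2 * Real.pi)).trans (le_max_right B _))
  · exact (pi_norm_le_iff_of_nonneg hR).mpr fun i => (pi_norm_le_iff_of_nonneg hR).mpr fun j =>
      (hx.2.2.2.2.1 i j).trans ((le_max_right 1 (2 * Real.pi)).trans (le_max_right B _))

/-- one term -/
noncomputable def CPT_t (g : ℕ) (U : Finset (Fin g))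
    (x : (Fin g → ℂ) × (Fin g → ℂ) × (Fin g → Fin g → ℂ)) : ℝ :=
  (∏ i ∈ U, ‖x.1 i‖) * ‖F Uᶜ x.2.1 (fun i j => x.2.2 i j * x.1 i * x.1 j)‖

theorem CPT_cont (h1 : Stmt_CON) (g : ℕ) (U : Finset (Fin g)) : Continuous (CPT_t g U) := by
  unfold CPT_t
  refine Continuous.mul (by fun_prop) ?_
  refine Continuous.norm ?_
  have h2 : Continuous (fun x : (Fin g → ℂ) × (Fin g → ℂ) × (Fin g → Fin g → ℂ) =>
      ((x.2.1, fun i j => x.2.2 i j * x.1 i * x.1 j) :
        (Fin g → ℂ) × (Fin g → Fin g → ℂ))) := by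
    refine Continuous.prodMk (by fun_prop) ?_
    refine continuous_pi fun i => continuous_pi fun j => ?_
    fun_prop
  exact ((h1 g).2 Uᶜ).comp h2

theorem CPT_nonneg (g : ℕ) (U : Finset (Fin g))
    (x : (Fin g → ℂ) × (Fin g → ℂ) × (Fin g → Fin g → ℂ)) : 0 ≤ CPT_t g U x :=
  mul_nonneg (prod_nonneg fun i _ => norm_nonneg _) (norm_nonneg _)

theorem CPT_pos (h2 : Stmt_DCP) (g : ℕ) (κ B : ℝ) (G : Fin g → Fin g → Prop) (m : ℕ)
    (hκ : 0 < κ) (hG : ALG G m) (x : (Fin g → ℂ) × (Fin g → ℂ) × (Fin g → Fin g → ℂ))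
    (hx : x ∈ CPT_X g κ B G) : ∃ U : Finset (Fin g), U.card ≤ m ∧ 0 < CPT_t g U x := by
  obtain ⟨u, s, β⟩ := x
  obtain ⟨_, _, hs, hsym, _, hβ⟩ := hx
  simp only at hs hsym hβ
  set K : Finset (Fin g) := univ.filter (fun i => u i ≠ 0) with hK
  set β' : Fin g → Fin g → ℂ := fun i j => β i j * u i * u j with hβ'
  have hsym' : ∀ i j, β' i j = β' j i := by
    intro i j
    simp only [hβ']
    rw [hsym i j]
    ring
  obtain ⟨A, hAK, hc, hF⟩ := hG K s β' hsym' (by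
    intro i hi j hj hij hg
    have hui : u i ≠ 0 := by
      rw [hK, mem_filter] at hi; exact hi.2
    have huj : u j ≠ 0 := by
      rw [hK, mem_filter] at hj; exact hj.2
    have hb : β i j ≠ 0 := by
      intro h0
      have h3 := hβ i j hij hg
      rw [h0, norm_zero] at h3
      have h4 : 0 < 2 * Real.pi * κ := by positivity
      linarith
    exact mul_ne_zero (mul_ne_zero hb hui) huj)
  have hcomp : (K \ A)ᶜ = A ∪ Kᶜ := by
    ext i
    simp only [mem_compl, mem_sdiff, mem_union, not_and, not_not]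
    constructor
    · intro h
      by_cases h3 : i ∈ K
      · exact Or.inl (h h3)
      · exact Or.inr h3
    · rintro (h | h) h3
      · exact h
      · exact absurd h3 h
  have hdisj : Disjoint A Kᶜ := by
    rw [disjoint_left]
    intro i hi hi'
    rw [mem_compl] at hi'
    exact hi' (hAK hi)
  have hzero : ∀ i ∈ Kᶜ, u i = 0 := by
    intro i hi
    rw [mem_compl, hK, mem_filter, not_and, not_not] at hi
    exact hi (mem_univ i)
  have hd := h2 g s β' hsym' A Kᶜ hdisj (by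
    intro i hi j
    simp only [hβ']
    rw [hzero i hi]
    ring)
  refine ⟨K \ A, ?_, ?_⟩
  · rw [card_sdiff_of_subset hAK]
    omega
  · unfold CPT_t
    simp only
    refine mul_pos (prod_pos ?_) ?_
    · intro i hi
      have h3 := (mem_sdiff.mp hi).1
      rw [hK, mem_filter] at h3
      exact norm_pos_iff.mpr h3.2
    · rw [norm_pos_iff, hcomp]
      change F (A ∪ Kᶜ) s β' ≠ 0
      rw [hd]
      refine mul_ne_zero ?_ hF
      rw [prod_ne_zero_iff]
      intro i hi h0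
      rcases hs i with h3 | h3
      · rw [h0, norm_zero] at h3
        exact zero_ne_one h3
      · rw [hzero i hi, norm_zero] at h3
        linarith

theorem p_CPT (h1 : Stmt_CON) (h2 : Stmt_DCP) : Stmt_CPT := by
  intro g κ B G m hκ hG
  set 𝓤 : Finset (Finset (Fin g)) := univ.filter (fun U => U.card ≤ m) with h𝓤
  set Λ : (Fin g → ℂ) × (Fin g → ℂ) × (Fin g → Fin g → ℂ) → ℝ :=
    fun x => ∑ U ∈ 𝓤, CPT_t g U x with hΛ
  have hcont : Continuous Λ := continuous_finsetSum _ fun U _ => CPT_cont h1 g U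
  have hpos : ∀ x ∈ CPT_X g κ B G, 0 < Λ x := by
    intro x hx
    obtain ⟨U, hU, hU'⟩ := CPT_pos h2 g κ B G m hκ hG x hx
    exact sum_pos' (fun V _ => CPT_nonneg g V x) ⟨U, by rw [h𝓤, mem_filter]; exact
      ⟨mem_univ U, hU⟩, hU'⟩
  by_cases hne : (CPT_X g κ B G).Nonempty
  · obtain ⟨x₀, hx₀, hmin⟩ := (CPT_compact g κ B G).exists_isMinOn hne hcont.continuousOn
    have hc0 := hpos x₀ hx₀
    refine ⟨Λ x₀ / 2 ^ g, by positivity, ?_⟩
    intro u s β hu hs hus hsym hβ hβG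
    have hx : ((u, s, β) : (Fin g → ℂ) × (Fin g → ℂ) × (Fin g → Fin g → ℂ)) ∈
        CPT_X g κ B G := ⟨hu, hs, hus, hsym, hβ, hβG⟩
    have hle : Λ x₀ ≤ Λ (u, s, β) := hmin hx
    by_contra hno
    push Not at hno
    have h3 : Λ (u, s, β) < ∑ U ∈ 𝓤, Λ x₀ / 2 ^ g := by
      refine sum_lt_sum_of_nonempty ⟨∅, by
        rw [h𝓤, mem_filter]; exact ⟨mem_univ _, by simp⟩⟩ ?_
      intro U hU
      rw [h𝓤, mem_filter] at hU
      exact hno U hU.2
    rw [sum_const, nsmul_eq_mul] at h3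
    have h4 : ((𝓤.card : ℕ) : ℝ) ≤ 2 ^ g := by
      have h5 : 𝓤.card ≤ 2 ^ g := by
        calc 𝓤.card ≤ (univ : Finset (Finset (Fin g))).card := card_filter_le _ _
          _ = 2 ^ g := by rw [card_univ, Fintype.card_finset, Fintype.card_fin]
      exact_mod_cast h5
    have h6 : (𝓤.card : ℝ) * (Λ x₀ / 2 ^ g) ≤ 2 ^ g * (Λ x₀ / 2 ^ g) :=
      mul_le_mul_of_nonneg_right h4 (by positivity)
    have h7 : (2 : ℝ) ^ g * (Λ x₀ / 2 ^ g) = Λ x₀ := by
      field_simp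
    linarith
  · refine ⟨1, one_pos, ?_⟩
    intro u s β hu hs hus hsym hβ hβG
    exact absurd ⟨(u, s, β), hu, hs, hus, hsym, hβ, hβG⟩ hne

end Pool.TNP
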