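import Pool.Agent.Work.MP_29fd3c_np.Interface

set_option autoImplicit false

namespace Pool.TNP

open Finset Complex Pool.TH

theorem p_DCP (hREC : Stmt_REC) : Stmt_DCP := by
  intro g s β hβ A D
  induction D using Finset.induction_on with
  | empty =>
    intro _ _
    rw [union_empty, prod_empty, one_mul]
  | insert v D hv ih =>
    intro hd h0
    obtain ⟨h1, h2⟩ := disjoint_insert_right.1 hd
    rw [union_insert, hREC g s β hβ (A ∪ D) v (fun h => (mem_union.1 h).elim h1 hv),
      sum_eq_zero (fun j _ => by rw [h0 v (mem_insert_self _ _) j, zero_mul]), add_zero,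
      ih h2 (fun i hi j => h0 i (mem_insert_of_mem hi) j), prod_insert hv, mul_assoc]

end Pool.TNP
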