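import Pool.Agent.Work.MP_29fd3c_np.Interface

/-! # Block FB: the uncovered coordinates factor out -/

set_option autoImplicit false

namespace Pool.TNP

open Finset Complex Pool.TH

/-- the one-dimensional majorant -/
noncomputable def FB_d (k : ℕ) (n : ℤ) : ℝ :=
  6 * (1 + |(n : ℝ)|) ^ k * Real.exp (-((n : ℝ) ^ 2 / 2))

lemma FB_d_nonneg (k : ℕ) (n : ℤ) : 0 ≤ FB_d k n := by
  unfold FB_d
  positivity

lemma FB_d_summable (k : ℕ) : Summable (FB_d k) := by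
  have h0 : Summable (fun n : ℕ => Real.exp (-(n : ℝ))) := Real.summable_exp_neg_nat
  have h1 : Summable (fun n : ℤ => Real.exp (-|(n : ℝ)|)) := by
    refine Summable.of_nat_of_neg ?_ ?_
    · simpa using h0
    · simpa using h0
  refine Summable.of_nonneg_of_le (fun n => FB_d_nonneg k n) (fun n => ?_)
    (h1.mul_left (6 * ((k.factorial : ℝ) * Real.exp 3)))
  set x : ℝ := |(n : ℝ)| with hx
  have hx0 : 0 ≤ x := abs_nonneg _
  have hsq : (n : ℝ) ^ 2 = x ^ 2 := by rw [hx, sq_abs]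
  have e1 : (1 + x) ^ k ≤ (k.factorial : ℝ) * Real.exp (1 + x) := by
    have := Real.pow_div_factorial_le_exp (1 + x) (by linarith) k
    rw [div_le_iff₀ (by positivity)] at this
    linarith
  have e2 : Real.exp (1 + x) * Real.exp (-(x ^ 2 / 2)) ≤ Real.exp 3 * Real.exp (-x) := by
    rw [← Real.exp_add, ← Real.exp_add]
    apply Real.exp_le_exp.2
    nlinarith [sq_nonneg (x - 2)]
  unfold FB_d
  rw [hsq, ← hx]
  calc 6 * (1 + x) ^ k * Real.exp (-(x ^ 2 / 2))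
      ≤ 6 * ((k.factorial : ℝ) * Real.exp (1 + x)) * Real.exp (-(x ^ 2 / 2)) := by
        refine mul_le_mul_of_nonneg_right ?_ (Real.exp_pos _).le
        exact mul_le_mul_of_nonneg_left e1 (by norm_num)
    _ = 6 * (k.factorial : ℝ) * (Real.exp (1 + x) * Real.exp (-(x ^ 2 / 2))) := by ring
    _ ≤ 6 * (k.factorial : ℝ) * (Real.exp 3 * Real.exp (-x)) :=
        mul_le_mul_of_nonneg_left e2 (by positivity)
    _ = 6 * ((k.factorial : ℝ) * Real.exp 3) * Real.exp (-x) := by ring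

lemma FB_dec {w : ℤ → ℂ} (hw : Dec w) (g : ℕ) (n : ℤ) :
    ‖w n‖ * ((1 + |(n : ℝ)|) ^ (g + 1) * Real.exp ((n : ℝ) ^ 2 / 2)) ≤ FB_d (g + 2) n := by
  have h1 := hw n
  unfold FB_d
  calc ‖w n‖ * ((1 + |(n : ℝ)|) ^ (g + 1) * Real.exp ((n : ℝ) ^ 2 / 2))
      ≤ (6 * (1 + |(n : ℝ)|) * Real.exp (-(n : ℝ) ^ 2)) *
        ((1 + |(n : ℝ)|) ^ (g + 1) * Real.exp ((n : ℝ) ^ 2 / 2)) :=
        mul_le_mul_of_nonneg_right h1 (by positivity)
    _ = 6 * (1 + |(n : ℝ)|) ^ (g + 2) * (Real.exp (-(n : ℝ) ^ 2) * Real.exp ((n : ℝ) ^ 2 / 2)) := by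
        ring
    _ = 6 * (1 + |(n : ℝ)|) ^ (g + 2) * Real.exp (-((n : ℝ) ^ 2 / 2)) := by
        rw [← Real.exp_add]
        congr 2
        ring

lemma FB_dec0 {w : ℤ → ℂ} (hw : Dec w) : Summable fun n => ‖w n‖ := by
  refine Summable.of_nonneg_of_le (fun n => norm_nonneg _) (fun n => ?_) (FB_d_summable 2)
  have h1 := FB_dec hw 0 n
  have h2 : 1 ≤ (1 + |(n : ℝ)|) ^ (0 + 1) * Real.exp ((n : ℝ) ^ 2 / 2) := by
    have a1 : 1 ≤ (1 + |(n : ℝ)|) ^ (0 + 1) := by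
      rw [zero_add, pow_one]
      linarith [abs_nonneg (n : ℝ)]
    have a2 : 1 ≤ Real.exp ((n : ℝ) ^ 2 / 2) := Real.one_le_exp (by positivity)
    exact one_le_mul_of_one_le_of_one_le a1 a2
  exact (le_mul_of_one_le_right (norm_nonneg _) h2).trans h1

theorem p_FB (hSUM : Stmt_SUM) : Stmt_FB := by
  intro g
  set D : ℝ := ∑' n, FB_d (g + 2) n with hD
  have hD0 : 0 ≤ D := tsum_nonneg (fun n => FB_d_nonneg _ n)
  refine ⟨(1 + D) ^ g, by positivity, ?_⟩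
  intro w hw V H c hc hH hHb
  let e : (Fin g → ℤ) ≃ ({i // i ∈ V} → ℤ) × ({i // i ∉ V} → ℤ) :=
    Equiv.piEquivPiSubtypeProd (fun i => i ∈ V) (fun _ => ℤ)
  have he1 : ∀ (x : ({i // i ∈ V} → ℤ) × ({i // i ∉ V} → ℤ)) (i : {i // i ∈ V}),
      e.symm x i = x.1 i := by
    intro x i
    show (if h : (i : Fin g) ∈ V then x.1 ⟨i, h⟩ else x.2 ⟨i, h⟩) = _
    rw [dif_pos i.2]
  have he2 : ∀ (x : ({i // i ∈ V} → ℤ) × ({i // i ∉ V} → ℤ)) (i : {i // i ∉ V}),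
      e.symm x i = x.2 i := by
    intro x i
    show (if h : (i : Fin g) ∈ V then x.1 ⟨i, h⟩ else x.2 ⟨i, h⟩) = _
    rw [dif_neg i.2]
  set f1 : ({i // i ∈ V} → ℤ) → ℂ :=
    fun a => (∏ i : {i // i ∈ V}, w i (a i)) * H (e.symm (a, fun _ => 0)) with hf1
  set f2 : ({i // i ∉ V} → ℤ) → ℂ := fun b => ∏ i : {i // i ∉ V}, w i (b i) with hf2
  have hfac : ∀ x, (∏ i, w i (e.symm x i)) * H (e.symm x) = f1 x.1 * f2 x.2 := by
    intro x
    have h12 : ∏ i, w i (e.symm x i) =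
        (∏ i : {i // i ∈ V}, w i (x.1 i)) * ∏ i : {i // i ∉ V}, w i (x.2 i) := by
      rw [← Fintype.prod_subtype_mul_prod_subtype (fun i => i ∈ V) (fun i => w i (e.symm x i))]
      congr 1
      · refine Finset.prod_congr (Finset.ext fun i => by simp) (fun i _ => ?_)
        rw [he1]
      · refine Finset.prod_congr (Finset.ext fun i => by simp) (fun i _ => ?_)
        rw [he2]
    have h3 : H (e.symm x) = H (e.symm (x.1, fun _ => 0)) := by
      apply hH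
      intro i hi
      have a1 := he1 x ⟨i, hi⟩
      have a2 := he1 (x.1, fun _ => 0) ⟨i, hi⟩
      rw [a1, a2]
    rw [h12, h3, hf1, hf2]
    ring
  -- the covered part
  have hS1 := hSUM {i // i ∈ V} (fun _ n => ((FB_d (g + 2) n : ℝ) : ℂ)) (fun _ => by
    have : (fun n : ℤ => ‖((FB_d (g + 2) n : ℝ) : ℂ)‖) = FB_d (g + 2) := by
      funext n
      rw [Complex.norm_real, Real.norm_of_nonneg (FB_d_nonneg _ _)]
    rw [this]
    exact FB_d_summable _)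
  have hnorm : ∀ a : {i // i ∈ V} → ℤ, ‖∏ i, ((FB_d (g + 2) (a i) : ℝ) : ℂ)‖ =
      ∏ i, FB_d (g + 2) (a i) := by
    intro a
    rw [norm_prod]
    refine Finset.prod_congr rfl (fun i _ => ?_)
    rw [Complex.norm_real, Real.norm_of_nonneg (FB_d_nonneg _ _)]
  have hb1 : ∀ a, ‖f1 a‖ ≤ c * ∏ i, FB_d (g + 2) (a i) := by
    intro a
    have h1 := hHb (e.symm (a, fun _ => 0))
    rw [← Finset.prod_coe_sort] at h1
    have h2 : ∏ i : {i // i ∈ V}, ((1 + |((e.symm (a, fun _ => 0) i : ℤ) : ℝ)|) ^ (g + 1) *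
        Real.exp (((e.symm (a, fun _ => 0) i : ℤ) : ℝ) ^ 2 / 2)) =
        ∏ i : {i // i ∈ V}, ((1 + |((a i : ℤ) : ℝ)|) ^ (g + 1) *
        Real.exp (((a i : ℤ) : ℝ) ^ 2 / 2)) :=
      Finset.prod_congr rfl (fun i _ => by rw [he1])
    rw [h2] at h1
    have h3 : ‖f1 a‖ = (∏ i : {i // i ∈ V}, ‖w i (a i)‖) * ‖H (e.symm (a, fun _ => 0))‖ := by
      rw [hf1, norm_mul, norm_prod]
    rw [h3]
    calc (∏ i : {i // i ∈ V}, ‖w i (a i)‖) * ‖H (e.symm (a, fun _ => 0))‖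
        ≤ (∏ i : {i // i ∈ V}, ‖w i (a i)‖) * (c * ∏ i : {i // i ∈ V},
          ((1 + |((a i : ℤ) : ℝ)|) ^ (g + 1) * Real.exp (((a i : ℤ) : ℝ) ^ 2 / 2))) :=
          mul_le_mul_of_nonneg_left h1 (Finset.prod_nonneg (fun i _ => norm_nonneg _))
      _ = c * ∏ i : {i // i ∈ V}, (‖w i (a i)‖ *
          ((1 + |((a i : ℤ) : ℝ)|) ^ (g + 1) * Real.exp (((a i : ℤ) : ℝ) ^ 2 / 2))) := by
          have hd : ∏ i : {i // i ∈ V}, (‖w i (a i)‖ * ((1 + |((a i : ℤ) : ℝ)|) ^ (g + 1) *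
              Real.exp (((a i : ℤ) : ℝ) ^ 2 / 2))) = (∏ i : {i // i ∈ V}, ‖w i (a i)‖) *
              ∏ i : {i // i ∈ V}, ((1 + |((a i : ℤ) : ℝ)|) ^ (g + 1) *
              Real.exp (((a i : ℤ) : ℝ) ^ 2 / 2)) := Finset.prod_mul_distrib
          rw [hd]
          ring
      _ ≤ c * ∏ i, FB_d (g + 2) (a i) := by
          refine mul_le_mul_of_nonneg_left ?_ hc
          exact Finset.prod_le_prod (fun i _ => by positivity) (fun i _ => FB_dec (hw i) g (a i))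
  have hsumd : Summable fun a : {i // i ∈ V} → ℤ => ∏ i, FB_d (g + 2) (a i) := by
    have := hS1.1
    simp only [hnorm] at this
    exact this
  have hsum1 : Summable fun a => ‖f1 a‖ :=
    Summable.of_nonneg_of_le (fun a => norm_nonneg _) hb1 (hsumd.mul_left c)
  have htd : ∑' a : {i // i ∈ V} → ℤ, ∏ i, FB_d (g + 2) (a i) = D ^ V.card := by
    have h1 := hS1.2
    have h2 : ∑' a : {i // i ∈ V} → ℤ, ∏ i, ((FB_d (g + 2) (a i) : ℝ) : ℂ) =
        ((∑' a : {i // i ∈ V} → ℤ, ∏ i, FB_d (g + 2) (a i) : ℝ) : ℂ) := by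
      rw [Complex.ofReal_tsum]
      refine tsum_congr (fun a => ?_)
      rw [Complex.ofReal_prod]
    have h3 : ∏ _i : {i // i ∈ V}, ∑' n, ((FB_d (g + 2) n : ℝ) : ℂ) = ((D ^ V.card : ℝ) : ℂ) := by
      rw [Finset.prod_const, Finset.card_univ, Fintype.card_coe, ← Complex.ofReal_tsum,
        Complex.ofReal_pow]
    rw [h2, h3] at h1
    exact Complex.ofReal_injective h1
  have hn1 : ‖∑' a, f1 a‖ ≤ c * (1 + D) ^ g := by
    calc ‖∑' a, f1 a‖ ≤ ∑' a, ‖f1 a‖ := norm_tsum_le_tsum_norm hsum1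
      _ ≤ ∑' a : {i // i ∈ V} → ℤ, c * ∏ i, FB_d (g + 2) (a i) :=
          hsum1.tsum_le_tsum hb1 (hsumd.mul_left c)
      _ = c * D ^ V.card := by rw [tsum_mul_left, htd]
      _ ≤ c * (1 + D) ^ g := by
          refine mul_le_mul_of_nonneg_left ?_ hc
          have hVg : V.card ≤ g := by
            have := Finset.card_le_univ V
            rwa [Fintype.card_fin] at this
          exact (pow_le_pow_left₀ hD0 (by linarith) _).trans
            (pow_le_pow_right₀ (by linarith) hVg)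
  -- the uncovered part
  have hS2 := hSUM {i // i ∉ V} (fun i n => w i n) (fun i => FB_dec0 (hw i))
  have hsum2 : Summable fun b => ‖f2 b‖ := hS2.1
  have ht2 : ∑' b, f2 b = ∏ i : {i // i ∉ V}, ∑' n, w i n := hS2.2
  constructor
  · have h1 : Summable fun x : ({i // i ∈ V} → ℤ) × ({i // i ∉ V} → ℤ) =>
        ‖f1 x.1 * f2 x.2‖ := hsum1.mul_norm hsum2
    have h2 : (fun x : ({i // i ∈ V} → ℤ) × ({i // i ∉ V} → ℤ) => ‖f1 x.1 * f2 x.2‖) =
        (fun n : Fin g → ℤ => ‖(∏ i, w i (n i)) * H n‖) ∘ e.symm := by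
      funext x
      simp only [Function.comp_apply]
      rw [hfac]
    rw [h2] at h1
    exact e.symm.summable_iff.1 h1
  · have h1 : ∑' n : Fin g → ℤ, (∏ i, w i (n i)) * H n = (∑' a, f1 a) * ∑' b, f2 b := by
      rw [← e.symm.tsum_eq (fun n : Fin g → ℤ => (∏ i, w i (n i)) * H n)]
      rw [tsum_mul_tsum_of_summable_norm hsum1 hsum2]
      exact tsum_congr hfac
    rw [h1, norm_mul, ht2, norm_prod]
    have h2 : ∏ i : {i // i ∉ V}, ‖∑' n, w i n‖ = ∏ i ∈ Vᶜ, ‖∑' n, w i n‖ :=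
      (Finset.prod_subtype Vᶜ (by simp) (fun i => ‖∑' n, w i n‖)).symm
    rw [h2]
    have h3 : 0 ≤ ∏ i ∈ Vᶜ, ‖∑' n, w i n‖ := Finset.prod_nonneg (fun i _ => norm_nonneg _)
    calc ‖∑' a, f1 a‖ * ∏ i ∈ Vᶜ, ‖∑' n, w i n‖
        ≤ (c * (1 + D) ^ g) * ∏ i ∈ Vᶜ, ‖∑' n, w i n‖ := mul_le_mul_of_nonneg_right hn1 h3
      _ = (1 + D) ^ g * c * ∏ i ∈ Vᶜ, ‖∑' n, w i n‖ := by ring

end Pool.TNP
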