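import Pool.Agent.Work.MP_29fd3c_np.Interface

set_option autoImplicit false

namespace Pool.TNP

open Finset Complex Pool.TH

/-- step 1 -/
theorem HAF_step (b : Fin 6 → Fin 6 → ℂ) (hs : ∀ i j, b i j = b j i)
    (H : ∀ i j k l : Fin 6, i ≠ j → i ≠ k → i ≠ l → j ≠ k → j ≠ l → k ≠ l →
      b i j * b k l + b i k * b j l + b i l * b j k = 0)
    (p0 p1 p2 p3 p4 p5 : Fin 6) (h01 : p0 ≠ p1) (h02 : p0 ≠ p2) (h03 : p0 ≠ p3) (h04 : p0 ≠ p4)
    (h05 : p0 ≠ p5) (h12 : p1 ≠ p2) (h13 : p1 ≠ p3) (h14 : p1 ≠ p4) (h15 : p1 ≠ p5)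
    (h23 : p2 ≠ p3) (h24 : p2 ≠ p4) (h25 : p2 ≠ p5) (h34 : p3 ≠ p4) (h35 : p3 ≠ p5)
    (h45 : p4 ≠ p5) (b01 : b p0 p1 ≠ 0) (b23 : b p2 p3 ≠ 0) (b45 : b p4 p5 ≠ 0) :
    b p0 p2 ≠ 0 := by
  intro h
  have key : ∀ p : Fin 6, p0 ≠ p → p1 ≠ p → p2 ≠ p → p3 ≠ p → b p0 p = 0 := by
    intro p q0 q1 q2 q3
    have e1 := H p0 p1 p3 p2 h01 h03 h02 h13 h12 h23.symm
    have e2 := H p0 p1 p p2 h01 q0 h02 q1 h12 q2.symm
    have e3 := H p0 p3 p p2 h03 q0 h02 q3 h23.symm q2.symm
    rw [h] at e1 e2 e3
    have e4 : b p0 p1 * (b p2 p3 * b p0 p) = 0 := by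
      have s1 := hs p3 p2
      have s2 := hs p p2
      rw [s1] at e1 e3
      rw [s2] at e2 e3
      linear_combination (b p0 p / 2) * e1 + (b p0 p1 / 2) * e3 - (b p0 p3 / 2) * e2
    rcases mul_eq_zero.1 e4 with e | e
    · exact absurd e b01
    · rcases mul_eq_zero.1 e with e | e
      · exact absurd e b23
      · exact e
  have e4 := key p4 h04 h14 h24 h34
  have e5 := key p5 h05 h15 h25 h35
  have e := H p0 p1 p4 p5 h01 h04 h05 h14 h15 h45
  rw [e4, e5] at e
  have : b p0 p1 * b p4 p5 = 0 := by linear_combination e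
  rcases mul_eq_zero.1 this with e | e
  · exact b01 e
  · exact b45 e

theorem p_HAF : Stmt_HAF := by
  intro b hs H b01 b23 b45
  have b02 : b 0 2 ≠ 0 := HAF_step b hs H 0 1 2 3 4 5 (by decide) (by decide) (by decide)
    (by decide) (by decide) (by decide) (by decide) (by decide) (by decide) (by decide)
    (by decide) (by decide) (by decide) (by decide) (by decide) b01 b23 b45
  have b03 : b 0 3 ≠ 0 := HAF_step b hs H 0 1 3 2 4 5 (by decide) (by decide) (by decide)
    (by decide) (by decide) (by decide) (by decide) (by decide) (by decide) (by decide)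
    (by decide) (by decide) (by decide) (by decide) (by decide) b01 (by rw [hs]; exact b23) b45
  have b04 : b 0 4 ≠ 0 := HAF_step b hs H 0 1 4 5 2 3 (by decide) (by decide) (by decide)
    (by decide) (by decide) (by decide) (by decide) (by decide) (by decide) (by decide)
    (by decide) (by decide) (by decide) (by decide) (by decide) b01 b45 b23
  have b05 : b 0 5 ≠ 0 := HAF_step b hs H 0 1 5 4 2 3 (by decide) (by decide) (by decide)
    (by decide) (by decide) (by decide) (by decide) (by decide) (by decide) (by decide)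
    (by decide) (by decide) (by decide) (by decide) (by decide) b01 (by rw [hs]; exact b45) b23
  have rel : ∀ i j k : Fin 6, 0 ≠ i → 0 ≠ j → 0 ≠ k → i ≠ j → i ≠ k → j ≠ k →
      b 0 i ≠ 0 → b 0 j ≠ 0 → b 0 k ≠ 0 →
      b j k / (b 0 j * b 0 k) + b i k / (b 0 i * b 0 k) + b i j / (b 0 i * b 0 j) = 0 := by
    intro i j k h1 h2 h3 h4 h5 h6 n1 n2 n3
    have e := H 0 i j k h1 h2 h3 h4 h5 h6
    field_simp
    linear_combination e
  have r123 := rel 1 2 3 (by decide) (by decide) (by decide) (by decide) (by decide) (by decide)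
    b01 b02 b03
  have r124 := rel 1 2 4 (by decide) (by decide) (by decide) (by decide) (by decide) (by decide)
    b01 b02 b04
  have r125 := rel 1 2 5 (by decide) (by decide) (by decide) (by decide) (by decide) (by decide)
    b01 b02 b05
  have r134 := rel 1 3 4 (by decide) (by decide) (by decide) (by decide) (by decide) (by decide)
    b01 b03 b04
  have r135 := rel 1 3 5 (by decide) (by decide) (by decide) (by decide) (by decide) (by decide)
    b01 b03 b05
  have r145 := rel 1 4 5 (by decide) (by decide) (by decide) (by decide) (by decide) (by decide)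
    b01 b04 b05
  have r234 := rel 2 3 4 (by decide) (by decide) (by decide) (by decide) (by decide) (by decide)
    b02 b03 b04
  have r235 := rel 2 3 5 (by decide) (by decide) (by decide) (by decide) (by decide) (by decide)
    b02 b03 b05
  have r245 := rel 2 4 5 (by decide) (by decide) (by decide) (by decide) (by decide) (by decide)
    b02 b04 b05
  have r345 := rel 3 4 5 (by decide) (by decide) (by decide) (by decide) (by decide) (by decide)
    b03 b04 b05
  -- the incidence system of triples and pairs of a set with five elements is invertible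
  have u23 : b 2 3 / (b 0 2 * b 0 3) = 0 := by
    linear_combination (1/3 : ℂ) * (r123 + r234 + r235) + (1/3 : ℂ) * r145
      - (1/6 : ℂ) * (r124 + r125 + r134 + r135 + r245 + r345)
  rw [div_eq_zero_iff] at u23
  rcases u23 with h | h
  · exact b23 h
  · rcases mul_eq_zero.1 h with h | h
    · exact b02 h
    · exact b03 h

end Pool.TNP
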