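import Pool.Agent.Work.MP_29fd3c_np.Interface

set_option autoImplicit false

namespace Pool.TNP

open Finset Complex Pool.TH

theorem MOM_le (n : ℤ) : 6 * (1 + |(n : ℝ)|) * Real.exp (-(n : ℝ) ^ 2) ≤
    6 * Real.exp 1 * Real.exp (-|(n : ℝ)|) := by
  have h1 : 1 + |(n : ℝ)| ≤ Real.exp |(n : ℝ)| := by
    have := Real.add_one_le_exp |(n : ℝ)|
    linarith
  have h2 : 6 * (1 + |(n : ℝ)|) * Real.exp (-(n : ℝ) ^ 2) ≤
      6 * (Real.exp |(n : ℝ)| * Real.exp (-(n : ℝ) ^ 2)) := by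
    rw [mul_assoc]
    exact mul_le_mul_of_nonneg_left (mul_le_mul_of_nonneg_right h1 (Real.exp_pos _).le)
      (by norm_num)
  refine h2.trans ?_
  rw [mul_assoc, ← Real.exp_add, ← Real.exp_add]
  refine mul_le_mul_of_nonneg_left (Real.exp_le_exp.2 ?_) (by norm_num)
  rw [← sq_abs]
  nlinarith [sq_nonneg (|(n : ℝ)| - 1)]

theorem MOM_summable : Summable fun n : ℤ => 6 * (1 + |(n : ℝ)|) * Real.exp (-(n : ℝ) ^ 2) :=
  Summable.of_nonneg_of_le (fun n => by positivity) MOM_le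
    (summable_exp_abs.mul_left (6 * Real.exp 1))

theorem p_MOM : Stmt_MOM := by
  refine ⟨1 + ∑' n : ℤ, 6 * (1 + |(n : ℝ)|) * Real.exp (-(n : ℝ) ^ 2), ?_, ?_⟩
  · have : 0 ≤ ∑' n : ℤ, 6 * (1 + |(n : ℝ)|) * Real.exp (-(n : ℝ) ^ 2) :=
      tsum_nonneg fun n => by positivity
    linarith
  · intro a ha
    have h1 : Dec a := fun n => by
      refine (ha n).trans ?_
      rw [mul_assoc]
      refine mul_le_mul_of_nonneg_left ?_ (by norm_num)
      have := abs_nonneg (n : ℝ)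
      exact le_mul_of_one_le_left (Real.exp_pos _).le (by linarith)
    have h2 : Dec fun n => (n : ℂ) * a n := fun n => by
      rw [norm_mul, Complex.norm_intCast]
      have h3 := mul_le_mul_of_nonneg_left (ha n) (abs_nonneg (n : ℝ))
      refine h3.trans ?_
      have h4 : |(n : ℝ)| * (6 * Real.exp (-(n : ℝ) ^ 2)) =
          6 * |(n : ℝ)| * Real.exp (-(n : ℝ) ^ 2) := by ring
      rw [h4]
      refine mul_le_mul_of_nonneg_right ?_ (Real.exp_pos _).le
      linarith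
    have key : ∀ b : ℤ → ℂ, Dec b →
        ‖∑' n, b n‖ ≤ 1 + ∑' n : ℤ, 6 * (1 + |(n : ℝ)|) * Real.exp (-(n : ℝ) ^ 2) := by
      intro b hb
      have := tsum_of_norm_bounded MOM_summable.hasSum hb
      linarith
    exact ⟨h1, h2, key _ h1, key _ h2⟩

end Pool.TNP
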