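import Pool.Agent.Work.MP_29fd3c_np.Interface

set_option autoImplicit false

namespace Pool.TNP

open Finset Complex Pool.TH

variable {g : ℕ}

theorem SCL_deg_insert {E : Finset (Fin g × Fin g)} {e : Fin g × Fin g} (he : e ∉ E) (i : Fin g) :
    deg (insert e E) i = deg E i + if e.1 = i ∨ e.2 = i then 1 else 0 := by
  unfold deg
  rw [filter_insert]
  split_ifs with h
  · rw [card_insert_of_notMem fun h' => he (mem_filter.1 h').1]
  · rfl

/-- products over pairs and degrees -/
theorem SCL_prod {R : Type} [CommMonoid R] (h : Fin g → R) (E : Finset (Fin g × Fin g)) :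
    E ⊆ P g → ∏ e ∈ E, (h e.1 * h e.2) = ∏ i, h i ^ deg E i := by
  classical
  induction E using Finset.induction_on with
  | empty =>
    intro _
    simp [deg]
  | insert e E he ih =>
    intro hE
    have h1 : e.1 < e.2 := (mem_filter.1 (hE (mem_insert_self _ _))).2
    rw [prod_insert he, ih ((subset_insert _ _).trans hE)]
    simp only [SCL_deg_insert he, pow_add, prod_mul_distrib]
    have h2 : ∏ i, h i ^ (if e.1 = i ∨ e.2 = i then 1 else 0) = h e.1 * h e.2 := by
      have h3 : ∀ i : Fin g, h i ^ (if e.1 = i ∨ e.2 = i then 1 else 0) =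
          if i ∈ ({e.1, e.2} : Finset (Fin g)) then h i else 1 := by
        intro i
        simp only [mem_insert, mem_singleton, eq_comm (a := i)]
        split_ifs <;> simp
      simp only [h3]
      rw [prod_ite_mem, univ_inter, prod_pair h1.ne]
    rw [h2, mul_comm]

theorem p_SCL : Stmt_SCL := by
  intro g A h s β
  unfold F
  rw [mul_sum]
  refine sum_congr rfl fun E hE => ?_
  obtain ⟨h1, h2⟩ := mem_filter.1 hE
  have h3 : ∏ e ∈ E, h e.1 * h e.2 * β e.1 e.2 =
      (∏ i ∈ A, h i ^ deg E i) * ∏ e ∈ E, β e.1 e.2 := by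
    rw [prod_mul_distrib, SCL_prod h E (mem_powerset.1 h1)]
    congr 1
    refine (prod_subset (subset_univ A) fun i _ hi => ?_).symm
    have h4 := h2 i
    rw [if_neg hi] at h4
    rw [Nat.le_zero.1 h4, pow_zero]
  have h5 : (∏ i ∈ A, h i ^ deg E i) * ∏ i ∈ A.filter (fun i => deg E i = 0), h i =
      ∏ i ∈ A, h i := by
    rw [prod_filter, ← prod_mul_distrib]
    refine prod_congr rfl fun i hi => ?_
    have h4 := h2 i
    rw [if_pos hi] at h4
    by_cases h0 : deg E i = 0
    · rw [h0, if_pos rfl, pow_zero, one_mul]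
    · rw [if_neg h0, show deg E i = 1 by omega, pow_one, mul_one]
  rw [h3, prod_mul_distrib, ← h5]
  ring

end Pool.TNP
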