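import Pool.Agent.Work.MP_29fd3c_np.Interface
import Pool.Agent.Work.MP_29fd3c_np.B_SCL

set_option autoImplicit false

namespace Pool.TNP

open Finset Complex Pool.TH

variable {g : ℕ}

/-- degrees are at most `g` -/
theorem PB_deg_le {E : Finset (Fin g × Fin g)} (hE : E ⊆ P g) (i : Fin g) : deg E i ≤ g := by
  classical
  unfold deg
  have h1 : (E.filter (fun e => e.1 = i ∨ e.2 = i)).card ≤ (univ : Finset (Fin g)).card := by
    refine card_le_card_of_injOn (fun e => if e.1 = i then e.2 else e.1) (fun _ _ => mem_univ _) ?_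
    rintro ⟨a, b⟩ h ⟨a', b'⟩ h' hab
    rw [mem_coe, mem_filter] at h h'
    obtain ⟨h1, h2⟩ := h
    obtain ⟨h1', h2'⟩ := h'
    have h3 : a < b := (mem_filter.1 (hE h1)).2
    have h3' : a' < b' := (mem_filter.1 (hE h1')).2
    simp only at h2 h2' hab
    by_cases ha : a = i
    · rw [if_pos ha] at hab
      by_cases ha' : a' = i
      · rw [if_pos ha'] at hab
        rw [ha, ha', hab]
      · rw [if_neg ha'] at hab
        have hb' : b' = i := h2'.resolve_left ha'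
        exfalso
        rw [← hab, hb'] at h3'
        rw [ha] at h3
        exact absurd h3 (not_lt.2 h3'.le)
    · rw [if_neg ha] at hab
      have hb : b = i := h2.resolve_left ha
      by_cases ha' : a' = i
      · rw [if_pos ha'] at hab
        exfalso
        rw [hab, hb] at h3
        rw [ha'] at h3'
        exact absurd h3 (not_lt.2 h3'.le)
      · rw [if_neg ha'] at hab
        have hb' : b' = i := h2'.resolve_left ha'
        rw [hab, hb, hb']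
  simpa using h1

/-- the elementary bound of the exponents -/
theorem PB_ex {ε : ℝ} {l : Fin g → ℝ} {t : Fin g → Fin g → ℂ} (hS : Small g ε l t)
    (n : Fin g → ℤ) (e : Fin g × Fin g) (he : e.1 ≠ e.2) :
    ‖ex t n e‖ ≤ 2 * Real.pi * (l e.1 * l e.2) * (|(n e.1 : ℝ)| * |(n e.2 : ℝ)|) := by
  unfold ex
  have h1 := hS.t e.1 e.2 he
  have h2 : ‖(n e.1 : ℂ)‖ = |(n e.1 : ℝ)| := by
    rw [← Complex.ofReal_intCast, Complex.norm_real, Real.norm_eq_abs]
  have h3 : ‖(n e.2 : ℂ)‖ = |(n e.2 : ℝ)| := by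
    rw [← Complex.ofReal_intCast, Complex.norm_real, Real.norm_eq_abs]
  rw [norm_mul, norm_mul, norm_mul, norm_mul, norm_mul, h2, h3, Complex.norm_I, Complex.norm_real,
    Real.norm_eq_abs, abs_of_pos Real.pi_pos, Complex.norm_ofNat]
  have h4 : 0 ≤ 2 * Real.pi := by positivity
  calc 2 * Real.pi * 1 * ‖t e.1 e.2‖ * |(n e.1 : ℝ)| * |(n e.2 : ℝ)|
      = 2 * Real.pi * ‖t e.1 e.2‖ * (|(n e.1 : ℝ)| * |(n e.2 : ℝ)|) := by ring
    _ ≤ _ := by gcongr

theorem PB_ex2 {ε : ℝ} {l : Fin g → ℝ} {t : Fin g → Fin g → ℂ} (hS : Small g ε l t)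
    (n : Fin g → ℤ) (e : Fin g × Fin g) (he : e.1 ≠ e.2) :
    ‖ex t n e‖ ≤ 2 * Real.pi * ε ^ 2 * (|(n e.1 : ℝ)| * |(n e.2 : ℝ)|) := by
  refine (PB_ex hS n e he).trans ?_
  have h1 : l e.1 * l e.2 ≤ ε ^ 2 := by
    rw [sq]
    exact mul_le_mul (hS.lle _) (hS.lle _) (hS.lpos _).le hS.pos.le
  have h4 : 0 ≤ 2 * Real.pi := by positivity
  gcongr

theorem PB_ex3 {ε : ℝ} {l : Fin g → ℝ} {t : Fin g → Fin g → ℂ} (hS : Small g ε l t)
    (n : Fin g → ℤ) (e : Fin g × Fin g) (he : e.1 ≠ e.2) :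
    Real.exp ‖ex t n e‖ ≤ Real.exp (Real.pi * ε ^ 2 * (n e.1 : ℝ) ^ 2) *
      Real.exp (Real.pi * ε ^ 2 * (n e.2 : ℝ) ^ 2) := by
  rw [← Real.exp_add]
  refine Real.exp_le_exp.2 ((PB_ex2 hS n e he).trans ?_)
  have h1 : 0 ≤ Real.pi * ε ^ 2 := by positivity
  have h2 : 2 * (|(n e.1 : ℝ)| * |(n e.2 : ℝ)|) ≤ (n e.1 : ℝ) ^ 2 + (n e.2 : ℝ) ^ 2 := by
    rw [← sq_abs (n e.1 : ℝ), ← sq_abs (n e.2 : ℝ)]
    nlinarith [sq_nonneg (|(n e.1 : ℝ)| - |(n e.2 : ℝ)|)]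
  calc 2 * Real.pi * ε ^ 2 * (|(n e.1 : ℝ)| * |(n e.2 : ℝ)|)
      = Real.pi * ε ^ 2 * (2 * (|(n e.1 : ℝ)| * |(n e.2 : ℝ)|)) := by ring
    _ ≤ Real.pi * ε ^ 2 * ((n e.1 : ℝ) ^ 2 + (n e.2 : ℝ) ^ 2) := mul_le_mul_of_nonneg_left h2 h1
    _ = _ := by ring

/-- the main product bound -/
theorem PB_prod {ε : ℝ} {l : Fin g → ℝ} {t : Fin g → Fin g → ℂ} (hS : Small g ε l t)
    {E : Finset (Fin g × Fin g)} (hE : E ⊆ P g) (n : Fin g → ℤ) :
    ∏ e ∈ E, (‖ex t n e‖ * Real.exp ‖ex t n e‖) ≤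
      (2 * Real.pi) ^ E.card * (∏ e ∈ E, l e.1 * l e.2) *
        ∏ i ∈ univ.filter (fun i => deg E i ≠ 0),
          ((1 + |(n i : ℝ)|) ^ g * Real.exp ((n i : ℝ) ^ 2 / 2)) := by
  classical
  set c : ℝ := Real.pi * ε ^ 2 with hc
  have hc0 : 0 ≤ c := by positivity
  set h : Fin g → ℝ := fun i => |(n i : ℝ)| * Real.exp (c * (n i : ℝ) ^ 2) with hh
  have h0 : ∀ i, 0 ≤ h i := fun i => by simp only [hh]; positivity
  have hne : ∀ e ∈ E, e.1 ≠ e.2 := fun e he => ((mem_filter.1 (hE he)).2).ne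
  have h1 : ∏ e ∈ E, (‖ex t n e‖ * Real.exp ‖ex t n e‖) ≤
      ∏ e ∈ E, (2 * Real.pi * (l e.1 * l e.2) * (h e.1 * h e.2)) := by
    refine prod_le_prod (fun e _ => by positivity) fun e he => ?_
    have h2 := PB_ex hS n e (hne e he)
    have h3 := PB_ex3 hS n e (hne e he)
    calc ‖ex t n e‖ * Real.exp ‖ex t n e‖
        ≤ (2 * Real.pi * (l e.1 * l e.2) * (|(n e.1 : ℝ)| * |(n e.2 : ℝ)|)) *
          (Real.exp (Real.pi * ε ^ 2 * (n e.1 : ℝ) ^ 2) *
            Real.exp (Real.pi * ε ^ 2 * (n e.2 : ℝ) ^ 2)) :=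
          mul_le_mul h2 h3 (Real.exp_pos _).le ((norm_nonneg _).trans h2)
      _ = _ := by simp only [hh, hc]; ring
  refine h1.trans ?_
  rw [prod_mul_distrib, prod_mul_distrib, prod_const, SCL_prod h E hE]
  have h2 : ∏ i, h i ^ deg E i ≤ ∏ i ∈ univ.filter (fun i => deg E i ≠ 0),
      ((1 + |(n i : ℝ)|) ^ g * Real.exp ((n i : ℝ) ^ 2 / 2)) := by
    rw [prod_filter]
    refine prod_le_prod (fun i _ => pow_nonneg (h0 i) _) fun i _ => ?_
    by_cases hi : deg E i = 0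
    · rw [hi, if_neg (by simp), pow_zero]
    · rw [if_pos hi]
      simp only [hh]
      rw [mul_pow, ← Real.exp_nat_mul]
      have h5 : (deg E i : ℝ) ≤ g := by exact_mod_cast PB_deg_le hE i
      refine mul_le_mul ?_ ?_ (Real.exp_pos _).le (by positivity)
      · calc |(n i : ℝ)| ^ deg E i ≤ (1 + |(n i : ℝ)|) ^ deg E i := by gcongr; linarith
          _ ≤ (1 + |(n i : ℝ)|) ^ g :=
            pow_le_pow_right₀ (by have := abs_nonneg (n i : ℝ); linarith) (PB_deg_le hE i)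
      · refine Real.exp_le_exp.2 ?_
        have h6 : (deg E i : ℝ) * c ≤ 1 / 20 := by
          have h7 : (deg E i : ℝ) * c ≤ g * c := mul_le_mul_of_nonneg_right h5 hc0
          have h8 := hS.num
          have h9 : (g : ℝ) * c = Real.pi * g * ε ^ 2 := by rw [hc]; ring
          linarith
        have h7 : (deg E i : ℝ) * c * (n i : ℝ) ^ 2 ≤ 1 / 20 * (n i : ℝ) ^ 2 :=
          mul_le_mul_of_nonneg_right h6 (sq_nonneg _)
        have h8 := sq_nonneg (n i : ℝ)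
        calc (deg E i : ℝ) * (c * (n i : ℝ) ^ 2) = (deg E i : ℝ) * c * (n i : ℝ) ^ 2 := by ring
          _ ≤ _ := by linarith
  have h3 : 0 ≤ (2 * Real.pi) ^ E.card * ∏ e ∈ E, l e.1 * l e.2 := by
    have h4 : 0 ≤ ∏ e ∈ E, l e.1 * l e.2 :=
      prod_nonneg fun e _ => mul_nonneg (hS.lpos _).le (hS.lpos _).le
    positivity
  exact mul_le_mul_of_nonneg_left h2 h3

theorem PB_exp1 (x : ℂ) : ‖Complex.exp x - 1‖ ≤ ‖x‖ * Real.exp ‖x‖ := by
  have h := Complex.norm_exp_sub_sum_le_norm_mul_exp x 1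
  simpa using h

theorem PB_exp2 (x : ℂ) : ‖Complex.exp x - 1 - x‖ ≤ ‖x‖ ^ 2 * Real.exp ‖x‖ := by
  have h := Complex.norm_exp_sub_sum_le_norm_mul_exp x 2
  rw [sum_range_succ, sum_range_one] at h
  simp only [pow_zero, Nat.factorial_zero, Nat.cast_one, div_one, pow_one,
    Nat.factorial_one] at h
  rwa [sub_sub]

/-- difference of the products -/
theorem PB_diff (t : Fin g → Fin g → ℂ) (n : Fin g → ℤ) (E : Finset (Fin g × Fin g)) :
    ‖∏ e ∈ E, (Complex.exp (ex t n e) - 1) - ∏ e ∈ E, ex t n e‖ ≤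
      (∑ e ∈ E, ‖ex t n e‖) * ∏ e ∈ E, (‖ex t n e‖ * Real.exp ‖ex t n e‖) := by
  classical
  induction E using Finset.induction_on with
  | empty => simp
  | insert e E he ih =>
    rw [prod_insert he, prod_insert he, prod_insert he, sum_insert he]
    set x := ex t n e with hx
    set Y := ∏ e ∈ E, (Complex.exp (ex t n e) - 1) with hY
    set X := ∏ e ∈ E, ex t n e with hX
    set S := ∑ e ∈ E, ‖ex t n e‖ with hS
    set Q := ∏ e ∈ E, (‖ex t n e‖ * Real.exp ‖ex t n e‖) with hQ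
    have hS0 : 0 ≤ S := sum_nonneg fun _ _ => norm_nonneg _
    have hQ0 : 0 ≤ Q := prod_nonneg fun _ _ => by positivity
    have hXQ : ‖X‖ ≤ Q := by
      rw [hX, norm_prod]
      refine prod_le_prod (fun _ _ => norm_nonneg _) fun e _ => ?_
      exact le_mul_of_one_le_right (norm_nonneg _) (Real.one_le_exp (norm_nonneg _))
    have h1 : (Complex.exp x - 1) * Y - x * X =
        (Complex.exp x - 1) * (Y - X) + (Complex.exp x - 1 - x) * X := by ring
    rw [h1]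
    calc ‖(Complex.exp x - 1) * (Y - X) + (Complex.exp x - 1 - x) * X‖
        ≤ ‖Complex.exp x - 1‖ * ‖Y - X‖ + ‖Complex.exp x - 1 - x‖ * ‖X‖ := by
          refine (norm_add_le _ _).trans ?_
          rw [norm_mul, norm_mul]
      _ ≤ (‖x‖ * Real.exp ‖x‖) * (S * Q) + (‖x‖ ^ 2 * Real.exp ‖x‖) * Q := by
          refine add_le_add ?_ ?_
          · exact mul_le_mul (PB_exp1 x) ih (norm_nonneg _) (by positivity)
          · exact mul_le_mul (PB_exp2 x) hXQ (norm_nonneg _) (by positivity)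
      _ = (‖x‖ + S) * (‖x‖ * Real.exp ‖x‖ * Q) := by ring

/-- the sum of the exponents -/
theorem PB_sum {ε : ℝ} {l : Fin g → ℝ} {t : Fin g → Fin g → ℂ} (hS : Small g ε l t)
    {E : Finset (Fin g × Fin g)} (hE : E ⊆ P g) (n : Fin g → ℤ) :
    ∑ e ∈ E, ‖ex t n e‖ ≤ 2 * Real.pi * g ^ 2 * ε *
      ∏ i ∈ univ.filter (fun i => deg E i ≠ 0), (1 + |(n i : ℝ)|) := by
  classical
  set V := univ.filter (fun i => deg E i ≠ 0) with hV
  have hone : ∀ i : Fin g, 1 ≤ 1 + |(n i : ℝ)| := fun i => by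
    have := abs_nonneg (n i : ℝ); linarith
  have hone' : ∀ T : Finset (Fin g), 1 ≤ ∏ i ∈ T, (1 + |(n i : ℝ)|) := by
    intro T
    induction T using Finset.induction_on with
    | empty => simp
    | insert a T ha ih =>
      rw [prod_insert ha]
      exact one_le_mul_of_one_le_of_one_le (hone a) ih
  have hε2 : ε ^ 2 ≤ ε := by
    have h1 := hS.pos
    have h2 := hS.le
    nlinarith
  have h1 : ∀ e ∈ E, ‖ex t n e‖ ≤ 2 * Real.pi * ε * ∏ i ∈ V, (1 + |(n i : ℝ)|) := by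
    intro e he
    have hlt : e.1 < e.2 := (mem_filter.1 (hE he)).2
    have hd : ∀ i, e.1 = i ∨ e.2 = i → i ∈ V := by
      intro i hi
      rw [hV, mem_filter]
      refine ⟨mem_univ _, ?_⟩
      unfold deg
      rw [card_ne_zero]
      exact ⟨e, mem_filter.2 ⟨he, hi⟩⟩
    have h2 : |(n e.1 : ℝ)| * |(n e.2 : ℝ)| ≤ ∏ i ∈ V, (1 + |(n i : ℝ)|) := by
      rw [← mul_prod_erase V _ (hd e.1 (Or.inl rfl)),
        ← mul_prod_erase (V.erase e.1) _ (mem_erase.2 ⟨hlt.ne', hd e.2 (Or.inr rfl)⟩)]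
      have h3 := hone' ((V.erase e.1).erase e.2)
      have h4 := abs_nonneg (n e.1 : ℝ)
      have h5 := abs_nonneg (n e.2 : ℝ)
      calc |(n e.1 : ℝ)| * |(n e.2 : ℝ)| ≤ (1 + |(n e.1 : ℝ)|) * (1 + |(n e.2 : ℝ)|) := by
            gcongr <;> linarith
        _ = (1 + |(n e.1 : ℝ)|) * ((1 + |(n e.2 : ℝ)|) * 1) := by ring
        _ ≤ _ := by gcongr
    refine (PB_ex2 hS n e hlt.ne).trans ?_
    have h3 : 0 ≤ |(n e.1 : ℝ)| * |(n e.2 : ℝ)| := by positivity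
    have h4 := hS.pos
    gcongr
  refine (sum_le_card_nsmul _ _ _ h1).trans ?_
  rw [nsmul_eq_mul]
  have h2 : (E.card : ℝ) ≤ g ^ 2 := by
    have h3 : E.card ≤ (univ : Finset (Fin g × Fin g)).card := card_le_card (subset_univ _)
    rw [card_univ, Fintype.card_prod, Fintype.card_fin] at h3
    rw [sq]
    exact_mod_cast h3
  have h3 := hone' V
  have h4 := hS.pos
  have h5 : 0 ≤ 2 * Real.pi * ε * ∏ i ∈ V, (1 + |(n i : ℝ)|) := by positivity
  calc (E.card : ℝ) * (2 * Real.pi * ε * ∏ i ∈ V, (1 + |(n i : ℝ)|))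
      ≤ g ^ 2 * (2 * Real.pi * ε * ∏ i ∈ V, (1 + |(n i : ℝ)|)) :=
        mul_le_mul_of_nonneg_right h2 h5
    _ = _ := by ring

theorem p_PB : Stmt_PB := by
  classical
  intro g ε l t hS E hE n
  set V := univ.filter (fun i => deg E i ≠ 0) with hV
  have hprod := PB_prod hS hE n
  have hsum := PB_sum hS hE n
  rw [← hV] at hprod hsum
  have hone : ∀ i : Fin g, 1 ≤ 1 + |(n i : ℝ)| := fun i => by
    have := abs_nonneg (n i : ℝ); linarith
  have hsplit : ∏ i ∈ V, ((1 + |(n i : ℝ)|) ^ (g + 1) * Real.exp ((n i : ℝ) ^ 2 / 2)) =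
      (∏ i ∈ V, (1 + |(n i : ℝ)|)) *
        ∏ i ∈ V, ((1 + |(n i : ℝ)|) ^ g * Real.exp ((n i : ℝ) ^ 2 / 2)) := by
    rw [← prod_mul_distrib]
    refine prod_congr rfl fun i _ => ?_
    ring
  have hll : 0 ≤ ∏ e ∈ E, l e.1 * l e.2 :=
    prod_nonneg fun e _ => mul_nonneg (hS.lpos _).le (hS.lpos _).le
  have hW : 0 ≤ ∏ i ∈ V, ((1 + |(n i : ℝ)|) ^ g * Real.exp ((n i : ℝ) ^ 2 / 2)) :=
    prod_nonneg fun i _ => by positivity
  constructor
  · rw [norm_prod]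
    refine (prod_le_prod (fun _ _ => norm_nonneg _) fun e _ => PB_exp1 (ex t n e)).trans
      (hprod.trans ?_)
    refine mul_le_mul_of_nonneg_left ?_ (by positivity)
    refine prod_le_prod (fun i _ => by positivity) fun i _ => ?_
    refine mul_le_mul_of_nonneg_right ?_ (Real.exp_pos _).le
    exact pow_le_pow_right₀ (hone i) (Nat.le_succ g)
  · refine (PB_diff t n E).trans ?_
    rw [hsplit]
    have h1 : 0 ≤ ∏ e ∈ E, (‖ex t n e‖ * Real.exp ‖ex t n e‖) :=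
      prod_nonneg fun _ _ => by positivity
    have h2 : 0 ≤ ∏ i ∈ V, (1 + |(n i : ℝ)|) := prod_nonneg fun i _ => by positivity
    have h3 := hS.pos
    calc (∑ e ∈ E, ‖ex t n e‖) * ∏ e ∈ E, (‖ex t n e‖ * Real.exp ‖ex t n e‖)
        ≤ (2 * Real.pi * g ^ 2 * ε * ∏ i ∈ V, (1 + |(n i : ℝ)|)) *
          ((2 * Real.pi) ^ E.card * (∏ e ∈ E, l e.1 * l e.2) *
            ∏ i ∈ V, ((1 + |(n i : ℝ)|) ^ g * Real.exp ((n i : ℝ) ^ 2 / 2))) :=
          mul_le_mul hsum hprod h1 (by positivity)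
      _ = _ := by rw [pow_succ]; ring

end Pool.TNP
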