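import Pool.Agent.Work.MP_29fd3c_np.Interface

set_option autoImplicit false

namespace Pool.TNP

open Finset Complex Pool.TH

theorem PR_prod {g : ℕ} (l : Fin g → ℝ) (E : Finset (Fin g × Fin g)) (hE : E ⊆ P g) :
    ∏ e ∈ E, l e.1 * l e.2 = ∏ i, l i ^ deg E i := by
  have h1 : ∀ e ∈ E, l e.1 * l e.2 = ∏ i, if e.1 = i ∨ e.2 = i then l i else 1 := by
    intro e he
    have hlt : e.1 < e.2 := (mem_filter.1 (hE he)).2
    rw [← Finset.prod_filter]
    have : univ.filter (fun i => e.1 = i ∨ e.2 = i) = {e.1, e.2} := by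
      ext i
      simp [eq_comm]
    rw [this, Finset.prod_pair hlt.ne]
  rw [Finset.prod_congr rfl h1, Finset.prod_comm]
  refine Finset.prod_congr rfl fun i _ => ?_
  rw [← Finset.prod_filter, Finset.prod_const, deg]

theorem p_PR : Stmt_PR := by
  intro g ε l M hε hε1 hl hlε hM A E hE
  have hL1 : ∀ i, l i ≤ 1 := fun i => (hlε i).trans hε1
  set Fi : Fin g → ℝ := fun i => l i ^ deg E i * (if i ∈ A ∧ deg E i = 0 then M i else 1) with hFi
  set Gi : Fin g → ℝ := fun i => if i ∈ A then max (l i) (M i) else 1 with hGi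
  have hL : (∏ e ∈ E, l e.1 * l e.2) * ∏ i ∈ A.filter (fun i => deg E i = 0), M i =
      ∏ i, Fi i := by
    rw [PR_prod l E hE, hFi, Finset.prod_mul_distrib]
    congr 1
    rw [← Finset.prod_filter]
    congr 1
    ext i
    simp
  have hR : ∏ i ∈ A, max (l i) (M i) = ∏ i, Gi i := by
    rw [hGi, ← Finset.prod_filter]
    congr 1
    ext i
    simp
  have hF0 : ∀ i, 0 ≤ Fi i := by
    intro i
    rw [hFi]
    have := (hl i).le
    have := hM i
    simp only
    split_ifs <;> positivity
  have hG0 : ∀ i, 0 < Gi i := by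
    intro i
    simp only [hGi]
    split_ifs
    · exact lt_max_of_lt_left (hl i)
    · exact one_pos
  have hFG : ∀ i, Fi i ≤ Gi i := by
    intro i
    simp only [hFi, hGi]
    by_cases hA : i ∈ A
    · by_cases hd : deg E i = 0
      · simp [hA, hd]
      · simp only [hA, hd, and_false, if_false, if_true, mul_one]
        exact (pow_le_of_le_one (hl i).le (hL1 i) hd).trans (le_max_left _ _)
    · simp only [hA, false_and, if_false, mul_one]
      exact pow_le_one₀ (hl i).le (hL1 i)
  constructor
  · intro _
    rw [hL, hR]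
    exact Finset.prod_le_prod (fun i _ => hF0 i) (fun i _ => hFG i)
  · intro hnot
    rw [hL, hR]
    simp only [IsM, not_forall, not_le] at hnot
    obtain ⟨i, hi⟩ := hnot
    have h1 : Fi i ≤ ε * Gi i := by
      simp only [hFi, hGi]
      by_cases hA : i ∈ A
      · simp only [hA, if_true] at hi
        have hd : deg E i ≠ 0 := by omega
        simp only [hA, hd, and_false, if_false, if_true, mul_one]
        have : l i ^ deg E i ≤ l i ^ 2 := pow_le_pow_of_le_one (hl i).le (hL1 i) hi
        refine this.trans ?_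
        rw [pow_two]
        exact mul_le_mul (hlε i) (le_max_left _ _) (hl i).le hε.le
      · simp only [hA, if_false] at hi
        have hd : deg E i ≠ 0 := by omega
        simp only [hA, false_and, if_false, mul_one]
        exact (pow_le_of_le_one (hl i).le (hL1 i) hd).trans (hlε i)
    rw [← Finset.mul_prod_erase _ _ (mem_univ i), ← Finset.mul_prod_erase _ Gi (mem_univ i),
      ← mul_assoc]
    refine mul_le_mul h1 (Finset.prod_le_prod (fun i _ => hF0 i) (fun i _ => hFG i)) ?_ ?_
    · exact Finset.prod_nonneg fun i _ => hF0 i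
    · exact mul_nonneg hε.le (hG0 i).le

end Pool.TNP
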