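import Pool.Agent.Work.MP_29fd3c_np.Interface

set_option autoImplicit false

namespace Pool.TNP

open Finset Complex Pool.TH

theorem REC_deg_insert {g : ℕ} (E : Finset (Fin g × Fin g)) (e : Fin g × Fin g) (he : e ∉ E) (i : Fin g) :
    deg (insert e E) i = deg E i + (if e.1 = i ∨ e.2 = i then 1 else 0) := by
  unfold deg
  rw [filter_insert]
  split_ifs with h
  · rw [card_insert_of_notMem]
    intro h'
    exact he (mem_of_mem_filter _ h')
  · rfl

/-- the pair -/
def REC_pr {g : ℕ} (v j : Fin g) : Fin g × Fin g := if v < j then (v, j) else (j, v)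

theorem REC_pr_mem {g : ℕ} (v j : Fin g) (h : v ≠ j) : REC_pr v j ∈ P g := by
  unfold REC_pr P
  rw [mem_filter]
  refine ⟨mem_univ _, ?_⟩
  split_ifs with h1
  · exact h1
  · exact lt_of_le_of_ne (not_lt.1 h1) (Ne.symm h)

theorem REC_pr_iff {g : ℕ} (v j k : Fin g) :
    ((REC_pr v j).1 = k ∨ (REC_pr v j).2 = k) ↔ (k = v ∨ k = j) := by
  unfold REC_pr
  split_ifs with h1
  · constructor
    · rintro (h | h)
      · exact Or.inl h.symm
      · exact Or.inr h.symm
    · rintro (h | h)
      · exact Or.inl h.symm
      · exact Or.inr h.symm
  · constructor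
    · rintro (h | h)
      · exact Or.inr h.symm
      · exact Or.inl h.symm
    · rintro (h | h)
      · exact Or.inr h.symm
      · exact Or.inl h.symm

theorem REC_pr_inj {g : ℕ} (v j j' : Fin g) (h : REC_pr v j = REC_pr v j') : j = j' := by
  have h1 := (REC_pr_iff v j j).2 (Or.inr rfl)
  rw [h, REC_pr_iff] at h1
  have h2 := (REC_pr_iff v j' j').2 (Or.inr rfl)
  rw [← h, REC_pr_iff] at h2
  rcases h1 with h1 | h1
  · rcases h2 with h2 | h2
    · rw [h1, h2]
    · exact h2.symm
  · exact h1

theorem REC_beta {g : ℕ} (β : Fin g → Fin g → ℂ) (hβ : ∀ i j, β i j = β j i) (v j : Fin g) :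
    β (REC_pr v j).1 (REC_pr v j).2 = β v j := by
  unfold REC_pr
  split_ifs
  · rfl
  · exact hβ _ _

theorem REC_exists {g : ℕ} (v : Fin g) (e : Fin g × Fin g) (he : e ∈ P g) (hv : e.1 = v ∨ e.2 = v) :
    ∃ j, j ≠ v ∧ e = REC_pr v j := by
  unfold P at he
  rw [mem_filter] at he
  obtain ⟨a, b⟩ := e
  have hab : a < b := he.2
  rcases hv with h | h
  · have h : a = v := h
    subst h
    exact ⟨b, ne_of_gt hab, by unfold REC_pr; rw [if_pos hab]⟩
  · have h : b = v := h
    subst h
    exact ⟨a, ne_of_lt hab, by unfold REC_pr; rw [if_neg (not_lt.2 hab.le)]⟩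

theorem REC_notMem {g : ℕ} (v j : Fin g) (E : Finset (Fin g × Fin g)) (h : deg E v = 0) :
    REC_pr v j ∉ E := by
  intro h1
  unfold deg at h
  rw [card_eq_zero, filter_eq_empty_iff] at h
  exact h h1 ((REC_pr_iff v j v).2 (Or.inl rfl))

theorem p_REC : Stmt_REC := by
  intro g s β hβ A v hv
  unfold F
  rw [← sum_filter_add_sum_filter_not _ (fun E => deg E v = 0)]
  congr 1
  · -- uncovered
    rw [mul_sum]
    have hset : ((P g).powerset.filter (IsM (insert v A))).filter (fun E => deg E v = 0) =
        (P g).powerset.filter (IsM A) := by
      ext E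
      simp only [mem_filter, mem_powerset]
      constructor
      · rintro ⟨⟨h1, h2⟩, h3⟩
        refine ⟨h1, fun i => ?_⟩
        by_cases hi : i = v
        · subst hi
          rw [h3]; exact Nat.zero_le _
        · have := h2 i
          simp only [mem_insert, hi, false_or] at this
          exact this
      · rintro ⟨h1, h2⟩
        refine ⟨⟨h1, fun i => ?_⟩, ?_⟩
        · by_cases hi : i = v
          · subst hi
            have := h2 i
            rw [if_neg hv] at this
            exact le_trans this (Nat.zero_le _)
          · have := h2 i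
            simpa [hi] using this
        · have := h2 v
          rw [if_neg hv] at this
          omega
    rw [hset]
    apply sum_congr rfl
    intro E hE
    rw [mem_filter] at hE
    have h0 : deg E v = 0 := by
      have := hE.2 v
      rw [if_neg hv] at this
      omega
    rw [filter_insert, if_pos h0, prod_insert]
    · ring
    · intro h
      exact hv (mem_of_mem_filter _ h)
  · simp only [mul_sum]
    rw [sum_sigma']
    symm
    apply sum_bij (fun (x : (_ : Fin g) × Finset (Fin g × Fin g)) _ => insert (REC_pr v x.1) x.2)
    · rintro ⟨j, E⟩ hx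
      simp only [mem_sigma, mem_filter, mem_powerset] at hx ⊢
      obtain ⟨hj, hE, hM⟩ := hx
      have hvj : v ≠ j := fun h => hv (h ▸ hj)
      have h0 : deg E v = 0 := by
        have := hM v
        rw [if_neg (fun h => hv (mem_of_mem_erase h))] at this
        omega
      have hn := REC_notMem v j E h0
      have hj0 : deg E j = 0 := by
        have := hM j
        rw [if_neg (notMem_erase j A)] at this
        omega
      refine ⟨⟨?_, ?_⟩, ?_⟩
      · exact insert_subset (REC_pr_mem v j hvj) hE
      · intro k
        rw [REC_deg_insert _ _ hn]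
        by_cases h1 : k = v
        · subst h1
          rw [h0, if_pos ((REC_pr_iff k j k).2 (Or.inl rfl)), if_pos (mem_insert_self _ _)]
        · by_cases h2 : k = j
          · subst h2
            rw [hj0, if_pos ((REC_pr_iff v k k).2 (Or.inr rfl)), if_pos (mem_insert_of_mem hj)]
          · rw [if_neg (fun h => by rcases (REC_pr_iff v j k).1 h with h | h; exacts [h1 h, h2 h])]
            have := hM k
            simp only [mem_erase, ne_eq, h2, not_false_eq_true, true_and] at this
            simp only [mem_insert, h1, false_or]
            omega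
      · rw [REC_deg_insert _ _ hn, if_pos ((REC_pr_iff v j v).2 (Or.inl rfl))]
        omega
    · rintro ⟨j, E⟩ hx ⟨j', E'⟩ hx' h
      simp only [mem_sigma, mem_filter, mem_powerset] at hx hx'
      simp only at h
      obtain ⟨hj, hE, hM⟩ := hx
      obtain ⟨hj', hE', hM'⟩ := hx'
      have h0 : deg E v = 0 := by
        have := hM v
        rw [if_neg (fun h => hv (mem_of_mem_erase h))] at this
        omega
      have h0' : deg E' v = 0 := by
        have := hM' v
        rw [if_neg (fun h => hv (mem_of_mem_erase h))] at this
        omega
      have h1 : REC_pr v j ∈ insert (REC_pr v j') E' := by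
        rw [← h]; exact mem_insert_self _ _
      rw [mem_insert] at h1
      rcases h1 with h1 | h1
      · have h2 := REC_pr_inj v j j' h1
        subst h2
        have h3 : E = E' := by
          rw [← erase_insert (REC_notMem v j E h0), h, erase_insert (REC_notMem v j E' h0')]
        rw [h3]
      · exact absurd h1 (REC_notMem v j E' h0')
    · intro E hE
      simp only [mem_filter, mem_powerset] at hE
      obtain ⟨⟨hE, hM⟩, hd⟩ := hE
      have h1 : ∃ e ∈ E, e.1 = v ∨ e.2 = v := by
        unfold deg at hd
        rw [card_eq_zero, filter_eq_empty_iff] at hd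
        push Not at hd
        exact hd
      obtain ⟨e, heE, hev⟩ := h1
      obtain ⟨j, hjv, hej⟩ := REC_exists v e (hE heE) hev
      subst hej
      have hins : insert (REC_pr v j) (E.erase (REC_pr v j)) = E := insert_erase heE
      have hdeg : ∀ k, deg E k = deg (E.erase (REC_pr v j)) k +
          (if (REC_pr v j).1 = k ∨ (REC_pr v j).2 = k then 1 else 0) := by
        intro k
        conv_lhs => rw [← hins]
        exact REC_deg_insert _ _ (notMem_erase _ _) k
      have hjA : j ∈ A := by
        have h2 := hM j
        rw [hdeg j, if_pos ((REC_pr_iff v j j).2 (Or.inr rfl))] at h2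
        by_contra hc
        rw [if_neg] at h2
        · omega
        · rw [mem_insert]
          rintro (h | h)
          · exact hjv h
          · exact hc h
      refine ⟨⟨j, E.erase (REC_pr v j)⟩, ?_, hins⟩
      simp only [mem_sigma, mem_filter, mem_powerset]
      refine ⟨hjA, (erase_subset _ _).trans hE, fun k => ?_⟩
      have h2 := hM k
      rw [hdeg k] at h2
      by_cases h1 : k = v
      · subst h1
        rw [if_pos ((REC_pr_iff k j k).2 (Or.inl rfl)), if_pos (mem_insert_self _ _)] at h2
        omega
      · by_cases h3 : k = j
        · subst h3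
          rw [if_pos ((REC_pr_iff v k k).2 (Or.inr rfl)), if_pos (mem_insert_of_mem hjA)] at h2
          omega
        · simp only [mem_insert, h1, false_or] at h2
          simp only [mem_erase, ne_eq, h3, not_false_eq_true, true_and]
          omega
    · rintro ⟨j, E⟩ hx
      simp only [mem_sigma, mem_filter, mem_powerset] at hx ⊢
      obtain ⟨hj, hE, hM⟩ := hx
      have hvj : v ≠ j := fun h => hv (h ▸ hj)
      have h0 : deg E v = 0 := by
        have := hM v
        rw [if_neg (fun h => hv (mem_of_mem_erase h))] at this
        omega
      have hn := REC_notMem v j E h0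
      have hj0 : deg E j = 0 := by
        have := hM j
        rw [if_neg (notMem_erase j A)] at this
        omega
      rw [prod_insert hn, REC_beta β hβ]
      have hf : (insert v A).filter (fun i => deg (insert (REC_pr v j) E) i = 0) =
          (A.erase j).filter (fun i => deg E i = 0) := by
        ext k
        simp only [mem_filter, mem_insert, mem_erase]
        rw [REC_deg_insert _ _ hn]
        by_cases h1 : k = v
        · subst h1
          rw [if_pos ((REC_pr_iff k j k).2 (Or.inl rfl))]
          constructor
          · rintro ⟨_, h⟩; omega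
          · rintro ⟨⟨_, h⟩, _⟩; exact absurd h hv
        · by_cases h2 : k = j
          · subst h2
            rw [if_pos ((REC_pr_iff v k k).2 (Or.inr rfl))]
            constructor
            · rintro ⟨_, h⟩; omega
            · rintro ⟨⟨h, _⟩, _⟩; exact absurd rfl h
          · rw [if_neg (fun h => by rcases (REC_pr_iff v j k).1 h with h | h; exacts [h1 h, h2 h])]
            simp [h1, h2]
      rw [hf]
      ring

end Pool.TNP
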