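import Pool.Agent.Work.MP_29fd3c_np.Interface

set_option autoImplicit false

namespace Pool.TNP

open Finset Complex Pool.TH

theorem p_RED : Stmt_RED := by
  classical
  intro g τ ε hτ hpos hdiag hε hg hoff z N hvan
  have hπ := Real.pi_gt_three
  have hg0 : (0 : ℝ) ≤ g := Nat.cast_nonneg _
  have hge : (g : ℝ) * ε ^ 2 ≤ 1 / 60 := by
    have h1 : 0 ≤ (g : ℝ) * ε ^ 2 := by positivity
    nlinarith
  have h3 : (1 : ℝ) ≤ Real.sqrt 3 := by
    rw [show (1 : ℝ) = Real.sqrt 1 by simp]
    exact Real.sqrt_le_sqrt (by norm_num)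
  have hD : Dom τ z := dom_of_large (C := ε ^ 2) (T := Real.sqrt 3 / 2) (by positivity)
    (fun i j hij => (Complex.abs_im_le_norm _).trans (hoff i j hij)) hdiag (by nlinarith) z
  set M : Matrix (Fin g) (Fin g) ℝ := τ.map Complex.im with hM
  have hMij : ∀ i j, M i j = (τ i j).im := fun i j => rfl
  set y0 : Fin g → ℝ := M⁻¹.mulVec (fun i => (z i).im) with hy0
  have hMy0 : M.mulVec y0 = fun i => (z i).im := by
    rw [hy0, Matrix.mulVec_mulVec, Matrix.mul_nonsing_inv _ ((Matrix.isUnit_iff_isUnit_det _).1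
      hpos.isUnit), Matrix.one_mulVec]
  set a : Fin g → ℤ := fun i => -round (y0 i) with ha
  set y : Fin g → ℝ := fun i => y0 i + (a i : ℝ) with hy
  have hyb : ∀ i, |y i| ≤ 1 / 2 := by
    intro i
    rw [hy, ha]
    have := abs_sub_round (y0 i)
    simpa [sub_eq_add_neg] using this
  set z' : Fin g → ℂ := z + τ.mulVec (fun i => (a i : ℂ)) with hz'
  have hz'im : ∀ i, (z' i).im = ∑ j, M i j * y j := by
    intro i
    have h1 : (z i).im = ∑ j, M i j * y0 j := by
      have := congrFun hMy0 i
      rw [← this]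
      rfl
    rw [hz', Pi.add_apply, Complex.add_im, h1]
    have h2 : ((τ.mulVec (fun i => (a i : ℂ))) i).im = ∑ j, M i j * (a j : ℝ) := by
      simp only [Matrix.mulVec, dotProduct]
      rw [Complex.im_sum]
      refine sum_congr rfl (fun j _ => ?_)
      rw [hMij]
      simp [Complex.mul_im]
    rw [h2, ← sum_add_distrib]
    refine sum_congr rfl (fun j _ => ?_)
    rw [hy]
    ring
  refine ⟨z', ?_, ?_⟩
  · intro i
    rw [hz'im i, ← add_sum_erase univ _ (mem_univ i)]
    refine (abs_add_le _ _).trans (add_le_add ?_ ?_)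
    · have h5 : 0 ≤ M i i := (by positivity : (0 : ℝ) ≤ Real.sqrt 3 / 2).trans (hdiag i)
      rw [abs_mul, abs_of_nonneg h5, hMij]
      have := mul_le_mul_of_nonneg_left (hyb i) h5
      rw [hMij] at this
      linarith
    · refine (abs_sum_le_sum_abs _ _).trans ?_
      have h6 : ∀ j ∈ univ.erase i, |M i j * y j| ≤ ε ^ 2 / 2 := by
        intro j hj
        rw [abs_mul]
        have h7 : |M i j| ≤ ε ^ 2 :=
          (Complex.abs_im_le_norm _).trans (hoff i j (ne_of_mem_erase hj).symm)
        have h8 := mul_le_mul h7 (hyb j) (abs_nonneg _) (by positivity)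
        linarith
      refine (sum_le_sum h6).trans ?_
      rw [sum_const, nsmul_eq_mul]
      have h9 : (((univ : Finset (Fin g)).erase i).card : ℝ) ≤ g := by
        have := card_le_card (erase_subset i (univ : Finset (Fin g)))
        rw [card_univ, Fintype.card_fin] at this
        exact_mod_cast this
      have h10 := mul_le_mul_of_nonneg_right h9 (show 0 ≤ ε ^ 2 / 2 by positivity)
      linarith
  · intro U hU
    have h1 := der hD hvan U hU (fun i => -(a i : ℂ)) (fun _ => 1)
    rw [← (Equiv.addLeft a).tsum_eq] at h1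
    have h2 : ∀ n : Fin g → ℤ, (∏ i ∈ U, (-(a i : ℂ) + 1 * (((Equiv.addLeft a) n i : ℤ) : ℂ))) *
        term τ z ((Equiv.addLeft a) n) =
        term τ z a * ((∏ i ∈ U, (n i : ℂ)) * term τ z' n) := by
      intro n
      rw [Equiv.coe_addLeft, term_shift hτ, hz']
      have h3 : ∏ i ∈ U, (-(a i : ℂ) + 1 * (((a + n) i : ℤ) : ℂ)) = ∏ i ∈ U, (n i : ℂ) := by
        refine prod_congr rfl fun i _ => ?_
        rw [Pi.add_apply]
        push_cast
        ring
      rw [h3]
      ring
    simp only [h2] at h1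
    rw [tsum_mul_left] at h1
    exact (mul_eq_zero.1 h1).resolve_left (term_ne τ z a)

end Pool.TNP
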