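import Pool.Agent.Work.MP_29fd3c_np.Interface

set_option autoImplicit false

namespace Pool.TNP

open Finset Complex Pool.TH

theorem SUM_fin (k : ℕ) : ∀ (f : Fin k → ℤ → ℂ), (∀ i, Summable fun n => ‖f i n‖) →
    (Summable fun n : Fin k → ℤ => ‖∏ i, f i (n i)‖) ∧
      ∑' n : Fin k → ℤ, ∏ i, f i (n i) = ∏ i, ∑' n, f i n := by
  induction k with
  | zero =>
    intro f hf
    refine ⟨(hasSum_unique _).summable, ?_⟩
    rw [tsum_eq_single default (fun b hb => absurd (Subsingleton.elim _ _) hb)]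
    simp
  | succ k ih =>
    intro f hf
    obtain ⟨h1, h2⟩ := ih (fun i => f i.succ) (fun i => hf i.succ)
    have e : ∀ x : ℤ × (Fin k → ℤ), ∏ i, f i ((Fin.consEquiv (fun _ => ℤ)) x i) =
        f 0 x.1 * ∏ i : Fin k, f i.succ (x.2 i) := by
      intro x
      rw [Fin.prod_univ_succ]
      rfl
    constructor
    · rw [← (Fin.consEquiv (fun _ : Fin (k + 1) => ℤ)).summable_iff]
      have : (fun n : Fin (k + 1) → ℤ => ‖∏ i, f i (n i)‖) ∘ (Fin.consEquiv (fun _ => ℤ)) =
          fun x : ℤ × (Fin k → ℤ) => ‖f 0 x.1 * ∏ i : Fin k, f i.succ (x.2 i)‖ := by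
        funext x
        simp only [Function.comp]
        rw [e x]
      rw [this]
      exact Summable.mul_norm (f := f 0) (g := fun n : Fin k → ℤ => ∏ i : Fin k, f i.succ (n i))
        (hf 0) h1
    · rw [← (Fin.consEquiv (fun _ : Fin (k + 1) => ℤ)).tsum_eq]
      simp only [e]
      rw [← tsum_mul_tsum_of_summable_norm (f := f 0)
        (g := fun n : Fin k → ℤ => ∏ i : Fin k, f i.succ (n i)) (hf 0) h1, h2, Fin.prod_univ_succ]

theorem p_SUM : Stmt_SUM := by
  intro ι _ f hf
  set e := Fintype.equivFin ι with he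
  obtain ⟨h1, h2⟩ := SUM_fin (Fintype.card ι) (fun i => f (e.symm i)) (fun i => hf _)
  have key : ∀ n : Fin (Fintype.card ι) → ℤ,
      ∏ i, f i ((e.symm.arrowCongr (Equiv.refl ℤ)) n i) = ∏ i, f (e.symm i) (n i) := by
    intro n
    rw [← e.symm.prod_comp]
    refine Finset.prod_congr rfl fun i _ => ?_
    simp [Equiv.arrowCongr]
  constructor
  · rw [← (e.symm.arrowCongr (Equiv.refl ℤ)).summable_iff]
    have : (fun n : ι → ℤ => ‖∏ i, f i (n i)‖) ∘ (e.symm.arrowCongr (Equiv.refl ℤ)) =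
        fun n : Fin (Fintype.card ι) → ℤ => ‖∏ i, f (e.symm i) (n i)‖ := by
      funext n
      simp only [Function.comp]
      rw [key n]
    rw [this]
    exact h1
  · rw [← (e.symm.arrowCongr (Equiv.refl ℤ)).tsum_eq]
    simp only [key]
    rw [h2]
    exact e.symm.prod_comp (fun i => ∑' n, f i n)

end Pool.TNP
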