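import Pool.Agent.Work.MP_29fd3c_np.Interface

set_option autoImplicit false

namespace Pool.TNP

open Finset Complex Pool.TH

/-- the terms -/
noncomputable def SZ_a (T z : ℂ) (n : ℤ) : ℂ :=
  Complex.exp (Real.pi * Complex.I * T * (n : ℂ) ^ 2 + 2 * Real.pi * Complex.I * (n : ℂ) * z)

theorem SZ_norm (T z : ℂ) (n : ℤ) :
    ‖SZ_a T z n‖ = Real.exp (-(Real.pi * T.im * (n : ℝ) ^ 2) - 2 * Real.pi * (n : ℝ) * z.im) := by
  rw [SZ_a, Complex.norm_exp]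
  congr 1
  have h1 : (Real.pi * Complex.I * T * (n : ℂ) ^ 2 + 2 * Real.pi * Complex.I * (n : ℂ) * z) =
      (((Real.pi * (n : ℝ) ^ 2 : ℝ)) : ℂ) * (Complex.I * T) +
        (((2 * Real.pi * (n : ℝ) : ℝ)) : ℂ) * (Complex.I * z) := by
    push_cast; ring
  rw [h1, Complex.add_re, Complex.re_ofReal_mul, Complex.re_ofReal_mul, Complex.I_mul_re,
    Complex.I_mul_re]
  ring

theorem SZ_sqrt : (8 / 3 : ℝ) ≤ Real.pi * (Real.sqrt 3 / 2) := by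
  have h1 : (3.1415 : ℝ) < Real.pi := Real.pi_gt_d4
  have h2 : (1.73 : ℝ) ≤ Real.sqrt 3 := Real.le_sqrt_of_sq_le (by norm_num)
  nlinarith

theorem SZ_abs (k : ℤ) : |(k : ℝ)| ≤ (k : ℝ) ^ 2 := by
  have h1 : |k| ≤ k ^ 2 := by
    rw [← sq_abs]
    rcases eq_or_ne k 0 with rfl | hk
    · simp
    · have : 1 ≤ |k| := Int.one_le_abs hk
      nlinarith
  exact_mod_cast h1

theorem SZ_e6 : Real.exp (3 / 2) ≤ 6 := by
  have h1 := Real.exp_one_lt_d9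
  have h0 := Real.exp_pos 1
  have h2 : Real.exp (3 / 2) ^ 2 = Real.exp 1 ^ 3 := by
    rw [← Real.exp_nat_mul, ← Real.exp_nat_mul]
    congr 1
    push_cast; ring
  have h3 : Real.exp 1 ^ 3 ≤ 2.72 ^ 3 := pow_le_pow_left₀ h0.le (by linarith) 3
  have h4 := Real.exp_pos (3 / 2)
  by_contra h
  push Not at h
  have : (6 : ℝ) ^ 2 < Real.exp (3 / 2) ^ 2 := pow_lt_pow_left₀ h (by norm_num) (by norm_num)
  rw [h2] at this
  norm_num at h3 this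
  linarith

theorem SZ_e14 : Real.exp (-(8 / 3)) ≤ 1 / 14 := by
  have h1 := Real.exp_one_gt_d9
  have h2 : Real.exp (8 / 3) ^ 3 = Real.exp 1 ^ 8 := by
    rw [← Real.exp_nat_mul, ← Real.exp_nat_mul]
    congr 1
    push_cast; ring
  have h3 : (2.718 : ℝ) ^ 8 ≤ Real.exp 1 ^ 8 := pow_le_pow_left₀ (by norm_num) (by linarith) 8
  have h4 := Real.exp_pos (8 / 3)
  have h5 : (14 : ℝ) ≤ Real.exp (8 / 3) := by
    by_contra h
    push Not at h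
    have : Real.exp (8 / 3) ^ 3 < (14 : ℝ) ^ 3 := pow_lt_pow_left₀ h h4.le (by norm_num)
    rw [h2] at this
    norm_num at h3 this
    linarith
  rw [Real.exp_neg, inv_eq_one_div]
  exact one_div_le_one_div_of_le (by norm_num) h5

theorem SZ_e5 : Real.exp (-5) ≤ 1 / 140 := by
  have h1 := Real.exp_one_gt_d9
  have h2 : Real.exp 5 = Real.exp 1 ^ 5 := by
    rw [← Real.exp_nat_mul]
    congr 1
    push_cast; ring
  have h3 : (2.718 : ℝ) ^ 5 ≤ Real.exp 1 ^ 5 := pow_le_pow_left₀ (by norm_num) (by linarith) 5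
  rw [Real.exp_neg, inv_eq_one_div, h2]
  refine one_div_le_one_div_of_le (by norm_num) (le_trans ?_ h3)
  norm_num

theorem SZ_decay (T z : ℂ) (η : ℝ) (hT : Real.sqrt 3 / 2 ≤ T.im) (hz : |z.im| ≤ T.im / 2 + η)
    (hη1 : 2 * Real.pi * η ≤ 1 / 10) (n : ℤ) :
    ‖SZ_a T z n‖ ≤ Real.exp (-(8 / 3) * ((n : ℝ) ^ 2 - |(n : ℝ)|) + |(n : ℝ)| / 10) := by
  rw [SZ_norm, Real.exp_le_exp]
  have hπ := Real.pi_pos
  have h1 : (8 / 3 : ℝ) ≤ Real.pi * T.im :=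
    SZ_sqrt.trans (mul_le_mul_of_nonneg_left hT hπ.le)
  have h2 := SZ_abs n
  have h3 : -(2 * Real.pi * (n : ℝ) * z.im) ≤ 2 * Real.pi * |(n : ℝ)| * (T.im / 2 + η) := by
    have : -(2 * Real.pi * (n : ℝ) * z.im) ≤ |2 * Real.pi * (n : ℝ) * z.im| := neg_le_abs _
    refine this.trans ?_
    rw [abs_mul, abs_mul, abs_of_pos (by positivity : (0 : ℝ) < 2 * Real.pi)]
    exact mul_le_mul_of_nonneg_left hz (by positivity)
  have h4 : 2 * Real.pi * η * |(n : ℝ)| ≤ 1 / 10 * |(n : ℝ)| :=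
    mul_le_mul_of_nonneg_right hη1 (abs_nonneg _)
  have h5 : (8 / 3 : ℝ) * ((n : ℝ) ^ 2 - |(n : ℝ)|) ≤ Real.pi * T.im * ((n : ℝ) ^ 2 - |(n : ℝ)|) :=
    mul_le_mul_of_nonneg_right h1 (by linarith)
  nlinarith

theorem SZ_six (T z : ℂ) (η : ℝ) (hT : Real.sqrt 3 / 2 ≤ T.im) (hz : |z.im| ≤ T.im / 2 + η)
    (hη1 : 2 * Real.pi * η ≤ 1 / 10) (n : ℤ) :
    ‖SZ_a T z n‖ ≤ 6 * Real.exp (-(n : ℝ) ^ 2) := by
  refine (SZ_decay T z η hT hz hη1 n).trans ?_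
  have h2 := SZ_abs n
  have h3 := abs_nonneg (n : ℝ)
  have h4 := sq_abs (n : ℝ)
  calc Real.exp (-(8 / 3) * ((n : ℝ) ^ 2 - |(n : ℝ)|) + |(n : ℝ)| / 10)
      ≤ Real.exp (3 / 2 + (-(n : ℝ) ^ 2)) := by
        rw [Real.exp_le_exp]
        nlinarith [sq_nonneg (|(n : ℝ)| - 4 / 5)]
    _ = Real.exp (3 / 2) * Real.exp (-(n : ℝ) ^ 2) := Real.exp_add _ _
    _ ≤ 6 * Real.exp (-(n : ℝ) ^ 2) :=
        mul_le_mul_of_nonneg_right SZ_e6 (Real.exp_pos _).le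

theorem SZ_summable (a : ℤ → ℂ) (ha : ∀ n : ℤ, ‖a n‖ ≤ 6 * Real.exp (-(n : ℝ) ^ 2)) :
    Summable a ∧ Summable fun n : ℤ => (n : ℂ) * a n := by
  have h0 : ∀ n : ℤ, 2 * |(n : ℝ)| - 1 ≤ (n : ℝ) ^ 2 := by
    intro n
    nlinarith [sq_nonneg (|(n : ℝ)| - 1), sq_abs (n : ℝ)]
  constructor
  · refine Summable.of_norm_bounded (g := fun n : ℤ => 6 * Real.exp (-|(n : ℝ)|))
      (summable_exp_abs.mul_left _) (fun n => (ha n).trans ?_)
    refine mul_le_mul_of_nonneg_left ?_ (by norm_num)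
    rw [Real.exp_le_exp]
    linarith [SZ_abs n]
  · refine Summable.of_norm_bounded (g := fun n : ℤ => (6 * Real.exp 1) * Real.exp (-|(n : ℝ)|))
      (summable_exp_abs.mul_left _) (fun n => ?_)
    rw [norm_mul, Complex.norm_intCast]
    have h1 : |(n : ℝ)| ≤ Real.exp |(n : ℝ)| := by
      linarith [Real.add_one_le_exp |(n : ℝ)|]
    calc |(n : ℝ)| * ‖a n‖ ≤ Real.exp |(n : ℝ)| * (6 * Real.exp (-(n : ℝ) ^ 2)) :=
          mul_le_mul h1 (ha n) (norm_nonneg _) (Real.exp_pos _).le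
      _ = 6 * Real.exp (|(n : ℝ)| + -(n : ℝ) ^ 2) := by rw [Real.exp_add]; ring
      _ ≤ 6 * Real.exp (1 + -|(n : ℝ)|) := by
          refine mul_le_mul_of_nonneg_left ?_ (by norm_num)
          rw [Real.exp_le_exp]
          linarith [h0 n]
      _ = (6 * Real.exp 1) * Real.exp (-|(n : ℝ)|) := by rw [Real.exp_add]; ring

theorem SZ_pow2 (m : ℕ) : (m : ℝ) + 2 ≤ 2 ^ (m + 1) := by
  have : m + 2 ≤ 2 ^ (m + 1) := by
    have := Nat.lt_two_pow_self (n := m + 1)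
    omega
  exact_mod_cast this

/-- the case `Im z ≤ 0` -/
theorem SZ_neg (T z : ℂ) (η : ℝ) (hT : Real.sqrt 3 / 2 ≤ T.im) (hz : |z.im| ≤ T.im / 2 + η)
    (hη1 : 2 * Real.pi * η ≤ 1 / 10) (hz0 : z.im ≤ 0) :
    3 / 4 ≤ ‖∑' n : ℤ, SZ_a T z n‖ + ‖∑' n : ℤ, (n : ℂ) * SZ_a T z n‖ := by
  have hπ := Real.pi_pos
  obtain ⟨s1, s2⟩ := SZ_summable _ (SZ_six T z η hT hz hη1)
  set f : ℤ → ℂ := fun n => SZ_a T z n - (n : ℂ) * SZ_a T z n with hf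
  have sf : Summable f := s1.sub s2
  have e1 : ∑' n, f n = ∑' n : ℤ, SZ_a T z n - ∑' n : ℤ, (n : ℂ) * SZ_a T z n :=
    s1.tsum_sub s2
  have h1 : (8 / 3 : ℝ) ≤ Real.pi * T.im :=
    SZ_sqrt.trans (mul_le_mul_of_nonneg_left hT hπ.le)
  have hn : ∀ n : ℕ, ‖f (-((n : ℤ) + 1))‖ ≤ (1 / 7) ^ (n + 1) := by
    intro n
    have e : f (-((n : ℤ) + 1)) = (((n : ℝ) + 2 : ℝ) : ℂ) * SZ_a T z (-((n : ℤ) + 1)) := by
      rw [hf]; push_cast; ring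
    rw [e, norm_mul, Complex.norm_real, Real.norm_of_nonneg (by positivity), SZ_norm]
    have h2 : Real.exp (-(Real.pi * T.im * ((-((n : ℤ) + 1) : ℤ) : ℝ) ^ 2) -
        2 * Real.pi * ((-((n : ℤ) + 1) : ℤ) : ℝ) * z.im) ≤ Real.exp (-(8 / 3)) ^ (n + 1) := by
      rw [← Real.exp_nat_mul, Real.exp_le_exp]
      push_cast
      have h3 : 0 ≤ (n : ℝ) := Nat.cast_nonneg n
      have h4 : 0 ≤ Real.pi * ((n : ℝ) + 1) * (-z.im) := by
        have : 0 ≤ -z.im := by linarith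
        positivity
      have h5 : (8 / 3 : ℝ) * ((n : ℝ) + 1) ^ 2 ≤ Real.pi * T.im * ((n : ℝ) + 1) ^ 2 :=
        mul_le_mul_of_nonneg_right h1 (by positivity)
      nlinarith
    have h3 : Real.exp (-(8 / 3)) ^ (n + 1) ≤ (1 / 14) ^ (n + 1) :=
      pow_le_pow_left₀ (Real.exp_pos _).le SZ_e14 _
    calc ((n : ℝ) + 2) * Real.exp (-(Real.pi * T.im * ((-((n : ℤ) + 1) : ℤ) : ℝ) ^ 2) -
        2 * Real.pi * ((-((n : ℤ) + 1) : ℤ) : ℝ) * z.im)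
        ≤ 2 ^ (n + 1) * (1 / 14) ^ (n + 1) :=
          mul_le_mul (SZ_pow2 n) (h2.trans h3) (Real.exp_pos _).le (by positivity)
      _ = (1 / 7) ^ (n + 1) := by rw [← mul_pow]; norm_num
  have hp : ∀ n : ℕ, ‖f ((n : ℤ) + 2)‖ ≤ (1 / 70) ^ (n + 1) := by
    intro n
    have e : f ((n : ℤ) + 2) = (((-((n : ℝ) + 1)) : ℝ) : ℂ) * SZ_a T z ((n : ℤ) + 2) := by
      rw [hf]; push_cast; ring
    rw [e, norm_mul, Complex.norm_real, Real.norm_eq_abs, abs_neg,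
      abs_of_nonneg (by positivity)]
    have h2 : ‖SZ_a T z ((n : ℤ) + 2)‖ ≤ Real.exp (-5) ^ (n + 1) := by
      refine (SZ_decay T z η hT hz hη1 _).trans ?_
      rw [← Real.exp_nat_mul, Real.exp_le_exp]
      push_cast
      have h3 : 0 ≤ (n : ℝ) := Nat.cast_nonneg n
      rw [abs_of_nonneg (by positivity : (0 : ℝ) ≤ (n : ℝ) + 2)]
      nlinarith
    have h3 : Real.exp (-5) ^ (n + 1) ≤ (1 / 140) ^ (n + 1) :=
      pow_le_pow_left₀ (Real.exp_pos _).le SZ_e5 _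
    calc ((n : ℝ) + 1) * ‖SZ_a T z ((n : ℤ) + 2)‖
        ≤ 2 ^ (n + 1) * (1 / 140) ^ (n + 1) := by
          refine mul_le_mul ?_ (h2.trans h3) (norm_nonneg _) (by positivity)
          linarith [SZ_pow2 n]
      _ = (1 / 70) ^ (n + 1) := by rw [← mul_pow]; norm_num
  have g1 : HasSum (fun n : ℕ => ((1 : ℝ) / 7) ^ (n + 1)) (1 / 6) := by
    have := (hasSum_geometric_of_lt_one (r := (1 / 7 : ℝ)) (by norm_num) (by norm_num)).mul_left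
      (1 / 7 : ℝ)
    have e : (fun n : ℕ => ((1 : ℝ) / 7) ^ (n + 1)) = fun n : ℕ => (1 / 7 : ℝ) * (1 / 7) ^ n := by
      funext n; rw [pow_succ]; ring
    have v : (1 / 7 : ℝ) * (1 - 1 / 7)⁻¹ = 1 / 6 := by norm_num
    rw [v] at this
    rw [e]
    exact this
  have g2 : HasSum (fun n : ℕ => ((1 : ℝ) / 70) ^ (n + 1)) (1 / 69) := by
    have := (hasSum_geometric_of_lt_one (r := (1 / 70 : ℝ)) (by norm_num) (by norm_num)).mul_left
      (1 / 70 : ℝ)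
    have e : (fun n : ℕ => ((1 : ℝ) / 70) ^ (n + 1)) =
        fun n : ℕ => (1 / 70 : ℝ) * (1 / 70) ^ n := by
      funext n; rw [pow_succ]; ring
    have v : (1 / 70 : ℝ) * (1 - 1 / 70)⁻¹ = 1 / 69 := by norm_num
    rw [v] at this
    rw [e]
    exact this
  have sn : Summable fun n : ℕ => f (-((n : ℤ) + 1)) := Summable.of_norm_bounded g1.summable hn
  have sp2 : Summable fun n : ℕ => f ((n : ℤ) + 2) := Summable.of_norm_bounded g2.summable hp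
  have sp : Summable fun n : ℕ => f (n : ℤ) := by
    rw [← summable_nat_add_iff 2]
    have e : (fun n : ℕ => f ((n + 2 : ℕ) : ℤ)) = fun n : ℕ => f ((n : ℤ) + 2) := by
      funext n; push_cast; rfl
    rw [e]
    exact sp2
  have b1 : ‖∑' n : ℕ, f (-((n : ℤ) + 1))‖ ≤ 1 / 6 := tsum_of_norm_bounded g1 hn
  have b2 : ‖∑' n : ℕ, f ((n : ℤ) + 2)‖ ≤ 1 / 69 := tsum_of_norm_bounded g2 hp
  have e2 : ∑' n, f n = (f 0 + f 1 + ∑' n : ℕ, f ((n : ℤ) + 2)) +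
      ∑' n : ℕ, f (-((n : ℤ) + 1)) := by
    rw [tsum_of_nat_of_neg_add_one sp sn]
    congr 1
    rw [← sp.sum_add_tsum_nat_add 2]
    simp [Finset.sum_range_succ]
  have f0 : f 0 = 1 := by simp [hf, SZ_a]
  have f1 : f 1 = 0 := by simp [hf]
  rw [f0, f1, add_zero] at e2
  have k1 : ‖(1 : ℂ)‖ ≤ ‖∑' n, f n‖ + ‖∑' n : ℕ, f ((n : ℤ) + 2)‖ +
      ‖∑' n : ℕ, f (-((n : ℤ) + 1))‖ := by
    have : (1 : ℂ) = ∑' n, f n - ∑' n : ℕ, f ((n : ℤ) + 2) - ∑' n : ℕ, f (-((n : ℤ) + 1)) := by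
      rw [e2]; ring
    calc ‖(1 : ℂ)‖ = ‖∑' n, f n - ∑' n : ℕ, f ((n : ℤ) + 2) - ∑' n : ℕ, f (-((n : ℤ) + 1))‖ := by
          rw [← this]
      _ ≤ ‖∑' n, f n - ∑' n : ℕ, f ((n : ℤ) + 2)‖ + ‖∑' n : ℕ, f (-((n : ℤ) + 1))‖ :=
          norm_sub_le _ _
      _ ≤ _ := by
          have := norm_sub_le (∑' n, f n) (∑' n : ℕ, f ((n : ℤ) + 2))
          linarith
  have k2 : ‖∑' n, f n‖ ≤ ‖∑' n : ℤ, SZ_a T z n‖ + ‖∑' n : ℤ, (n : ℂ) * SZ_a T z n‖ := by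
    rw [e1]; exact norm_sub_le _ _
  rw [norm_one] at k1
  linarith

theorem p_SZ : Stmt_SZ := by
  intro T z η hT hz _ hη1
  refine ⟨SZ_six T z η hT hz hη1, ?_⟩
  change 3 / 4 ≤ ‖∑' n : ℤ, SZ_a T z n‖ + ‖∑' n : ℤ, (n : ℂ) * SZ_a T z n‖
  rcases le_or_gt z.im 0 with h | h
  · exact SZ_neg T z η hT hz hη1 h
  · have h1 := SZ_neg T (-z) η hT (by rw [Complex.neg_im, abs_neg]; exact hz) hη1
      (by rw [Complex.neg_im]; linarith)
    have e : ∀ n : ℤ, SZ_a T (-z) n = SZ_a T z (-n) := by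
      intro n
      unfold SZ_a
      congr 1
      push_cast
      ring
    have e1 : ∑' n : ℤ, SZ_a T (-z) n = ∑' n : ℤ, SZ_a T z n := by
      rw [← (Equiv.neg ℤ).tsum_eq]
      exact tsum_congr fun n => by simp [e]
    have e2 : ∑' n : ℤ, (n : ℂ) * SZ_a T (-z) n = -∑' n : ℤ, (n : ℂ) * SZ_a T z n := by
      rw [← (Equiv.neg ℤ).tsum_eq, ← tsum_neg]
      exact tsum_congr fun n => by simp [e]
    rw [e1, e2, norm_neg] at h1
    exact h1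

end Pool.TNP
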