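import Pool.Agent.Work.MP_29fd3c_np.Interface

set_option autoImplicit false

namespace Pool.TNP

open Finset Complex Pool.TH

theorem TE_deg {g : ℕ} {E : Finset (Fin g × Fin g)} {e : Fin g × Fin g} (he : e ∈ E) :
    deg E e.1 ≠ 0 ∧ deg E e.2 ≠ 0 := by
  constructor
  · unfold deg
    rw [Finset.card_ne_zero]
    exact ⟨e, mem_filter.2 ⟨he, Or.inl rfl⟩⟩
  · unfold deg
    rw [Finset.card_ne_zero]
    exact ⟨e, mem_filter.2 ⟨he, Or.inr rfl⟩⟩

theorem TE_ex {g : ℕ} {E : Finset (Fin g × Fin g)} (t : Fin g → Fin g → ℂ) {n n' : Fin g → ℤ}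
    (h : ∀ i ∈ univ.filter (fun i => deg E i ≠ 0), n i = n' i) : ∀ e ∈ E, ex t n e = ex t n' e := by
  intro e he
  obtain ⟨h1, h2⟩ := TE_deg he
  unfold ex
  rw [h e.1 (mem_filter.2 ⟨mem_univ _, h1⟩), h e.2 (mem_filter.2 ⟨mem_univ _, h2⟩)]

theorem TE_card {g : ℕ} {E : Finset (Fin g × Fin g)} : E.card ≤ g ^ 2 := by
  have := card_le_univ E
  rw [Fintype.card_prod, Fintype.card_fin] at this
  rw [pow_two]
  exact this

theorem TE_compl {g : ℕ} (E : Finset (Fin g × Fin g)) :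
    (univ.filter (fun i => deg E i ≠ 0))ᶜ = univ.filter (fun i : Fin g => deg E i = 0) := by
  ext i
  simp

theorem TE_const (g c : ℕ) (hc : c ≤ g ^ 2) :
    (2 * Real.pi) ^ c ≤ (2 * Real.pi) ^ (g ^ 2 + 1) * ((g : ℝ) ^ 2 + 1) ∧
    (2 * Real.pi) ^ (c + 1) * (g : ℝ) ^ 2 ≤ (2 * Real.pi) ^ (g ^ 2 + 1) * ((g : ℝ) ^ 2 + 1) := by
  have h1 : (1 : ℝ) ≤ 2 * Real.pi := by
    have := Real.pi_gt_three
    linarith
  have h2 : (2 * Real.pi) ^ c ≤ (2 * Real.pi) ^ (g ^ 2 + 1) := pow_le_pow_right₀ h1 (by omega)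
  have h3 : (2 * Real.pi) ^ (c + 1) ≤ (2 * Real.pi) ^ (g ^ 2 + 1) := pow_le_pow_right₀ h1 (by omega)
  have h4 : (0 : ℝ) ≤ (g : ℝ) ^ 2 := by positivity
  have h5 : (0 : ℝ) < (2 * Real.pi) ^ (g ^ 2 + 1) := by
    have := Real.pi_pos
    positivity
  constructor
  · nlinarith [mul_nonneg h5.le h4]
  · have := mul_le_mul_of_nonneg_right h3 h4
    nlinarith

theorem p_TE (hFB : Stmt_FB) (hPB : Stmt_PB) (hTX : Stmt_TX) : Stmt_TE := by
  intro g
  obtain ⟨C1, hC1, hFB1⟩ := hFB g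
  have hpi := Real.pi_pos
  refine ⟨C1 * ((2 * Real.pi) ^ (g ^ 2 + 1) * ((g : ℝ) ^ 2 + 1)), by positivity, ?_⟩
  intro w hw ε l t hS E hE
  obtain ⟨k1, k2⟩ := TE_const g E.card TE_card
  have hLL : 0 ≤ ∏ e ∈ E, l e.1 * l e.2 :=
    prod_nonneg fun e _ => mul_nonneg (hS.lpos _).le (hS.lpos _).le
  have hM : 0 ≤ ∏ i ∈ univ.filter (fun i => deg E i = 0), ‖∑' n, w i n‖ :=
    prod_nonneg fun i _ => norm_nonneg _
  have hε := hS.pos
  set LL : ℝ := ∏ e ∈ E, l e.1 * l e.2 with hLLd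
  set MM : ℝ := ∏ i ∈ univ.filter (fun i => deg E i = 0), ‖∑' n, w i n‖ with hMMd
  -- first application
  obtain ⟨s1, b1⟩ := hFB1 w hw (univ.filter (fun i => deg E i ≠ 0))
    (fun n => ∏ e ∈ E, (Complex.exp (ex t n e) - 1)) ((2 * Real.pi) ^ E.card * LL) (by positivity)
    (by
      intro n n' h
      refine prod_congr rfl fun e he => ?_
      rw [TE_ex t h e he])
    (fun n => (hPB g ε l t hS E hE n).1)
  obtain ⟨s2, b2⟩ := hFB1 w hw (univ.filter (fun i => deg E i ≠ 0))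
    (fun n => ∏ e ∈ E, (Complex.exp (ex t n e) - 1) - ∏ e ∈ E, ex t n e)
    ((2 * Real.pi) ^ (E.card + 1) * g ^ 2 * ε * LL) (by positivity)
    (by
      intro n n' h
      show ∏ e ∈ E, (Complex.exp (ex t n e) - 1) - ∏ e ∈ E, ex t n e =
        ∏ e ∈ E, (Complex.exp (ex t n' e) - 1) - ∏ e ∈ E, ex t n' e
      congr 1
      · refine prod_congr rfl fun e he => ?_
        rw [TE_ex t h e he]
      · refine prod_congr rfl fun e he => ?_
        rw [TE_ex t h e he])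
    (fun n => (hPB g ε l t hS E hE n).2)
  obtain ⟨s3, e3⟩ := hTX g w hw t E hE
  rw [TE_compl] at b1 b2
  refine ⟨s1, ?_, ?_⟩
  · refine b1.trans ?_
    rw [← hMMd]
    apply mul_le_mul_of_nonneg_right _ hM
    rw [← mul_assoc]
    exact mul_le_mul_of_nonneg_right (mul_le_mul_of_nonneg_left k1 hC1.le) hLL
  · have hsub : ∑' n : Fin g → ℤ, (∏ i, w i (n i)) * ∏ e ∈ E, (Complex.exp (ex t n e) - 1) -
        (∏ e ∈ E, 2 * Real.pi * Complex.I * t e.1 e.2) *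
          ∏ i, ∑' n : ℤ, w i n * (n : ℂ) ^ deg E i =
        ∑' n : Fin g → ℤ, (∏ i, w i (n i)) *
          (∏ e ∈ E, (Complex.exp (ex t n e) - 1) - ∏ e ∈ E, ex t n e) := by
      rw [← e3, ← Summable.tsum_sub s1.of_norm s3.of_norm]
      refine tsum_congr fun n => ?_
      ring
    rw [hsub]
    refine b2.trans ?_
    rw [← hMMd]
    apply mul_le_mul_of_nonneg_right _ hM
    calc C1 * ((2 * Real.pi) ^ (E.card + 1) * g ^ 2 * ε * LL)
        = C1 * ((2 * Real.pi) ^ (E.card + 1) * g ^ 2) * ε * LL := by ring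
      _ ≤ C1 * ((2 * Real.pi) ^ (g ^ 2 + 1) * ((g : ℝ) ^ 2 + 1)) * ε * LL := by
          apply mul_le_mul_of_nonneg_right _ hLL
          exact mul_le_mul_of_nonneg_right (mul_le_mul_of_nonneg_left k2 hC1.le) hε.le

end Pool.TNP
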