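import Pool.Agent.Work.MP_29fd3c_np.Interface

set_option autoImplicit false

namespace Pool.TNP

open Finset Complex Pool.TH

theorem TWO_one (hREC : Stmt_REC) (hCON : Stmt_CON) {g : ℕ} (s : Fin g → ℂ)
    (β : Fin g → Fin g → ℂ) (hβ : ∀ i j, β i j = β j i) (a : Fin g) : F {a} s β = s a := by
  have h := hREC g s β hβ ∅ a (notMem_empty _)
  rw [insert_empty_eq] at h
  rw [h, sum_empty, add_zero, (hCON g).1, mul_one]

theorem TWO_two (hREC : Stmt_REC) (hCON : Stmt_CON) {g : ℕ} (s : Fin g → ℂ)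
    (β : Fin g → Fin g → ℂ) (hβ : ∀ i j, β i j = β j i) {a b : Fin g} (hab : a ≠ b) :
    F {a, b} s β = s a * s b + β a b := by
  have h := hREC g s β hβ {b} a (by simpa using hab)
  rw [h, TWO_one hREC hCON s β hβ, sum_singleton, erase_singleton, (hCON g).1, mul_one]

theorem TWO_three (hREC : Stmt_REC) (hCON : Stmt_CON) {g : ℕ} (s : Fin g → ℂ)
    (β : Fin g → Fin g → ℂ) (hβ : ∀ i j, β i j = β j i) {a b c : Fin g} (hab : a ≠ b)
    (hac : a ≠ c) (hbc : b ≠ c) :
    F {a, b, c} s β = s a * F {b, c} s β + (β a b * s c + β a c * s b) := by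
  have h := hREC g s β hβ {b, c} a (by simp [hab, hac])
  have h1 : ({b, c} : Finset (Fin g)).erase b = {c} := by
    rw [erase_insert (by simpa using hbc)]
  have h2 : ({b, c} : Finset (Fin g)).erase c = {b} := by
    rw [pair_comm, erase_insert (by simpa using hbc.symm)]
  rw [h, sum_pair hbc, h1, h2, TWO_one hREC hCON s β hβ, TWO_one hREC hCON s β hβ]

theorem p_TWO (hREC : Stmt_REC) (hCON : Stmt_CON) : Stmt_TWO := by
  intro g s β hβ a b c d hab hac had hbc hbd hcd h1 h2
  by_contra hcon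
  push Not at hcon
  have hpair : ∀ x y, x ≠ y → x ∈ ({a, b, c, d} : Finset (Fin g)) →
      y ∈ ({a, b, c, d} : Finset (Fin g)) → β x y = -(s x * s y) := by
    intro x y hxy hx hy
    have h3 := hcon {x, y} (insert_subset hx (singleton_subset_iff.2 hy)) (by
      rw [card_pair hxy])
    rw [TWO_two hREC hCON s β hβ hxy] at h3
    linear_combination h3
  have ma : a ∈ ({a, b, c, d} : Finset (Fin g)) := by simp
  have mb : b ∈ ({a, b, c, d} : Finset (Fin g)) := by simp
  have mc : c ∈ ({a, b, c, d} : Finset (Fin g)) := by simp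
  have md : d ∈ ({a, b, c, d} : Finset (Fin g)) := by simp
  have e1 := hpair a b hab ma mb
  have e2 := hpair c d hcd mc md
  have e3 := hpair a c hac ma mc
  have h3 := hcon {a, b, c} (insert_subset ma (insert_subset mb (singleton_subset_iff.2 mc))) (by
    rw [card_insert_of_notMem (by simp [hab, hac]), card_pair hbc]
    norm_num)
  have h4 := hcon {b, c} (insert_subset mb (singleton_subset_iff.2 mc)) (by rw [card_pair hbc])
  rw [TWO_three hREC hCON s β hβ hab hac hbc, h4, e1, e3] at h3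
  have hs : s a ≠ 0 ∧ s b ≠ 0 := by
    rw [e1] at h1
    exact mul_ne_zero_iff.1 (neg_ne_zero.1 h1)
  have hs' : s c ≠ 0 ∧ s d ≠ 0 := by
    rw [e2] at h2
    exact mul_ne_zero_iff.1 (neg_ne_zero.1 h2)
  have h5 : 2 * (s a * s b * s c) = 0 := by linear_combination -h3
  exact (mul_ne_zero two_ne_zero (mul_ne_zero (mul_ne_zero hs.1 hs.2) hs'.1)) h5

end Pool.TNP
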