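import Pool.Agent.Work.MP_29fd3c_np.Interface

set_option autoImplicit false

namespace Pool.TNP

open Finset Complex Pool.TH

theorem TX_prod {g : ℕ} (x : Fin g → ℂ) (E : Finset (Fin g × Fin g)) (hE : E ⊆ P g) :
    ∏ e ∈ E, (x e.1 * x e.2) = ∏ i, x i ^ deg E i := by
  classical
  have h1 : ∀ i, x i ^ deg E i = ∏ e ∈ E, if e.1 = i ∨ e.2 = i then x i else 1 := by
    intro i
    rw [deg, ← Finset.prod_filter, Finset.prod_const]
  simp_rw [h1]
  rw [Finset.prod_comm]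
  refine Finset.prod_congr rfl fun e he => ?_
  have hne : e.1 ≠ e.2 := (mem_filter.1 (hE he)).2.ne
  rw [← Finset.prod_filter]
  have h2 : (univ.filter fun i : Fin g => e.1 = i ∨ e.2 = i) = {e.1, e.2} := by
    ext i
    simp [eq_comm]
  rw [h2, Finset.prod_pair hne]

theorem TX_summable {w : ℤ → ℂ} (hw : Dec w) (d : ℕ) :
    Summable fun n : ℤ => ‖w n * (n : ℂ) ^ d‖ := by
  have hs : ∀ k : ℕ, Summable fun n : ℤ => (|n| ^ k : ℝ) * Real.exp (-(n : ℝ) ^ 2) := by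
    intro k
    have := summable_pow_mul_jacobiTheta₂_term_bound 0 (T := 1 / Real.pi)
      (by positivity) k
    refine this.congr fun n => ?_
    congr 2
    have := Real.pi_pos.ne'
    field_simp
    ring
  refine Summable.of_nonneg_of_le (fun n => norm_nonneg _) (fun n => ?_)
    (((hs d).add (hs (d + 1))).mul_left 6)
  rw [norm_mul, norm_pow]
  have h1 := hw n
  have h2 : ‖(n : ℂ)‖ = |(n : ℝ)| := by
    rw [Complex.norm_intCast]
  rw [h2]
  have h3 : 0 ≤ |(n : ℝ)| ^ d := by positivity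
  calc ‖w n‖ * |(n : ℝ)| ^ d ≤ 6 * (1 + |(n : ℝ)|) * Real.exp (-(n : ℝ) ^ 2) * |(n : ℝ)| ^ d :=
        mul_le_mul_of_nonneg_right h1 h3
    _ = _ := by
      push_cast
      ring

theorem p_TX (hSUM : Stmt_SUM) : Stmt_TX := by
  intro g w hw t E hE
  obtain ⟨h1, h2⟩ := hSUM (Fin g) (fun i n => w i n * (n : ℂ) ^ deg E i)
    (fun i => TX_summable (hw i) _)
  have key : ∀ n : Fin g → ℤ, (∏ i, w i (n i)) * ∏ e ∈ E, ex t n e =
      (∏ e ∈ E, 2 * Real.pi * Complex.I * t e.1 e.2) *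
        ∏ i, (w i (n i) * ((n i : ℤ) : ℂ) ^ deg E i) := by
    intro n
    have h4 : ∏ i, (w i (n i) * ((n i : ℤ) : ℂ) ^ deg E i) =
        (∏ i, w i (n i)) * ∏ i, ((n i : ℤ) : ℂ) ^ deg E i := Finset.prod_mul_distrib
    rw [h4, ← TX_prod (fun i => ((n i : ℤ) : ℂ)) E hE]
    have h3 : ∏ e ∈ E, ex t n e = (∏ e ∈ E, 2 * Real.pi * Complex.I * t e.1 e.2) *
        ∏ e ∈ E, (((n e.1 : ℤ) : ℂ) * ((n e.2 : ℤ) : ℂ)) := by
      rw [← Finset.prod_mul_distrib]
      refine Finset.prod_congr rfl fun e _ => ?_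
      unfold ex
      ring
    rw [h3]
    ring
  constructor
  · simp_rw [key, norm_mul]
    refine Summable.mul_left _ ?_
    refine h1.congr fun n => ?_
    rfl
  · simp_rw [key]
    rw [tsum_mul_left, h2]

end Pool.TNP
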