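import Pool.Agent.Work.MP_29fd3c_np.Interface

set_option autoImplicit false

namespace Pool.TNP

open Finset Complex Pool.TH

/-- the weights -/
noncomputable def UP_c (k i : ℕ) : ℂ := (-1) ^ (k - i) / ((k + 1) * (k.choose i : ℂ))

theorem UP_c_top (k : ℕ) : ((k : ℂ) + 1) * UP_c k k = 1 := by
  unfold UP_c
  have : (k : ℂ) + 1 ≠ 0 := by exact_mod_cast Nat.succ_ne_zero k
  simp
  field_simp

theorem UP_c_rec (k i : ℕ) (h : i < k) :
    ((i : ℂ) + 1) * UP_c k i + ((k - i : ℕ) : ℂ) * UP_c k (i + 1) = 0 := by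
  unfold UP_c
  have h1 : (k : ℂ) + 1 ≠ 0 := by exact_mod_cast Nat.succ_ne_zero k
  have h2 : (k.choose i : ℂ) ≠ 0 := by exact_mod_cast (Nat.choose_pos h.le).ne'
  have h3 : (k.choose (i + 1) : ℂ) ≠ 0 := by exact_mod_cast (Nat.choose_pos h).ne'
  have h4 : (k.choose (i + 1) : ℂ) * ((i : ℂ) + 1) = (k.choose i : ℂ) * ((k - i : ℕ) : ℂ) := by
    exact_mod_cast Nat.choose_succ_right_eq k i
  have h5 : k - i = (k - (i + 1)) + 1 := by omega
  have h6 : ((-1 : ℂ)) ^ (k - i) = - (-1) ^ (k - (i + 1)) := by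
    rw [h5, pow_succ]; ring
  rw [h6]
  field_simp
  linear_combination (-(-1 : ℂ) ^ (k - (i + 1))) * h4

theorem UP_swap {g : ℕ} (M : Finset (Fin g)) (k : ℕ) (G : Finset (Fin g) → Fin g → ℂ) :
    ∑ T ∈ powersetCard (k + 1) M, ∑ j ∈ T, G (T.erase j) j =
      ∑ S' ∈ powersetCard k M, ∑ j ∈ M \ S', G S' j := by
  rw [Finset.sum_sigma', Finset.sum_sigma']
  refine Finset.sum_bij' (fun x _ => ⟨x.1.erase x.2, x.2⟩) (fun x _ => ⟨insert x.2 x.1, x.2⟩)
    ?_ ?_ ?_ ?_ ?_
  · rintro ⟨T, j⟩ h
    simp only [mem_sigma, mem_powersetCard, mem_sdiff] at h ⊢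
    obtain ⟨⟨h1, h2⟩, h3⟩ := h
    refine ⟨⟨(erase_subset _ _).trans h1, ?_⟩, h1 h3, by simp⟩
    rw [card_erase_of_mem h3, h2]; rfl
  · rintro ⟨S, j⟩ h
    simp only [mem_sigma, mem_powersetCard, mem_sdiff] at h ⊢
    obtain ⟨⟨h1, h2⟩, h3, h4⟩ := h
    refine ⟨⟨insert_subset h3 h1, ?_⟩, by simp⟩
    rw [card_insert_of_notMem h4, h2]
  · rintro ⟨T, j⟩ h
    simp only [mem_sigma, mem_powersetCard] at h
    simp [insert_erase h.2]
  · rintro ⟨S, j⟩ h
    simp only [mem_sigma, mem_powersetCard, mem_sdiff] at h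
    simp [erase_insert h.2.2]
  · rintro ⟨T, j⟩ h
    rfl

theorem p_UP : Stmt_UP := by
  intro g N k f hf hk S hSN hS
  -- a disjoint set with `k + 1` elements
  have hc : k + 1 ≤ (N \ S).card := by
    rw [card_sdiff_of_subset hSN]; omega
  obtain ⟨D, hDN, hD⟩ := exists_subset_card_eq hc
  have hdis : Disjoint S D := by
    rw [Finset.disjoint_left]
    intro x hx hx'
    exact (mem_sdiff.1 (hDN hx')).2 hx
  set M := S ∪ D with hM
  have hMN : M ⊆ N := union_subset hSN (hDN.trans sdiff_subset)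
  have e0 : ∑ T ∈ powersetCard (k + 1) M, ∑ j ∈ T,
      UP_c k (T ∩ S).card * f (T.erase j) = 0 := by
    refine Finset.sum_eq_zero ?_
    intro T hT
    rw [mem_powersetCard] at hT
    rw [← Finset.mul_sum, hf T (hT.1.trans hMN) hT.2, mul_zero]
  have e1 : ∑ T ∈ powersetCard (k + 1) M, ∑ j ∈ T,
      UP_c k (T ∩ S).card * f (T.erase j) =
      ∑ T ∈ powersetCard (k + 1) M, ∑ j ∈ T,
        (fun (S' : Finset (Fin g)) (j : Fin g) =>
          UP_c k (insert j S' ∩ S).card * f S') (T.erase j) j := by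
    refine Finset.sum_congr rfl fun T _ => Finset.sum_congr rfl fun j hj => ?_
    simp only [insert_erase hj]
  rw [e1, UP_swap M k (fun (S' : Finset (Fin g)) (j : Fin g) =>
          UP_c k (insert j S' ∩ S).card * f S')] at e0
  have e2 : ∀ S' ∈ powersetCard k M, ∑ j ∈ M \ S', UP_c k (insert j S' ∩ S).card * f S' =
      if S' = S then f S else 0 := by
    intro S' hS'
    rw [mem_powersetCard] at hS'
    obtain ⟨h1, h2⟩ := hS'
    set i := (S' ∩ S).card with hi
    have hik : i ≤ k := by
      rw [hi, ← h2]; exact card_le_card inter_subset_left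
    have split : M \ S' = (S \ S') ∪ (D \ S') := by
      rw [hM, union_sdiff_distrib]
    have dis2 : Disjoint (S \ S') (D \ S') :=
      Finset.disjoint_of_subset_left sdiff_subset (Finset.disjoint_of_subset_right sdiff_subset hdis)
    have c1 : (S \ S').card = k - i := by
      rw [card_sdiff, hS, hi]
    have c2 : (S' ∩ D).card = k - i := by
      have : S' = (S' ∩ S) ∪ (S' ∩ D) := by
        rw [← inter_union_distrib_left]
        exact (inter_eq_left.2 h1).symm
      have hd : Disjoint (S' ∩ S) (S' ∩ D) :=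
        Finset.disjoint_of_subset_left inter_subset_right
          (Finset.disjoint_of_subset_right inter_subset_right hdis)
      have := congrArg Finset.card this
      rw [card_union_of_disjoint hd, h2] at this
      omega
    have c3 : (D \ S').card = i + 1 := by
      rw [card_sdiff, hD, c2]; omega
    rw [split, sum_union dis2]
    have s1 : ∑ j ∈ S \ S', UP_c k (insert j S' ∩ S).card * f S' =
        ((k - i : ℕ) : ℂ) * (UP_c k (i + 1) * f S') := by
      rw [← c1, ← nsmul_eq_mul, ← Finset.sum_const]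
      refine Finset.sum_congr rfl fun j hj => ?_
      rw [mem_sdiff] at hj
      rw [insert_inter_of_mem hj.1, card_insert_of_notMem (fun h => hj.2 (mem_inter.1 h).1)]
    have s2 : ∑ j ∈ D \ S', UP_c k (insert j S' ∩ S).card * f S' =
        ((i : ℂ) + 1) * (UP_c k i * f S') := by
      have : ((i : ℂ) + 1) = ((i + 1 : ℕ) : ℂ) := by push_cast; ring
      rw [this, ← c3, ← nsmul_eq_mul, ← Finset.sum_const]
      refine Finset.sum_congr rfl fun j hj => ?_
      rw [mem_sdiff] at hj
      rw [insert_inter_of_notMem (fun h => (Finset.disjoint_left.1 hdis) h hj.1)]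
    rw [s1, s2]
    by_cases hSS : S' = S
    · have hii : i = k := by
        rw [hi, hSS, inter_self, hS]
      rw [if_pos hSS, hSS, hii]
      have := UP_c_top k
      simp only [Nat.sub_self, Nat.cast_zero, zero_mul, zero_add]
      linear_combination f S * this
    · rw [if_neg hSS]
      have hlt : i < k := by
        rcases lt_or_eq_of_le hik with h | h
        · exact h
        · exfalso
          apply hSS
          have : S' ∩ S = S' := eq_of_subset_of_card_le inter_subset_left (by rw [h2, ← hi, h])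
          have h3 : S' ⊆ S := inter_eq_left.1 this
          exact eq_of_subset_of_card_le h3 (by rw [hS, h2])
      linear_combination f S' * UP_c_rec k i hlt
  rw [Finset.sum_congr rfl e2, Finset.sum_ite_eq'] at e0
  have : S ∈ powersetCard k M := mem_powersetCard.2 ⟨subset_union_left, hS⟩
  rw [if_pos this] at e0
  exact e0

end Pool.TNP
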