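import Pool.Agent.Work.MP_29fd3c_np.Interface

set_option autoImplicit false

namespace Pool.TNP

open Finset Complex Pool.TH

theorem WT_sum {g : ℕ} (f : Fin g → Fin g → ℂ) (hf : ∀ i j, f i j = f j i) :
    ∑ i, ∑ j, f i j = ∑ i, f i i + 2 * ∑ e ∈ P g, f e.1 e.2 := by
  have h1 : ∑ i, ∑ j, f i j = ∑ e : Fin g × Fin g, f e.1 e.2 := by
    rw [Fintype.sum_prod_type]
  have h2 : ∑ e : Fin g × Fin g, f e.1 e.2 = ∑ e ∈ univ.filter (fun e : Fin g × Fin g =>
      e.1 < e.2), f e.1 e.2 + (∑ e ∈ univ.filter (fun e : Fin g × Fin g => e.2 < e.1), f e.1 e.2 +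
      ∑ e ∈ univ.filter (fun e : Fin g × Fin g => e.1 = e.2), f e.1 e.2) := by
    rw [← sum_filter_add_sum_filter_not univ (fun e : Fin g × Fin g => e.1 < e.2)]
    congr 1
    rw [← sum_filter_add_sum_filter_not (univ.filter fun e : Fin g × Fin g => ¬ e.1 < e.2)
      (fun e : Fin g × Fin g => e.2 < e.1), filter_filter, filter_filter]
    congr 1
    · refine sum_congr ?_ fun _ _ => rfl
      ext e
      simp only [mem_filter, mem_univ, true_and]
      exact ⟨fun h => h.2, fun h => ⟨not_lt.2 h.le, h⟩⟩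
    · refine sum_congr ?_ fun _ _ => rfl
      ext e
      simp only [mem_filter, mem_univ, true_and]
      exact ⟨fun h => le_antisymm (not_lt.1 h.2) (not_lt.1 h.1), fun h => ⟨h.not_lt, h.not_gt⟩⟩
  have h3 : ∑ e ∈ univ.filter (fun e : Fin g × Fin g => e.2 < e.1), f e.1 e.2 =
      ∑ e ∈ P g, f e.1 e.2 := by
    refine sum_nbij' (fun e => (e.2, e.1)) (fun e => (e.2, e.1)) ?_ ?_ ?_ ?_ ?_
    · intro e he
      exact mem_filter.2 ⟨mem_univ _, (mem_filter.1 he).2⟩
    · intro e he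
      exact mem_filter.2 ⟨mem_univ _, (mem_filter.1 he).2⟩
    · intro e _
      rfl
    · intro e _
      rfl
    · intro e _
      exact hf _ _
  have h4 : ∑ e ∈ univ.filter (fun e : Fin g × Fin g => e.1 = e.2), f e.1 e.2 = ∑ i, f i i := by
    refine sum_nbij' (fun e => e.1) (fun i => (i, i)) ?_ ?_ ?_ ?_ ?_
    · intro e _
      exact mem_univ _
    · intro i _
      exact mem_filter.2 ⟨mem_univ _, rfl⟩
    · intro e he
      exact Prod.ext rfl (mem_filter.1 he).2
    · intro i _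
      rfl
    · intro e he
      rw [(mem_filter.1 he).2]
  rw [h1, h2, h3, h4]
  unfold P
  ring

theorem p_WT : Stmt_WT := by
  intro g τ hτ z n
  have hsym : ∀ i j, τ i j = τ j i := fun i j => by
    conv_lhs => rw [← hτ]
    rfl
  rw [term, quad_eq, WT_sum (fun i j => (n i : ℂ) * (n j : ℂ) * τ i j) (fun i j => by
    rw [hsym i j]
    ring)]
  unfold wt
  rw [← Complex.exp_sum, ← Complex.exp_add]
  congr 1
  simp only [dotProduct, ex, sum_add_distrib, mul_add, mul_sum]
  have h1 : ∀ i : Fin g, Real.pi * Complex.I * ((n i : ℂ) * (n i : ℂ) * τ i i) =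
      Real.pi * Complex.I * τ i i * (n i : ℂ) ^ 2 := fun i => by ring
  have h2 : ∀ i : Fin g, 2 * Real.pi * Complex.I * ((n i : ℂ) * z i) =
      2 * Real.pi * Complex.I * (n i : ℂ) * z i := fun i => by ring
  have h3 : ∀ e : Fin g × Fin g,
      Real.pi * Complex.I * (2 * ((n e.1 : ℂ) * (n e.2 : ℂ) * τ e.1 e.2)) =
      2 * Real.pi * Complex.I * τ e.1 e.2 * (n e.1 : ℂ) * (n e.2 : ℂ) := fun e => by ring
  simp only [h1, h2, h3]
  ring

end Pool.TNP
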