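import Pool.Agent.Work.MP_29fd3c_np.Fin
import Pool.Agent.Work.MP_29fd3c_np.B_ALGA
import Pool.Agent.Work.MP_29fd3c_np.B_ALGB
import Pool.Agent.Work.MP_29fd3c_np.B_ANA
import Pool.Agent.Work.MP_29fd3c_np.B_CON
import Pool.Agent.Work.MP_29fd3c_np.B_CPT
import Pool.Agent.Work.MP_29fd3c_np.B_DCP
import Pool.Agent.Work.MP_29fd3c_np.B_FB
import Pool.Agent.Work.MP_29fd3c_np.B_HAF
import Pool.Agent.Work.MP_29fd3c_np.B_MAIN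
import Pool.Agent.Work.MP_29fd3c_np.B_MOM
import Pool.Agent.Work.MP_29fd3c_np.B_PB
import Pool.Agent.Work.MP_29fd3c_np.B_PR
import Pool.Agent.Work.MP_29fd3c_np.B_REC
import Pool.Agent.Work.MP_29fd3c_np.B_RED
import Pool.Agent.Work.MP_29fd3c_np.B_SCL
import Pool.Agent.Work.MP_29fd3c_np.B_SUM
import Pool.Agent.Work.MP_29fd3c_np.B_SZ
import Pool.Agent.Work.MP_29fd3c_np.B_TE
import Pool.Agent.Work.MP_29fd3c_np.B_THR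
import Pool.Agent.Work.MP_29fd3c_np.B_TWO
import Pool.Agent.Work.MP_29fd3c_np.B_TX
import Pool.Agent.Work.MP_29fd3c_np.B_UP
import Pool.Agent.Work.MP_29fd3c_np.B_WT

set_option autoImplicit false

namespace Pool.TNP

open Finset Complex Pool.TH

theorem f_DCP : Stmt_DCP := p_DCP p_REC
theorem f_ALGA : Stmt_ALGA := p_ALGA p_REC p_CON p_UP
theorem f_TWO : Stmt_TWO := p_TWO p_REC p_CON
theorem f_THR : Stmt_THR := p_THR p_REC p_CON f_TWO p_HAF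
theorem f_ALGB : Stmt_ALGB := p_ALGB p_REC p_CON f_TWO f_THR
theorem f_CPT : Stmt_CPT := p_CPT p_CON f_DCP
theorem f_FB : Stmt_FB := p_FB p_SUM
theorem f_TX : Stmt_TX := p_TX p_SUM
theorem f_TE : Stmt_TE := p_TE f_FB p_PB f_TX
theorem f_ANA : Stmt_ANA := p_ANA f_TE p_MOM p_PR
theorem f_MAIN : Stmt_MAIN := p_MAIN f_CPT f_ANA p_MOM p_SCL p_WT p_SZ p_RED

/-- the final theorem -/
theorem final (g : ℕ) (κ : ℝ) (hκ : 0 < κ) : ∃ ε : ℝ, 0 < ε ∧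
    ∀ τ : Matrix (Fin g) (Fin g) ℂ, τ.transpose = τ → (τ.map Complex.im).PosDef →
    (∀ i, Real.sqrt 3 / 2 ≤ (τ i i).im) →
    ∀ l : Fin g → ℝ, (∀ i, 0 < l i ∧ l i ≤ ε) → (∀ i j, i ≠ j → ‖τ i j‖ ≤ l i * l j) →
    ∀ z : Fin g → ℂ,
      (∀ r : ℕ, (∀ i, Set.ncard {j | j ≠ i ∧ ‖τ i j‖ < κ * l i * l j} ≤ r) →
        ∃ m : ℕ, 2 * m ≤ g + 1 + r ∧ iteratedFDeriv ℂ m (theta τ) z ≠ 0) ∧
      (∀ i : Fin 6 → Fin g, Function.Injective i →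
        κ * l (i 0) * l (i 1) ≤ ‖τ (i 0) (i 1)‖ → κ * l (i 2) * l (i 3) ≤ ‖τ (i 2) (i 3)‖ →
        κ * l (i 4) * l (i 5) ≤ ‖τ (i 4) (i 5)‖ →
        ∃ m : ℕ, m + 3 ≤ g ∧ iteratedFDeriv ℂ m (theta τ) z ≠ 0) :=
  fin_assembly p_CON f_ALGA f_ALGB f_MAIN g κ hκ

end Pool.TNP
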