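import Pool.Agent.Work.MP_29fd3c_np.Interface

set_option autoImplicit false

namespace Pool.TNP

open Finset Complex Pool.TH

theorem F_congr {g : ℕ} (A : Finset (Fin g)) (s : Fin g → ℂ) {β β' : Fin g → Fin g → ℂ}
    (h : ∀ i j, i < j → β i j = β' i j) : F A s β = F A s β' := by
  unfold F
  refine sum_congr rfl fun E hE => ?_
  have hE' : E ⊆ P g := mem_powerset.1 (mem_filter.1 hE).1
  rw [prod_congr rfl fun e he => h _ _ (mem_filter.1 (hE' he)).2]

theorem MAIN_eps (g : ℕ) {C c : ℝ} (hC : 0 < C) (hc : 0 < c) :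
    ∃ ε : ℝ, 0 < ε ∧ ε ≤ 1 / 4 ∧ Real.pi * g * ε ^ 2 ≤ 1 / 20 ∧ C * ε < c := by
  have hπ := Real.pi_pos
  have hg : (0 : ℝ) ≤ g := Nat.cast_nonneg _
  have h1 : 0 < 1 / (20 * Real.pi * (g + 1)) := by positivity
  have h2 : 0 < c / (2 * C) := by positivity
  refine ⟨min (1 / 4) (min (1 / (20 * Real.pi * (g + 1))) (c / (2 * C))),
    lt_min (by norm_num) (lt_min h1 h2), min_le_left _ _, ?_, ?_⟩
  · obtain ⟨e, he⟩ : ∃ e, e = min (1 / 4 : ℝ) (min (1 / (20 * Real.pi * (g + 1))) (c / (2 * C))) :=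
      ⟨_, rfl⟩
    rw [← he]
    have e1 : e ≤ 1 / 4 := he.trans_le (min_le_left _ _)
    have e2 : e ≤ 1 / (20 * Real.pi * (g + 1)) :=
      he.trans_le ((min_le_right _ _).trans (min_le_left _ _))
    have e0 : 0 ≤ e := by
      rw [he]
      exact (lt_min (by norm_num) (lt_min h1 h2)).le
    have e3 : e ^ 2 ≤ e := by nlinarith
    have e4 : Real.pi * (g + 1) * e ≤ 1 / 20 := by
      rw [le_div_iff₀ (by positivity)] at e2
      linarith
    have e5 : Real.pi * g * e ^ 2 ≤ Real.pi * (g + 1) * e := by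
      have : 0 ≤ Real.pi * e := by positivity
      have h3 : Real.pi * g * e ^ 2 ≤ Real.pi * g * e :=
        mul_le_mul_of_nonneg_left e3 (by positivity)
      nlinarith
    linarith
  · have e3 : min (1 / 4 : ℝ) (min (1 / (20 * Real.pi * (g + 1))) (c / (2 * C))) ≤ c / (2 * C) :=
      (min_le_right _ _).trans (min_le_right _ _)
    calc C * min (1 / 4 : ℝ) (min (1 / (20 * Real.pi * (g + 1))) (c / (2 * C)))
        ≤ C * (c / (2 * C)) := mul_le_mul_of_nonneg_left e3 hC.le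
      _ = c / 2 := by field_simp
      _ < c := by linarith

theorem p_MAIN (hCPT : Stmt_CPT) (hANA : Stmt_ANA) (hMOM : Stmt_MOM) (hSCL : Stmt_SCL)
    (hWT : Stmt_WT) (hSZ : Stmt_SZ) (hRED : Stmt_RED) : Stmt_MAIN := by
  intro g κ G m hκ hG
  obtain ⟨B, hB1, hB⟩ := hMOM
  obtain ⟨c, hc, hcp⟩ := hCPT g κ B G m hκ hG
  obtain ⟨C, hC, hA⟩ := hANA g
  obtain ⟨ε, hε0, hε4, hεg, hεc⟩ := MAIN_eps g hC hc
  refine ⟨ε, hε0, ?_⟩
  intro τ hτ hpos hdiag l hl hoff hlow z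
  by_contra hcon
  push Not at hcon
  have hg0 : (0 : ℝ) ≤ g := Nat.cast_nonneg _
  have hπ := Real.pi_pos
  have hoffε : ∀ i j, i ≠ j → ‖τ i j‖ ≤ ε ^ 2 := fun i j hij => by
    refine (hoff i j hij).trans ?_
    rw [sq]
    exact mul_le_mul (hl i).2 (hl j).2 (hl j).1.le hε0.le
  have hsym : ∀ i j, τ i j = τ j i := fun i j => by
    conv_lhs => rw [← hτ]
    rfl
  obtain ⟨z', hz', hN⟩ := hRED g τ ε hτ hpos hdiag hε0 hεg hoffε z m hcon
  have hsz : ∀ i, (∀ n : ℤ, ‖wt τ z' i n‖ ≤ 6 * Real.exp (-(n : ℝ) ^ 2)) ∧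
      3 / 4 ≤ ‖∑' n : ℤ, wt τ z' i n‖ + ‖∑' n : ℤ, (n : ℂ) * wt τ z' i n‖ := fun i =>
    hSZ (τ i i) (z' i) (g * ε ^ 2 / 2) (hdiag i) (hz' i) (by positivity) (by
      have : 2 * Real.pi * (g * ε ^ 2 / 2) = Real.pi * g * ε ^ 2 := by ring
      rw [this]
      linarith)
  obtain ⟨M, hM⟩ : ∃ M : Fin g → ℂ, M = fun i => ∑' n : ℤ, wt τ z' i n := ⟨_, rfl⟩
  obtain ⟨ν, hν⟩ : ∃ ν : Fin g → ℂ, ν = fun i => ∑' n : ℤ, (n : ℂ) * wt τ z' i n := ⟨_, rfl⟩
  have hMν : ∀ i, 3 / 4 ≤ ‖M i‖ + ‖ν i‖ := fun i => by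
    rw [hM, hν]
    exact (hsz i).2
  have hνB : ∀ i, ‖ν i‖ ≤ B := fun i => by
    rw [hν]
    exact (hB _ (hsz i).1).2.2.2
  obtain ⟨h, hh⟩ : ∃ h : Fin g → ℝ, h = fun i => max (l i) ‖M i‖ := ⟨_, rfl⟩
  have hh0 : ∀ i, 0 < h i := fun i => by
    rw [hh]
    exact lt_max_of_lt_left (hl i).1
  have hlh : ∀ i, l i ≤ h i := fun i => by
    rw [hh]
    exact le_max_left _ _
  have hMh : ∀ i, ‖M i‖ ≤ h i := fun i => by
    rw [hh]
    exact le_max_right _ _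
  have hhC : ∀ i, ((h i : ℝ) : ℂ) ≠ 0 := fun i => by exact_mod_cast (hh0 i).ne'
  have hlC : ∀ i, ((l i : ℝ) : ℂ) ≠ 0 := fun i => by exact_mod_cast (hl i).1.ne'
  obtain ⟨s, hs⟩ : ∃ s : Fin g → ℂ, s = fun i => M i / (h i : ℂ) := ⟨_, rfl⟩
  obtain ⟨u, hu⟩ : ∃ u : Fin g → ℂ, u = fun i => (l i : ℂ) / (h i : ℂ) * ν i := ⟨_, rfl⟩
  obtain ⟨β, hβ⟩ : ∃ β : Fin g → Fin g → ℂ, β = fun i j =>
      if i = j then 0 else 2 * Real.pi * Complex.I * τ i j / ((l i : ℂ) * (l j : ℂ)) := ⟨_, rfl⟩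
  have hun : ∀ i, ‖u i‖ = l i / h i * ‖ν i‖ := fun i => by
    rw [hu]
    simp only [norm_mul, norm_div, Complex.norm_real, Real.norm_eq_abs, abs_of_pos (hl i).1,
      abs_of_pos (hh0 i)]
  have hsn : ∀ i, ‖s i‖ = ‖M i‖ / h i := fun i => by
    rw [hs]
    simp only [norm_div, Complex.norm_real, Real.norm_eq_abs, abs_of_pos (hh0 i)]
  have hle1 : ∀ i, l i / h i ≤ 1 := fun i => (div_le_one (hh0 i)).2 (hlh i)
  have hulen : ∀ i, ‖u i‖ ≤ ‖ν i‖ := fun i => by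
    rw [hun]
    exact mul_le_of_le_one_left (norm_nonneg _) (hle1 i)
  have h2pi : ‖(2 * Real.pi * Complex.I : ℂ)‖ = 2 * Real.pi := by
    simp [abs_of_pos Real.pi_pos]
  have hβn : ∀ i j, i ≠ j → ‖β i j‖ = 2 * Real.pi * ‖τ i j‖ / (l i * l j) := fun i j hij => by
    rw [hβ]
    simp only [if_neg hij]
    rw [norm_div, norm_mul, h2pi, norm_mul, Complex.norm_real, Complex.norm_real,
      Real.norm_eq_abs, Real.norm_eq_abs, abs_of_pos (hl i).1, abs_of_pos (hl j).1]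
  obtain ⟨U, hU, hcU⟩ := hcp u s β (fun i => (hulen i).trans (hνB i))
    (fun i => by
      rw [hsn]
      exact (div_le_one (hh0 i)).2 (hMh i))
    (fun i => by
      rcases le_or_gt (l i) ‖M i‖ with h1 | h1
      · left
        rw [hsn, hh]
        simp only [max_eq_right h1]
        exact div_self (lt_of_lt_of_le (hl i).1 h1).ne'
      · right
        have h2 : h i = l i := by
          rw [hh]
          exact max_eq_left h1.le
        rw [hun, h2, div_self (hl i).1.ne', one_mul]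
        have h3 := hMν i
        have h4 := (hl i).2
        linarith)
    (fun i j => by
      rw [hβ]
      simp only [hsym i j, mul_comm (l i : ℂ) (l j : ℂ), eq_comm (a := i) (b := j)])
    (fun i j => by
      by_cases hij : i = j
      · rw [hβ]
        simp only [if_pos hij, norm_zero]
        positivity
      · have h1 := (hl i).1
        have h2 := (hl j).1
        rw [hβn i j hij, div_le_iff₀ (by positivity)]
        exact mul_le_mul_of_nonneg_left (hoff i j hij) (by positivity))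
    (fun i j hij hGij => by
      have h1 := (hl i).1
      have h2 := (hl j).1
      rw [hβn i j hij, le_div_iff₀ (by positivity)]
      have h3 := mul_le_mul_of_nonneg_left (hlow i j hij hGij)
        (show (0 : ℝ) ≤ 2 * Real.pi by positivity)
      refine le_trans (le_of_eq ?_) h3
      ring)
  have hana := hA (fun i n => wt τ z' i n) (fun i n => (hsz i).1 n) ε l (fun i j => τ i j)
    ⟨hε0, hε4, hεg, fun i => (hl i).1, fun i => (hl i).2, hoff⟩ U
  have hzero : ∑' n : Fin g → ℤ, (∏ i ∈ U, (n i : ℂ)) *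
      ((∏ i, wt τ z' i (n i)) * Complex.exp (∑ e ∈ P g, ex (fun i j => τ i j) n e)) = 0 := by
    rw [← hN U hU]
    exact tsum_congr fun n => by rw [hWT g τ hτ z' n]
  rw [hzero, zero_sub, norm_neg, norm_mul] at hana
  have hF : F Uᶜ (fun i => ∑' n : ℤ, wt τ z' i n)
      (fun i j => 2 * Real.pi * Complex.I * τ i j * (∑' n : ℤ, (n : ℂ) * wt τ z' i n) *
        (∑' n : ℤ, (n : ℂ) * wt τ z' j n)) =
      (∏ i ∈ Uᶜ, (h i : ℂ)) * F Uᶜ s (fun i j => β i j * u i * u j) := by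
    rw [← hSCL g Uᶜ (fun i => (h i : ℂ)) s]
    have e1 : (fun i => ∑' n : ℤ, wt τ z' i n) = fun i => (h i : ℂ) * s i := by
      funext i
      rw [hs, hM]
      simp only
      rw [mul_div_cancel₀ _ (hhC i)]
    rw [e1]
    refine F_congr _ _ fun i j hij => ?_
    have e2 : ∀ k, (∑' n : ℤ, (n : ℂ) * wt τ z' k n) = ν k := fun k => by rw [hν]
    rw [e2, e2, hβ, hu]
    simp only [if_neg hij.ne]
    have h1 := hhC i
    have h2 := hhC j
    have h3 := hlC i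
    have h4 := hlC j
    field_simp
  rw [hF, norm_mul, norm_prod, norm_prod] at hana
  have hprod : ∏ i ∈ Uᶜ, ‖(h i : ℂ)‖ = ∏ i ∈ Uᶜ, max (l i) ‖∑' n : ℤ, wt τ z' i n‖ := by
    refine prod_congr rfl fun i _ => ?_
    rw [Complex.norm_real, Real.norm_eq_abs, abs_of_pos (hh0 i), hh, hM]
  rw [hprod] at hana
  obtain ⟨Q, hQ⟩ : ∃ Q : ℝ, Q = ∏ i ∈ Uᶜ, max (l i) ‖∑' n : ℤ, wt τ z' i n‖ := ⟨_, rfl⟩
  rw [← hQ] at hana
  have hQ0 : 0 < Q := by
    rw [hQ]
    exact prod_pos fun i _ => lt_max_of_lt_left (hl i).1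
  have hνprod : ∏ i ∈ U, ‖u i‖ ≤ ∏ i ∈ U, ‖∑' n : ℤ, (n : ℂ) * wt τ z' i n‖ := by
    refine prod_le_prod (fun _ _ => norm_nonneg _) fun i _ => ?_
    have := hulen i
    rwa [hν] at this
  have h5 : c ≤ (∏ i ∈ U, ‖∑' n : ℤ, (n : ℂ) * wt τ z' i n‖) *
      ‖F Uᶜ s (fun i j => β i j * u i * u j)‖ :=
    hcU.trans (mul_le_mul_of_nonneg_right hνprod (norm_nonneg _))
  have h6 : c * Q ≤ C * ε * Q := by
    refine le_trans (mul_le_mul_of_nonneg_right h5 hQ0.le) (le_trans (le_of_eq ?_) hana)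
    ring
  have h7 := le_of_mul_le_mul_right h6 hQ0
  linarith

end Pool.TNP
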