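import Pool.Agent.Work.MP_29fd3c_np.Interface

set_option autoImplicit false

namespace Pool.TNP

open Finset Complex Pool.TH

theorem THR_card3 {g : ℕ} (x y z : Fin g) (h1 : x ≠ y) (h2 : x ≠ z) (h3 : y ≠ z) :
    ({x, y, z} : Finset (Fin g)).card = 3 := by
  rw [card_insert_of_notMem (by simp [h1, h2]), card_insert_of_notMem (by simp [h3]), card_singleton]

theorem p_THR (hREC : Stmt_REC) (_hCON : Stmt_CON) (hTWO : Stmt_TWO) (hHAF : Stmt_HAF) : Stmt_THR := by
  intro g s β hβ i hi h01 h23 h45
  by_contra hcon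
  push Not at hcon
  have hne : ∀ p q : Fin 6, p ≠ q → i p ≠ i q := fun p q h h' => h (hi h')
  have hmem : ∀ p : Fin 6, i p ∈ (univ : Finset (Fin 6)).image i := fun p => mem_image_of_mem i (mem_univ p)
  have hR : ∀ u a c d : Fin 6, u ≠ a → u ≠ c → u ≠ d → a ≠ c → a ≠ d → c ≠ d →
      β (i u) (i a) * F {i c, i d} s β + β (i u) (i c) * F {i a, i d} s β +
        β (i u) (i d) * F {i a, i c} s β = 0 := by
    intro u a c d hua huc hud hac had hcd
    have e1 := hne u a hua
    have e2 := hne u c huc
    have e3 := hne u d hud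
    have e4 := hne a c hac
    have e5 := hne a d had
    have e6 := hne c d hcd
    have hv : i u ∉ ({i a, i c, i d} : Finset (Fin g)) := by
      simp [e1, e2, e3]
    have h := hREC g s β hβ {i a, i c, i d} (i u) hv
    have hsub3 : ({i a, i c, i d} : Finset (Fin g)) ⊆ (univ : Finset (Fin 6)).image i := by
      intro x hx
      simp only [mem_insert, mem_singleton] at hx
      rcases hx with h | h | h <;> rw [h] <;> exact hmem _
    have h3 : F {i a, i c, i d} s β = 0 := hcon _ hsub3 (by rw [THR_card3 _ _ _ e4 e5 e6])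
    have h4 : F (insert (i u) {i a, i c, i d}) s β = 0 := by
      apply hcon _ (insert_subset (hmem u) hsub3)
      rw [card_insert_of_notMem hv, THR_card3 _ _ _ e4 e5 e6]
      norm_num
    rw [h3, h4, mul_zero, zero_add] at h
    have hs : ∑ j ∈ ({i a, i c, i d} : Finset (Fin g)), β (i u) j * F (({i a, i c, i d} : Finset (Fin g)).erase j) s β =
        β (i u) (i a) * F {i c, i d} s β + β (i u) (i c) * F {i a, i d} s β +
        β (i u) (i d) * F {i a, i c} s β := by
      rw [sum_insert (by simp [e4, e5]), sum_insert (by simp [e6]), sum_singleton]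
      have g1 : ({i a, i c, i d} : Finset (Fin g)).erase (i a) = {i c, i d} := by
        ext x
        simp only [mem_erase, mem_insert, mem_singleton]
        constructor
        · rintro ⟨h1, h2 | h2 | h2⟩
          · exact absurd h2 h1
          · exact Or.inl h2
          · exact Or.inr h2
        · rintro (h2 | h2)
          · exact ⟨by rw [h2]; exact e4.symm, Or.inr (Or.inl h2)⟩
          · exact ⟨by rw [h2]; exact e5.symm, Or.inr (Or.inr h2)⟩
      have g2 : ({i a, i c, i d} : Finset (Fin g)).erase (i c) = {i a, i d} := by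
        ext x
        simp only [mem_erase, mem_insert, mem_singleton]
        constructor
        · rintro ⟨h1, h2 | h2 | h2⟩
          · exact Or.inl h2
          · exact absurd h2 h1
          · exact Or.inr h2
        · rintro (h2 | h2)
          · exact ⟨by rw [h2]; exact e4, Or.inl h2⟩
          · exact ⟨by rw [h2]; exact e6.symm, Or.inr (Or.inr h2)⟩
      have g3 : ({i a, i c, i d} : Finset (Fin g)).erase (i d) = {i a, i c} := by
        ext x
        simp only [mem_erase, mem_insert, mem_singleton]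
        constructor
        · rintro ⟨h1, h2 | h2 | h2⟩
          · exact Or.inl h2
          · exact Or.inr h2
          · exact absurd h2 h1
        · rintro (h2 | h2)
          · exact ⟨by rw [h2]; exact e5, Or.inl h2⟩
          · exact ⟨by rw [h2]; exact e6, Or.inr (Or.inl h2)⟩
      rw [g1, g2, g3]
      ring
    rw [← hs]
    exact h.symm
  have hws : ∀ x y : Fin g, F {x, y} s β = F {y, x} s β := fun x y => by rw [pair_comm]
  -- proportionality
  have hprop : ∀ p q k l : Fin 6, p ≠ q → p ≠ k → p ≠ l → q ≠ k → q ≠ l → k ≠ l →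
      β (i p) (i q) * F {i k, i l} s β = β (i k) (i l) * F {i p, i q} s β := by
    intro p q k l hpq hpk hpl hqk hql hkl
    have r1 := hR p q k l hpq hpk hpl hqk hql hkl
    have r2 := hR q p k l hpq.symm hqk hql hpk hpl hkl
    have r3 := hR k p q l hpk.symm hqk.symm hkl hpq hpl hql
    have r4 := hR l p q k hpl.symm hql.symm hkl.symm hpq hpk hqk
    rw [hβ (i q) (i p)] at r2
    rw [hβ (i k) (i p), hβ (i k) (i q)] at r3
    rw [hβ (i l) (i p), hβ (i l) (i q), hβ (i l) (i k)] at r4
    have h2 : (2 : ℂ) * (β (i p) (i q) * F {i k, i l} s β - β (i k) (i l) * F {i p, i q} s β) = 0 := by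
      linear_combination r1 + r2 - r3 - r4
    have h3 := (mul_eq_zero.1 h2).resolve_left two_ne_zero
    exact sub_eq_zero.1 h3
  obtain ⟨lam, hlam⟩ : ∃ lam : ℂ, F {i 0, i 1} s β = lam * β (i 0) (i 1) :=
    ⟨F {i 0, i 1} s β / β (i 0) (i 1), (div_mul_cancel₀ _ h01).symm⟩
  have hstep : ∀ x y p q : Fin 6, x ≠ y → x ≠ p → x ≠ q → y ≠ p → y ≠ q → p ≠ q →
      β (i x) (i y) ≠ 0 → F {i x, i y} s β = lam * β (i x) (i y) →
      F {i p, i q} s β = lam * β (i p) (i q) := by
    intro x y p q h1 h2 h3 h4 h5 h6 hb hF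
    have h := hprop x y p q h1 h2 h3 h4 h5 h6
    rw [hF] at h
    have h' : β (i x) (i y) * F {i p, i q} s β = β (i x) (i y) * (lam * β (i p) (i q)) := by
      rw [h]; ring
    exact mul_left_cancel₀ hb h'
  have hF23 : F {i 2, i 3} s β = lam * β (i 2) (i 3) :=
    hstep 0 1 2 3 (by decide) (by decide) (by decide) (by decide) (by decide) (by decide) h01 hlam
  have hF45 : F {i 4, i 5} s β = lam * β (i 4) (i 5) :=
    hstep 0 1 4 5 (by decide) (by decide) (by decide) (by decide) (by decide) (by decide) h01 hlam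
  have hdec : ∀ p q : Fin 6, p ≠ q → ((0 : Fin 6) ≠ p ∧ (0 : Fin 6) ≠ q ∧ (1 : Fin 6) ≠ p ∧ (1 : Fin 6) ≠ q) ∨
      ((2 : Fin 6) ≠ p ∧ (2 : Fin 6) ≠ q ∧ (3 : Fin 6) ≠ p ∧ (3 : Fin 6) ≠ q) ∨
      ((4 : Fin 6) ≠ p ∧ (4 : Fin 6) ≠ q ∧ (5 : Fin 6) ≠ p ∧ (5 : Fin 6) ≠ q) := by decide
  have hall : ∀ p q : Fin 6, p ≠ q → F {i p, i q} s β = lam * β (i p) (i q) := by
    intro p q hpq
    rcases hdec p q hpq with ⟨a, b, c, d⟩ | ⟨a, b, c, d⟩ | ⟨a, b, c, d⟩
    · exact hstep 0 1 p q (by decide) a b c d hpq h01 hlam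
    · exact hstep 2 3 p q (by decide) a b c d hpq h23 hF23
    · exact hstep 4 5 p q (by decide) a b c d hpq h45 hF45
  by_cases hl0 : lam = 0
  · obtain ⟨A, hA, hA2, hAF⟩ := hTWO g s β hβ (i 0) (i 1) (i 2) (i 3) (hne _ _ (by decide))
      (hne _ _ (by decide)) (hne _ _ (by decide)) (hne _ _ (by decide)) (hne _ _ (by decide))
      (hne _ _ (by decide)) h01 h23
    have hsub : A ⊆ (univ : Finset (Fin 6)).image i := by
      intro x hx
      have := hA hx
      simp only [mem_insert, mem_singleton] at this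
      rcases this with h | h | h | h <;> rw [h] <;> exact hmem _
    by_cases h3 : 3 ≤ A.card
    · exact hAF (hcon A hsub h3)
    · have h2 : A.card = 2 := by omega
      obtain ⟨x, y, hxy, rfl⟩ := card_eq_two.1 h2
      have hx := hsub (mem_insert_self x {y})
      have hy := hsub (mem_insert_of_mem (mem_singleton_self y))
      rw [mem_image] at hx hy
      obtain ⟨p, _, rfl⟩ := hx
      obtain ⟨q, _, rfl⟩ := hy
      have hpq : p ≠ q := fun h => hxy (by rw [h])
      apply hAF
      rw [hall p q hpq, hl0, zero_mul]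
  · refine hHAF (fun p q => β (i p) (i q)) (fun p q => hβ _ _) ?_ h01 h23 h45
    intro a b c d hab hac had hbc hbd hcd
    have h := hR a b c d hab hac had hbc hbd hcd
    rw [hall c d hcd, hall b d hbd, hall b c hbc] at h
    have h' : lam * (β (i a) (i b) * β (i c) (i d) + β (i a) (i c) * β (i b) (i d) +
        β (i a) (i d) * β (i b) (i c)) = 0 := by
      linear_combination h
    exact (mul_eq_zero.1 h').resolve_left hl0

end Pool.TNP
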