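import Pool.Agent.Work.MP_29fd3c_np.Interface

set_option autoImplicit false

namespace Pool.TNP

open Finset Complex Pool.TH

/-- the final assembly -/
theorem fin_assembly (hCON : Stmt_CON) (hALGA : Stmt_ALGA) (hALGB : Stmt_ALGB)
    (hMAIN : Stmt_MAIN) (g : ℕ) (κ : ℝ) (hκ : 0 < κ) : ∃ ε : ℝ, 0 < ε ∧
    ∀ τ : Matrix (Fin g) (Fin g) ℂ, τ.transpose = τ → (τ.map Complex.im).PosDef →
    (∀ i, Real.sqrt 3 / 2 ≤ (τ i i).im) →
    ∀ l : Fin g → ℝ, (∀ i, 0 < l i ∧ l i ≤ ε) → (∀ i j, i ≠ j → ‖τ i j‖ ≤ l i * l j) →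
    ∀ z : Fin g → ℂ,
      (∀ r : ℕ, (∀ i, Set.ncard {j | j ≠ i ∧ ‖τ i j‖ < κ * l i * l j} ≤ r) →
        ∃ m : ℕ, 2 * m ≤ g + 1 + r ∧ iteratedFDeriv ℂ m (theta τ) z ≠ 0) ∧
      (∀ i : Fin 6 → Fin g, Function.Injective i →
        κ * l (i 0) * l (i 1) ≤ ‖τ (i 0) (i 1)‖ → κ * l (i 2) * l (i 3) ≤ ‖τ (i 2) (i 3)‖ →
        κ * l (i 4) * l (i 5) ≤ ‖τ (i 4) (i 5)‖ →
        ∃ m : ℕ, m + 3 ≤ g ∧ iteratedFDeriv ℂ m (theta τ) z ≠ 0) := by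
  classical
  -- one `ε` for all graphs
  have hex : ∀ p : Finset (Fin g × Fin g) × Fin (g + 1), ∃ ε : ℝ, 0 < ε ∧
      (ALG (fun i j => (i, j) ∈ p.1) p.2 → ∀ τ : Matrix (Fin g) (Fin g) ℂ, τ.transpose = τ →
        (τ.map Complex.im).PosDef → (∀ i, Real.sqrt 3 / 2 ≤ (τ i i).im) →
        ∀ l : Fin g → ℝ, (∀ i, 0 < l i ∧ l i ≤ ε) → (∀ i j, i ≠ j → ‖τ i j‖ ≤ l i * l j) →
        (∀ i j, i ≠ j → (i, j) ∈ p.1 → κ * l i * l j ≤ ‖τ i j‖) →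
        ∀ z : Fin g → ℂ, ∃ k ≤ (p.2 : ℕ), iteratedFDeriv ℂ k (theta τ) z ≠ 0) := by
    intro p
    by_cases hp : ALG (fun i j => (i, j) ∈ p.1) (p.2 : ℕ)
    · obtain ⟨ε, h1, h2⟩ := hMAIN g κ (fun i j => (i, j) ∈ p.1) p.2 hκ hp
      exact ⟨ε, h1, fun _ => h2⟩
    · exact ⟨1, one_pos, fun h => absurd h hp⟩
  choose E hE0 hE using hex
  obtain ⟨ε, hε0, hεE⟩ : ∃ ε : ℝ, 0 < ε ∧ ∀ p, ε ≤ E p := by
    refine ⟨univ.inf' univ_nonempty E, (lt_inf'_iff _).2 fun p _ => hE0 p, fun p => ?_⟩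
    exact inf'_le _ (mem_univ p)
  refine ⟨ε, hε0, ?_⟩
  intro τ hτ hpos hdiag l hl hoff z
  let S : Finset (Fin g × Fin g) := univ.filter fun e => κ * l e.1 * l e.2 ≤ ‖τ e.1 e.2‖
  have hS : ∀ i j, (i, j) ∈ S ↔ κ * l i * l j ≤ ‖τ i j‖ := fun i j => by simp [S]
  have key : ∀ m : ℕ, m ≤ g → ALG (fun i j => (i, j) ∈ S) m →
      ∃ k ≤ m, iteratedFDeriv ℂ k (theta τ) z ≠ 0 := by
    intro m hm hA
    exact hE (S, ⟨m, by omega⟩) hA τ hτ hpos hdiag l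
      (fun i => ⟨(hl i).1, (hl i).2.trans (hεE _)⟩) hoff (fun i j _ h => (hS i j).1 h) z
  constructor
  · intro r hr
    by_cases h : (g + 1 + r) / 2 ≤ g
    · obtain ⟨k, hk, hk'⟩ := key _ h (hALGA g _ r _ (fun i => by
        refine le_trans (le_of_eq ?_) (hr i)
        congr 1
        ext j
        simp only [Set.mem_ofPred_eq, hS, not_le]) (by omega))
      exact ⟨k, by omega, hk'⟩
    · obtain ⟨k, hk, hk'⟩ := key g le_rfl (by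
        intro K s β _ _
        refine ⟨∅, empty_subset _, ?_, ?_⟩
        · have := card_le_univ K
          rw [Fintype.card_fin] at this
          simpa using this
        · rw [(hCON g).1]
          exact one_ne_zero)
      exact ⟨k, by omega, hk'⟩
  · intro i hi h01 h23 h45
    have hg : 6 ≤ g := by
      have := Fintype.card_le_of_injective i hi
      simpa using this
    obtain ⟨k, hk, hk'⟩ := key (g - 3) (by omega)
      (hALGB g _ i (g - 3) hi ((hS _ _).2 h01) ((hS _ _).2 h23) ((hS _ _).2 h45) (by omega))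
    exact ⟨k, by omega, hk'⟩

end Pool.TNP
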