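import Pool.Agent.Work.MP_29fd3c_th.Norm

/-!
# Theta functions near products of elliptic curves: definitions and statements of the blocks

Table `tnp_blocks`.  File of block X: `Pool/Agent/Work/MP_29fd3c_np/B_X.lean`,
`import Pool.Agent.Work.MP_29fd3c_np.Interface`, `theorem p_X (h1 : Stmt_Y) .. : Stmt_X` in the
namespace `Pool.TNP` (hypotheses = column `uses`, in that order), helper lemmas prefixed `X_`.
-/

set_option autoImplicit false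

namespace Pool.TNP

open Finset Complex Pool.TH

variable {g : ℕ}

/-- the pairs `i < j` -/
def P (g : ℕ) : Finset (Fin g × Fin g) := univ.filter (fun e => e.1 < e.2)

/-- the number of pairs in `E` which contain `i` -/
def deg (E : Finset (Fin g × Fin g)) (i : Fin g) : ℕ :=
  (E.filter (fun e => e.1 = i ∨ e.2 = i)).card

/-- `E` is a matching inside `A` (every element of `A` is covered at most once, the others are not
covered) -/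
def IsM (A : Finset (Fin g)) (E : Finset (Fin g × Fin g)) : Prop :=
  ∀ i, deg E i ≤ if i ∈ A then 1 else 0

instance (A : Finset (Fin g)) : DecidablePred (IsM A) := fun E =>
  inferInstanceAs (Decidable (∀ i, deg E i ≤ if i ∈ A then 1 else 0))

/-- the sum over the matchings inside `A` of `∏ β e * ∏ s i` (`i` in `A` not covered) -/
noncomputable def F (A : Finset (Fin g)) (s : Fin g → ℂ) (β : Fin g → Fin g → ℂ) : ℂ :=
  ∑ E ∈ (P g).powerset.filter (IsM A),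
    (∏ e ∈ E, β e.1 e.2) * ∏ i ∈ A.filter (fun i => deg E i = 0), s i

/-- the exponents `2πi t_ij n_i n_j` -/
noncomputable def ex (t : Fin g → Fin g → ℂ) (n : Fin g → ℤ) (e : Fin g × Fin g) : ℂ :=
  2 * Real.pi * Complex.I * t e.1 e.2 * (n e.1 : ℂ) * (n e.2 : ℂ)

/-- decay of the weights -/
def Dec (w : ℤ → ℂ) : Prop :=
  ∀ n : ℤ, ‖w n‖ ≤ 6 * (1 + |(n : ℝ)|) * Real.exp (-(n : ℝ) ^ 2)

/-- the smallness conditions -/
structure Small (g : ℕ) (ε : ℝ) (l : Fin g → ℝ) (t : Fin g → Fin g → ℂ) : Prop where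
  pos : 0 < ε
  le : ε ≤ 1 / 4
  num : Real.pi * g * ε ^ 2 ≤ 1 / 20
  lpos : ∀ i, 0 < l i
  lle : ∀ i, l i ≤ ε
  t : ∀ i j, i ≠ j → ‖t i j‖ ≤ l i * l j

/-- The algebraic property of a graph: for all fields `s` and couplings `β` which do not vanish on
the edges inside `K` there is `A ⊆ K` with `|K| - |A| ≤ m` and `F A ≠ 0`. -/
def ALG (G : Fin g → Fin g → Prop) (m : ℕ) : Prop :=
  ∀ (K : Finset (Fin g)) (s : Fin g → ℂ) (β : Fin g → Fin g → ℂ), (∀ i j, β i j = β j i) →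
    (∀ i ∈ K, ∀ j ∈ K, i ≠ j → G i j → β i j ≠ 0) →
    ∃ A ⊆ K, K.card ≤ A.card + m ∧ F A s β ≠ 0

/-! ## Algebra -/

/-- Recursion.  Split the matchings `E` inside `insert v A` according to `v`: uncovered (then `E` is
a matching inside `A` and the factor is `s v`), or covered by exactly one pair, `{v, j}` with `j` in
`A` (as an element of `P g` it is `(v, j)` if `v < j` and `(j, v)` if `j < v`; `β` is symmetric);
`E` without it is a matching inside `A.erase j`, and every matching inside `A.erase j` arises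
(`Finset.sum_bij'` or `Finset.sum_nbij'` on the sigma type over `j`; or show first
`sum over E with v covered = sum over j in A of sum over E containing the pair`). -/
def Stmt_REC : Prop := ∀ (g : ℕ) (s : Fin g → ℂ) (β : Fin g → Fin g → ℂ),
  (∀ i j, β i j = β j i) → ∀ (A : Finset (Fin g)) (v : Fin g), v ∉ A →
    F (insert v A) s β = s v * F A s β + ∑ j ∈ A, β v j * F (A.erase j) s β

/-- `F ∅ = 1` (only `E = ∅` has all degrees `0`), and `F` is continuous (finite sums and products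
of coordinates). -/
def Stmt_CON : Prop := ∀ g : ℕ,
  (∀ (s : Fin g → ℂ) (β : Fin g → Fin g → ℂ), F ∅ s β = 1) ∧
  ∀ A : Finset (Fin g),
    Continuous fun x : (Fin g → ℂ) × (Fin g → Fin g → ℂ) => F A x.1 x.2

/-- Scaling: for a matching `E` inside `A`, `∏_{e ∈ E} h e.1 * h e.2 = ∏_{i ∈ A, deg = 1} h i`
(general identity `∏_{e ∈ E} h e.1 * h e.2 = ∏ i, h i ^ deg E i` for `E ⊆ P g`, induction on `E`),
and the covered and the uncovered vertices together give `∏_{i ∈ A} h i`. -/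
def Stmt_SCL : Prop := ∀ (g : ℕ) (A : Finset (Fin g)) (h s : Fin g → ℂ)
  (β : Fin g → Fin g → ℂ),
  F A (fun i => h i * s i) (fun i j => h i * h j * β i j) = (∏ i ∈ A, h i) * F A s β

/-- Decoupled vertices: induction on `D` with the recursion (the sum over `j` vanishes, as
`β v j = 0` for `v ∈ D`). -/
def Stmt_DCP : Prop := ∀ (g : ℕ) (s : Fin g → ℂ) (β : Fin g → Fin g → ℂ),
  (∀ i j, β i j = β j i) → ∀ A D : Finset (Fin g), Disjoint A D →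
    (∀ i ∈ D, ∀ j, β i j = 0) → F (A ∪ D) s β = (∏ i ∈ D, s i) * F A s β

/-- Injectivity of the up operator of the Boolean lattice below the middle.  Proof:
`∑_{|T| = k+1} |∑_{j ∈ T} f (T - j)|² = (|N| - k) ∑_{|S| = k} |f S|² + X` and
`∑_{|R| = k-1} |∑_{j ∉ R} f (R + j)|² = k ∑_{|S| = k} |f S|² + X` with the same cross terms
`X = ∑_{|R| = k-1} ∑_{i ≠ j ∉ R} f (R+i) conj (f (R+j))`.  Other proof: fix `S` and disjoint `D ⊆ N`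
with `|D| = k + 1`; `A_i` = sum of `f` over the `k`-subsets of `S ∪ D` meeting `S` in `i` points;
summing the hypothesis over the `T ⊆ S ∪ D` with `|T ∩ S| = i` gives
`(i+1) A_i + (k-i+1) A_{i-1} = 0`, so `A_0 = 0, A_1 = 0, ..., A_k = f S = 0`.
Third proof: induction on `N` for the powers of the up operator. -/
def Stmt_UP : Prop := ∀ (g : ℕ) (N : Finset (Fin g)) (k : ℕ) (f : Finset (Fin g) → ℂ),
  (∀ T ⊆ N, T.card = k + 1 → ∑ j ∈ T, f (T.erase j) = 0) → 2 * k < N.card →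
    ∀ S ⊆ N, S.card = k → f S = 0

/-- The degree bound of a graph with few missing edges.  Let `A₀ ⊆ K` have maximal size `d` with
`F A₀ ≠ 0` (it exists: `F ∅ = 1`).  If `A₀ = K` we are done.  Otherwise let `v ∈ K \ A₀`,
`W = K.erase v`, `N = {j ∈ W : β v j ≠ 0}`.  For `R ⊆ W` with `|R| = d + 1` REC gives
`0 = F (insert v R) - s v * F R = ∑_{j ∈ R} β v j * F (R.erase j)`.  Let `S₀ = A₀ \ N`,
`k = |A₀ ∩ N|`, `f T = F (T ∪ S₀) / ∏_{j ∈ T} β v j`; for `T ⊆ N` with `|T| = k + 1` the relation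
for `R = T ∪ S₀` gives `∑_{j ∈ T} f (T.erase j) = 0` (the terms `j ∈ S₀` vanish), and
`f (A₀ ∩ N) ≠ 0`; so `|N| ≤ 2 k ≤ 2 d` by UP.  As `|N| ≥ |K| - 1 - r`,
`2 (|K| - d) ≤ |K| + 1 + r ≤ g + 1 + r ≤ 2 m + 1`. -/
def Stmt_ALGA : Prop := ∀ (g : ℕ) (G : Fin g → Fin g → Prop) (r m : ℕ),
  (∀ i, Set.ncard {j | j ≠ i ∧ ¬ G i j} ≤ r) → g + 1 + r ≤ 2 * m + 1 → ALG G m

/-- Two disjoint edges: otherwise `F {i,j} = s_i s_j + β_ij = 0` for all pairs and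
`F {i,j,k} = s_i s_j s_k + s_i β_jk + s_j β_ik + s_k β_ij = -2 s_i s_j s_k = 0`, but `β_ab ≠ 0` and
`β_cd ≠ 0` give `s_a, s_b, s_c ≠ 0`. -/
def Stmt_TWO : Prop := ∀ (g : ℕ) (s : Fin g → ℂ) (β : Fin g → Fin g → ℂ),
  (∀ i j, β i j = β j i) → ∀ a b c d : Fin g, a ≠ b → a ≠ c → a ≠ d → b ≠ c → b ≠ d → c ≠ d →
    β a b ≠ 0 → β c d ≠ 0 → ∃ A ⊆ ({a, b, c, d} : Finset (Fin g)), 2 ≤ A.card ∧ F A s β ≠ 0

/-- No symmetric 6 x 6 matrix with all 4 x 4 hafnians zero and `b01, b23, b45 ≠ 0`.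
Step 1: `b 0 c ≠ 0` for `c = 2, 3, 4, 5`.  By the symmetries of the situation (exchange 2 and 3,
exchange the pairs) let `c = 2` and suppose `b 0 2 = 0`.  H(0123): `b03 b12 = - b01 b23 ≠ 0`.
If `b 0 4 ≠ 0`: with `v_a = b a 2 / b 0 a`, a in {1, 3, 4}, H(0,a,b,2) gives
`v_a + v_b = 0` for the three pairs, so `v = 0`, `b 3 2 = 0`, contradiction; similarly `b 0 5 = 0`.
H(0145): `b01 b45 + b04 b15 + b05 b14 = 0` gives `b01 b45 = 0`, contradiction.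
Step 2: all `b 0 a ≠ 0`; `u_ab = b a b / (b 0 a * b 0 b)` satisfies `u_ab + u_bc + u_ac = 0` for
distinct a, b, c in {1..5} (H(0,a,b,c)), so `u_ab = u_cd` for disjoint pairs (add the relations of
abc and abd, subtract those of acd and bcd), `u_23 = u_15 = u_24`, `u_15 = u_34`, and
`u_23 + u_34 + u_24 = 0` gives `u_23 = 0`, contradiction. -/
def Stmt_HAF : Prop := ∀ b : Fin 6 → Fin 6 → ℂ, (∀ i j, b i j = b j i) →
  (∀ i j k l : Fin 6, i ≠ j → i ≠ k → i ≠ l → j ≠ k → j ≠ l → k ≠ l →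
    b i j * b k l + b i k * b j l + b i l * b j k = 0) →
  b 0 1 ≠ 0 → b 2 3 ≠ 0 → b 4 5 ≠ 0 → False

/-- Three disjoint edges.  Suppose `F A = 0` for all `A` with `|A| ≥ 3` inside the image.  For
distinct `u, i, j, k` in the image REC gives
`β_ui w_jk + β_uj w_ik + β_uk w_ij = F {u,i,j,k} - s_u F {i,j,k} = 0`, `w_ij = F {i,j}`.
The four relations of `i, j, k, l` (two added, two subtracted) give `β_ij w_kl = β_kl w_ij`.  Let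
`lam = w_01 / β_01`; then `w_23 = lam β_23`, `w_45 = lam β_45`, and every pair is disjoint from one
of the three pairs, so `w = lam β` on all pairs.  If `lam = 0` then `F A = 0` for all `|A| ≥ 2`
inside `{0,1,2,3}`, against TWO.  If `lam ≠ 0` use HAF for `b p q = β (i p) (i q)`. -/
def Stmt_THR : Prop := ∀ (g : ℕ) (s : Fin g → ℂ) (β : Fin g → Fin g → ℂ),
  (∀ i j, β i j = β j i) → ∀ i : Fin 6 → Fin g, Function.Injective i →
    β (i 0) (i 1) ≠ 0 → β (i 2) (i 3) ≠ 0 → β (i 4) (i 5) ≠ 0 →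
    ∃ A ⊆ univ.image i, 3 ≤ A.card ∧ F A s β ≠ 0

/-- Let `q` be the number of the three pairs inside `K`; `|K| ≤ g - (3 - q) ≤ m + q`.  It suffices
to find `A ⊆ K` with `|A| ≥ q` and `F A ≠ 0`: `q = 0`: `A = ∅`.  `q = 1`, pair `a, b`: one of
`F {a} = s a`, `F {a,b} = s_a s_b + β_ab` is not zero.  `q = 2`: TWO.  `q = 3`: THR. -/
def Stmt_ALGB : Prop := ∀ (g : ℕ) (G : Fin g → Fin g → Prop) (i : Fin 6 → Fin g) (m : ℕ),
  Function.Injective i → G (i 0) (i 1) → G (i 2) (i 3) → G (i 4) (i 5) → g ≤ m + 3 → ALG G m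

/-- Compactness.  The set `X` of all `(u, s, β)` with the listed properties is closed and bounded in
`(Fin g → ℂ) × (Fin g → ℂ) × (Fin g → Fin g → ℂ)`, and
`Λ = ∑_{|U| ≤ m} (∏_U ‖u i‖) ‖F Uᶜ s (β u u)‖` is continuous (CON) and positive on `X`: let
`K = {i : u i ≠ 0}`, `β' i j = β i j * u i * u j`; ALG gives `A ⊆ K` with `F A s β' ≠ 0` and
`|K| ≤ |A| + m`; `U = K \ A` has at most `m` elements, `Uᶜ = A ∪ Kᶜ`, and by DCP
`F Uᶜ s β' = (∏_{i ∈ Kᶜ} s i) F A s β' ≠ 0` (for `i ∉ K`, `u i = 0`, so `‖s i‖ = 1`).  So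
`Λ ≥ c > 0` on `X` (`IsCompact.exists_isMinOn`; if `X` is empty any `c` works) and one of the at
most `2 ^ g` terms is `≥ c / 2 ^ g`. -/
def Stmt_CPT : Prop := ∀ (g : ℕ) (κ B : ℝ) (G : Fin g → Fin g → Prop) (m : ℕ), 0 < κ → ALG G m →
  ∃ c : ℝ, 0 < c ∧ ∀ (u s : Fin g → ℂ) (β : Fin g → Fin g → ℂ),
    (∀ i, ‖u i‖ ≤ B) → (∀ i, ‖s i‖ ≤ 1) → (∀ i, ‖s i‖ = 1 ∨ 1 / 2 ≤ ‖u i‖) →
    (∀ i j, β i j = β j i) → (∀ i j, ‖β i j‖ ≤ 2 * Real.pi) →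
    (∀ i j, i ≠ j → G i j → 2 * Real.pi * κ ≤ ‖β i j‖) →
    ∃ U : Finset (Fin g), U.card ≤ m ∧
      c ≤ (∏ i ∈ U, ‖u i‖) * ‖F Uᶜ s (fun i j => β i j * u i * u j)‖

/-! ## Analysis -/

/-- Product sums over `ι → ℤ`.  For `ι = Fin k` by induction on `k`
(`(Fin.consEquiv (fun _ => ℤ)).tsum_eq`, `tsum_mul_tsum_of_summable_norm`,
`Summable.mul_norm`, `Fin.prod_univ_succ`), then transport with `Fintype.equivFin ι`. -/
def Stmt_SUM : Prop := ∀ (ι : Type) [Fintype ι] (f : ι → ℤ → ℂ),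
  (∀ i, Summable fun n => ‖f i n‖) →
  (Summable fun n : ι → ℤ => ‖∏ i, f i (n i)‖) ∧
    ∑' n : ι → ℤ, ∏ i, f i (n i) = ∏ i, ∑' n, f i n

/-- The uncovered coordinates factor out.  `ℤ^g = ℤ^V × ℤ^(Vᶜ)`
(`Equiv.piEquivPiSubtypeProd (· ∈ V) (fun _ => ℤ)`), `H` is a function of the first component,
`∏ w = ∏_V * ∏_(Vᶜ)`, `tsum_mul_tsum_of_summable_norm`, SUM for `ι = {i // i ∉ V}`; the sum over
`ℤ^V` is bounded by `c` times the product over `V` of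
`D = ∑ₙ 6 (1 + |n|) exp (-n²) (1 + |n|)^(g+1) exp (n²/2) < ∞` (SUM for `ι = {i // i ∈ V}`);
`C = (1 + D) ^ g`. -/
def Stmt_FB : Prop := ∀ g : ℕ, ∃ C : ℝ, 0 < C ∧ ∀ w : Fin g → ℤ → ℂ, (∀ i, Dec (w i)) →
  ∀ (V : Finset (Fin g)) (H : (Fin g → ℤ) → ℂ) (c : ℝ), 0 ≤ c →
    (∀ n n' : Fin g → ℤ, (∀ i ∈ V, n i = n' i) → H n = H n') →
    (∀ n, ‖H n‖ ≤ c * ∏ i ∈ V, ((1 + |(n i : ℝ)|) ^ (g + 1) * Real.exp ((n i : ℝ) ^ 2 / 2))) →
    (Summable fun n : Fin g → ℤ => ‖(∏ i, w i (n i)) * H n‖) ∧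
    ‖∑' n : Fin g → ℤ, (∏ i, w i (n i)) * H n‖ ≤ C * c * ∏ i ∈ Vᶜ, ‖∑' n, w i n‖

/-- Bounds for the products over the pairs in `E ⊆ P g`, `V` = covered vertices.
`|x_e| ≤ 2π l_i l_j |n_i| |n_j|`, and `≤ π ε² (n_i² + n_j²)`, so
`∑_E |x_e| ≤ π g ε² ∑_V n_i² ≤ ∑_V n_i² / 2` (each vertex is in at most `g` pairs);
`|exp x - 1| ≤ |x| exp |x|`, `|exp x - 1 - x| ≤ |x|² exp |x|`;
`∏_E |n_i| |n_j| = ∏_V |n_i| ^ deg ≤ ∏_V (1 + |n_i|) ^ g`.  Second part: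
`|∏ y - ∏ x| ≤ (∑ |x_e|) ∏ |x_e| exp (∑ |x_e|)` (induction on `E`) and
`∑_E |x_e| ≤ 2π ε² |E| ∏_V (1 + |n_i|)`, `|E| ≤ g²`, `ε² ≤ ε`. -/
def Stmt_PB : Prop := ∀ (g : ℕ) (ε : ℝ) (l : Fin g → ℝ) (t : Fin g → Fin g → ℂ),
  Small g ε l t → ∀ E ⊆ P g, ∀ n : Fin g → ℤ,
    ‖∏ e ∈ E, (Complex.exp (ex t n e) - 1)‖ ≤
      (2 * Real.pi) ^ E.card * (∏ e ∈ E, l e.1 * l e.2) *
        ∏ i ∈ univ.filter (fun i => deg E i ≠ 0),
          ((1 + |(n i : ℝ)|) ^ (g + 1) * Real.exp ((n i : ℝ) ^ 2 / 2)) ∧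
    ‖∏ e ∈ E, (Complex.exp (ex t n e) - 1) - ∏ e ∈ E, ex t n e‖ ≤
      (2 * Real.pi) ^ (E.card + 1) * g ^ 2 * ε * (∏ e ∈ E, l e.1 * l e.2) *
        ∏ i ∈ univ.filter (fun i => deg E i ≠ 0),
          ((1 + |(n i : ℝ)|) ^ (g + 1) * Real.exp ((n i : ℝ) ^ 2 / 2))

/-- Exact factorization: `∏_E (2πi t_e n_i n_j) = (∏_E 2πi t_e) ∏_i n_i ^ deg E i` (induction on
`E ⊆ P g`), then SUM for `f i n = w i n * n ^ deg E i`. -/
def Stmt_TX : Prop := ∀ (g : ℕ) (w : Fin g → ℤ → ℂ), (∀ i, Dec (w i)) →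
  ∀ (t : Fin g → Fin g → ℂ), ∀ E ⊆ P g,
    (Summable fun n : Fin g → ℤ => ‖(∏ i, w i (n i)) * ∏ e ∈ E, ex t n e‖) ∧
    ∑' n : Fin g → ℤ, (∏ i, w i (n i)) * ∏ e ∈ E, ex t n e =
      (∏ e ∈ E, 2 * Real.pi * Complex.I * t e.1 e.2) * ∏ i, ∑' n : ℤ, w i n * (n : ℂ) ^ deg E i

/-- Combination of FB, PB, TX: `V = {deg E ≠ 0}`, `Vᶜ = {deg E = 0}`, `H n = ∏_E (exp x - 1)` and
`H n = ∏_E (exp x - 1) - ∏_E x` depend only on the coordinates in `V`;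
`C = C_FB (2π)^(g²+1) (g² + 1)` (`|E| ≤ g²`, `2π ≥ 1`); the second estimate from
`∑ w (∏ (exp x - 1)) - ∑ w ∏ x = ∑ w (∏ (exp x - 1) - ∏ x)` (`Summable.tsum_sub`). -/
def Stmt_TE : Prop := ∀ g : ℕ, ∃ C : ℝ, 0 < C ∧ ∀ w : Fin g → ℤ → ℂ, (∀ i, Dec (w i)) →
  ∀ (ε : ℝ) (l : Fin g → ℝ) (t : Fin g → Fin g → ℂ), Small g ε l t → ∀ E ⊆ P g,
    (Summable fun n : Fin g → ℤ =>
      ‖(∏ i, w i (n i)) * ∏ e ∈ E, (Complex.exp (ex t n e) - 1)‖) ∧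
    ‖∑' n : Fin g → ℤ, (∏ i, w i (n i)) * ∏ e ∈ E, (Complex.exp (ex t n e) - 1)‖ ≤
      C * (∏ e ∈ E, l e.1 * l e.2) * ∏ i ∈ univ.filter (fun i => deg E i = 0), ‖∑' n, w i n‖ ∧
    ‖∑' n : Fin g → ℤ, (∏ i, w i (n i)) * ∏ e ∈ E, (Complex.exp (ex t n e) - 1) -
        (∏ e ∈ E, 2 * Real.pi * Complex.I * t e.1 e.2) *
          ∏ i, ∑' n : ℤ, w i n * (n : ℂ) ^ deg E i‖ ≤
      C * ε * (∏ e ∈ E, l e.1 * l e.2) * ∏ i ∈ univ.filter (fun i => deg E i = 0), ‖∑' n, w i n‖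

/-- Absolute bound for the moments of the weights. -/
def Stmt_MOM : Prop := ∃ B : ℝ, 1 ≤ B ∧ ∀ a : ℤ → ℂ,
  (∀ n : ℤ, ‖a n‖ ≤ 6 * Real.exp (-(n : ℝ) ^ 2)) →
    Dec a ∧ Dec (fun n => (n : ℂ) * a n) ∧
    ‖∑' n, a n‖ ≤ B ∧ ‖∑' n : ℤ, (n : ℂ) * a n‖ ≤ B

/-- Products over pairs.  `M' i = max (l i) (‖M i‖)`.  (1) If `E ⊆ P g` is a matching inside `A`
(`IsM A E`) then `∏_E l l * ∏_{deg = 0, i ∈ A} ‖M i‖ ≤ ∏_A M'`.  (2) If not, then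
`∏_E l l * ∏_{deg = 0, i ∈ A} ‖M i‖ ≤ ε ∏_A M'`.  Both from
`∏_E l e.1 * l e.2 = ∏_i l_i ^ deg E i`: in `A` every covered vertex has a factor `≤ l_i ≤ M'_i`,
a vertex covered at least twice has an additional factor `≤ ε`, a covered vertex outside `A` has a
factor `≤ ε`, all other factors are `≤ 1`. -/
def Stmt_PR : Prop := ∀ (g : ℕ) (ε : ℝ) (l : Fin g → ℝ) (M : Fin g → ℝ), 0 < ε → ε ≤ 1 →
  (∀ i, 0 < l i) → (∀ i, l i ≤ ε) → (∀ i, 0 ≤ M i) → ∀ (A : Finset (Fin g)), ∀ E ⊆ P g,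
    (IsM A E → (∏ e ∈ E, l e.1 * l e.2) * ∏ i ∈ A.filter (fun i => deg E i = 0), M i ≤
      ∏ i ∈ A, max (l i) (M i)) ∧
    (¬ IsM A E → (∏ e ∈ E, l e.1 * l e.2) * ∏ i ∈ A.filter (fun i => deg E i = 0), M i ≤
      ε * ∏ i ∈ A, max (l i) (M i))

/-- The expansion.  Let `w i = a i` for `i ∉ U` and `w i n = n * a i n` for `i ∈ U` (both `Dec` by
MOM), `M i = ∑ a i`, `ν i = ∑ n a i n`; `exp (∑_P x) = ∏_P (1 + (exp x - 1)) =
∑_{E ⊆ P} ∏_E (exp x - 1)` (`Finset.prod_one_add` or `Finset.prod_add`), so the left sum is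
`∑_E T(E)` (finite sum of summable series, TE).  If `IsM Uᶜ E`: the main term of TE is
`(∏_E 2πi t_e) (∏_U ν_i) (∏_{Uᶜ, deg = 0} M_i) (∏_{Uᶜ, deg = 1} ν_i)`, which is `∏_U ν` times the
term of `F Uᶜ M (2πi t ν ν)` (`∏_E ν_i ν_j = ∏_{deg = 1} ν_i`), and the error is
`≤ C ε ∏_E l l ∏_{deg = 0} |∑ w_i| ≤ C ε B^g ∏_(Uᶜ) max (l, |M|)` (PR, part 1; the factors `i ∈ U`
are `≤ B`).  If not, `|T(E)| ≤ C B^g ε ∏_(Uᶜ) max (l, |M|)` (PR, part 2).  There are at most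
`2 ^ (g²)` sets `E`. -/
def Stmt_ANA : Prop := ∀ g : ℕ, ∃ C : ℝ, 0 < C ∧ ∀ a : Fin g → ℤ → ℂ,
  (∀ i, ∀ n : ℤ, ‖a i n‖ ≤ 6 * Real.exp (-(n : ℝ) ^ 2)) →
  ∀ (ε : ℝ) (l : Fin g → ℝ) (t : Fin g → Fin g → ℂ), Small g ε l t →
  ∀ U : Finset (Fin g),
    ‖∑' n : Fin g → ℤ, (∏ i ∈ U, (n i : ℂ)) *
          ((∏ i, a i (n i)) * Complex.exp (∑ e ∈ P g, ex t n e)) -
        (∏ i ∈ U, ∑' n : ℤ, (n : ℂ) * a i n) *
          F Uᶜ (fun i => ∑' n : ℤ, a i n)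
            (fun i j => 2 * Real.pi * Complex.I * t i j * (∑' n : ℤ, (n : ℂ) * a i n) *
              (∑' n : ℤ, (n : ℂ) * a j n))‖ ≤
      C * ε * ∏ i ∈ Uᶜ, max (l i) ‖∑' n : ℤ, a i n‖

/-! ## Theta functions -/

/-- the one-dimensional weights of the theta series -/
noncomputable def wt (τ : Matrix (Fin g) (Fin g) ℂ) (z : Fin g → ℂ) (i : Fin g) (n : ℤ) : ℂ :=
  Complex.exp (Real.pi * Complex.I * τ i i * (n : ℂ) ^ 2 + 2 * Real.pi * Complex.I * (n : ℂ) * z i)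

/-- Factorization of the terms: `quad_eq`; the double sum over `i, j` is the diagonal plus twice the
sum over `P g` (`τ` is symmetric). -/
def Stmt_WT : Prop := ∀ (g : ℕ) (τ : Matrix (Fin g) (Fin g) ℂ), τ.transpose = τ →
  ∀ (z : Fin g → ℂ) (n : Fin g → ℤ),
    term τ z n = (∏ i, wt τ z i (n i)) * Complex.exp (∑ e ∈ P g, ex (fun i j => τ i j) n e)

/-- Decay and simple zeros of the one-dimensional series `a n = exp (πi T n² + 2πi n z)`,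
`Y = Im T ≥ √3/2`, `|Im z| ≤ Y/2 + η`, `2π η ≤ 1/10`.
`|a n| ≤ exp (-π Y (n² - |n|) + |n|/10) ≤ exp (-2.72 (n² - |n|) + |n|/10) ≤ 6 exp (-n²)`
(`n = 0`; `|n| = 1`; `|n| ≥ 2`: `1.72 n² ≥ 2.82 |n|`).
Zeros: let `σ = 1` if `Im z ≤ 0`, `σ = -1` otherwise.  `∑ a - σ ∑ n a = ∑ (1 - σ n) a n`; the term
`n = 0` is `1`, the term `n = σ` is `0`; for `σ n = -m`, `m ≥ 1`: `|a n| ≤ exp (-2.72 m²)`, so the
term is `≤ (1 + m) exp (-2.72 m²) ≤ (2 exp (-2.72)) ^ m`; for `σ n = m ≥ 2`: the term is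
`≤ (m - 1) exp (-2.72 (m² - m) + m/10) ≤ (m-1) exp (-5.24 (m - 1))`; in all
`|∑ a - σ ∑ n a| ≥ 1 - 0.16 - 0.01 ≥ 3/4`. -/
def Stmt_SZ : Prop := ∀ (T z : ℂ) (η : ℝ), Real.sqrt 3 / 2 ≤ T.im → |z.im| ≤ T.im / 2 + η →
  0 ≤ η → 2 * Real.pi * η ≤ 1 / 10 →
  (∀ n : ℤ, ‖Complex.exp (Real.pi * Complex.I * T * (n : ℂ) ^ 2 +
      2 * Real.pi * Complex.I * (n : ℂ) * z)‖ ≤ 6 * Real.exp (-(n : ℝ) ^ 2)) ∧
  3 / 4 ≤ ‖∑' n : ℤ, Complex.exp (Real.pi * Complex.I * T * (n : ℂ) ^ 2 +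
      2 * Real.pi * Complex.I * (n : ℂ) * z)‖ +
    ‖∑' n : ℤ, (n : ℂ) * Complex.exp (Real.pi * Complex.I * T * (n : ℂ) ^ 2 +
      2 * Real.pi * Complex.I * (n : ℂ) * z)‖

/-- Reduction to the fundamental domain.  `Dom τ z` by `dom_of_large` (`C = ε²`, `T = √3/2`,
`2 ε² g < √3/2`).  `y = (Im τ)⁻¹ Im z`, `a = - round y`, `z' = z + τ a`, `Im z' = Im τ (y + a)`
with `|y + a| ≤ 1/2` (see the beginning of the proof of `normal2` in `MP_29fd3c_th/Normal2`).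
`der` for `T = U`, `α = -a`, `β = 1`; shift the summation index by `a` (`term_shift`,
`Equiv.addLeft a`) and divide by `term τ z a ≠ 0`. -/
def Stmt_RED : Prop := ∀ (g : ℕ) (τ : Matrix (Fin g) (Fin g) ℂ) (ε : ℝ), τ.transpose = τ →
  (τ.map Complex.im).PosDef → (∀ i, Real.sqrt 3 / 2 ≤ (τ i i).im) → 0 < ε →
  Real.pi * g * ε ^ 2 ≤ 1 / 20 → (∀ i j, i ≠ j → ‖τ i j‖ ≤ ε ^ 2) →
  ∀ (z : Fin g → ℂ) (N : ℕ), (∀ k ≤ N, iteratedFDeriv ℂ k (theta τ) z = 0) →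
    ∃ z' : Fin g → ℂ, (∀ i, |(z' i).im| ≤ (τ i i).im / 2 + g * ε ^ 2 / 2) ∧
      ∀ U : Finset (Fin g), U.card ≤ N →
        ∑' n : Fin g → ℤ, (∏ i ∈ U, (n i : ℂ)) * term τ z' n = 0

/-- The theorem for a fixed graph. -/
def Stmt_MAIN : Prop := ∀ (g : ℕ) (κ : ℝ) (G : Fin g → Fin g → Prop) (m : ℕ), 0 < κ → ALG G m →
  ∃ ε : ℝ, 0 < ε ∧ ∀ τ : Matrix (Fin g) (Fin g) ℂ, τ.transpose = τ →
    (τ.map Complex.im).PosDef → (∀ i, Real.sqrt 3 / 2 ≤ (τ i i).im) →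
    ∀ l : Fin g → ℝ, (∀ i, 0 < l i ∧ l i ≤ ε) → (∀ i j, i ≠ j → ‖τ i j‖ ≤ l i * l j) →
    (∀ i j, i ≠ j → G i j → κ * l i * l j ≤ ‖τ i j‖) →
    ∀ z : Fin g → ℂ, ∃ k ≤ m, iteratedFDeriv ℂ k (theta τ) z ≠ 0

end Pool.TNP
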